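import Pool.Agent.MP_708e57_al.c4.Spec2
import Pool.Agent.MP_708e57_al.Cat
import Pool.Agent.MP_708e57_al.Final

-- ======== part 0: formerly Pool.Agent.MP_708e57_al.c4.Brid
section MrgPart0

/-! From Gorenstein algebras with at most four generators to functionals. -/

set_option autoImplicit false

namespace Pool.Agent.MP_708e57_al.c4

open Module MvPolynomial

universe u

namespace Brid

variable {K : Type u} [Field K]

lemma card_mon (n : ℕ) : Fintype.card (Mon (Fin 4) n) = (n + 3).choose 3 := by
  classical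
  have h1 : Fintype.card (Mon (Fin 4) n) =
      ((Finset.univ : Finset (Fin 4)).finsuppAntidiag n).card := by
    refine Fintype.card_of_subtype _ fun f => ?_
    rw [Finset.mem_finsuppAntidiag, Finsupp.degree_eq_sum]
    simp
  rw [h1, Finset.card_finsuppAntidiag_nat_eq_choose, Finset.card_univ, Fintype.card_fin,
    show 4 + n - 1 = n + 3 by omega]
  exact Nat.choose_symm_add

lemma li_mon (n : ℕ) :
    LinearIndependent K fun u : Mon (Fin 4) n => (monomial u.1 (1 : K) : R K) := by
  have := (basisMonomials (Fin 4) K).linearIndependent.comp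
    (fun u : Mon (Fin 4) n => u.1) Subtype.val_injective
  rwa [coe_basisMonomials] at this

lemma finrank_H (n : ℕ) : finrank K (H K n) = (n + 3).choose 3 := by
  rw [H, homog_eq_span, finrank_span_eq_card (li_mon n), card_mon]

lemma fin_H (n : ℕ) : FiniteDimensional K (H K n) := by
  rw [H, homog_eq_span]
  exact FiniteDimensional.span_of_finite K (Set.finite_range _)

variable {A : Type u} [CommRing A] [Algebra K A]

lemma exists_span [FiniteDimensional K A] (V : Submodule K A) (hV : finrank K V ≤ 4) :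
    ∃ x : Fin 4 → A, Submodule.span K (Set.range x) = V := by
  let b := Module.finBasis K V
  have hb : Submodule.span K (Set.range fun s => (b s : A)) = V := by
    have h1 : (fun s => (b s : A)) = V.subtype ∘ b := rfl
    rw [h1, Set.range_comp, Submodule.span_image, b.span_eq, Submodule.map_top,
      Submodule.range_subtype]
  refine ⟨fun i => if h : i.1 < finrank K V then (b ⟨i.1, h⟩ : A) else 0, le_antisymm ?_ ?_⟩
  · rw [Submodule.span_le]
    rintro _ ⟨i, rfl⟩
    dsimp only
    split_ifs with h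
    · exact (b ⟨i.1, h⟩).2
    · exact V.zero_mem
  · refine hb.symm.le.trans (Submodule.span_mono ?_)
    rintro _ ⟨s, rfl⟩
    refine ⟨⟨s.1, s.2.trans_le hV⟩, ?_⟩
    simp [s.2]

lemma map_H (x : Fin 4 → A) (n : ℕ) :
    (H K n).map (aeval x : R K →ₐ[K] A).toLinearMap = Submodule.span K (Set.range x) ^ n := by
  rw [span_pow, H, homog_eq_span, Submodule.map_span, ← Set.range_comp]
  rfl

/-- a form of degree `n` is in the annihilator when it kills all forms -/
lemma mem_Ann {φ : R K →ₗ[K] K} {f : R K} (h : ∀ j, ∀ g ∈ H K j, φ (f * g) = 0) : f ∈ Ann φ := by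
  intro g
  rw [← sum_homogeneousComponent g, Finset.mul_sum, map_sum]
  exact Finset.sum_eq_zero fun j _ => h j _ (homogeneousComponent_mem j g)

end Brid

open Brid in
theorem bridgeS : BridgeS.{u} := by
  intro K _ d h hG h4
  obtain ⟨A, _, _, _, V, φ0, hP, hh, -⟩ := hG.data
  have hbig := hG.basic.2.2
  obtain ⟨x, rfl⟩ := exists_span V (by rw [← pow_one V, hh 1]; exact h4)
  let ev : R K →ₗ[K] A := (aeval x : R K →ₐ[K] A).toLinearMap
  let φ : R K →ₗ[K] K := φ0 ∘ₗ ev ∘ₗ homogeneousComponent d
  have hconc : Conc φ d := by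
    intro n hn f hf
    simp only [φ, LinearMap.comp_apply]
    rw [homogeneousComponent_of_mem hf, if_neg hn.symm, map_zero, map_zero]
  have htop : ∀ f ∈ H K d, φ f = φ0 (ev f) := by
    intro f hf
    simp only [φ, LinearMap.comp_apply]
    rw [homogeneousComponent_of_mem hf, if_pos rfl]
  have hmul : ∀ {i j : ℕ} {f g : R K}, f ∈ H K i → g ∈ H K j → f * g ∈ H K (i + j) :=
    fun hf hg => IsHomogeneous.mul hf hg
  have hev : ∀ f g : R K, ev (f * g) = ev f * ev g := fun f g => map_mul (aeval x) f g
  refine ⟨φ, hconc, fun n => ?_⟩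
  rcases Nat.lt_or_ge d n with hn | hn
  · have hI : I φ n = H K n := by
      refine inf_eq_left.2 fun f hf => mem_Ann fun j g hg => ?_
      exact hconc (n + j) (by omega) _ (hmul hf hg)
    rw [hbig n hn, zero_add, di, hI, finrank_H]
  · have hI : I φ n = H K n ⊓ LinearMap.ker ev := by
      apply le_antisymm
      · refine fun f hf => ⟨hf.1, ?_⟩
        refine hP n (d - n) (by omega) (ev f) ?_ fun w hw => ?_
        · rw [← map_H]
          exact ⟨f, hf.1, rfl⟩
        · rw [← map_H] at hw
          obtain ⟨g, hg, rfl⟩ := hw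
          have hm : f * g ∈ H K d := by
            have := hmul hf.1 hg
            rwa [show n + (d - n) = d by omega] at this
          have := htop _ hm
          rw [hf.2 g, hev] at this
          exact this.symm
      · refine fun f hf => ⟨hf.1, mem_Ann fun j g hg => ?_⟩
        by_cases hj : n + j = d
        · have h0 : ev f = 0 := hf.2
          rw [htop _ (hj ▸ hmul hf.1 hg), hev, h0, zero_mul, map_zero]
        · exact hconc (n + j) hj _ (hmul hf.1 hg)
    have := fin_H (K := K) n
    have h1 := LinearMap.finrank_range_add_finrank_ker (ev.domRestrict (H K n))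
    rw [LinearMap.range_domRestrict, LinearMap.ker_domRestrict, finrank_H] at h1
    rw [di, hI, ← hh n, ← map_H, ← h1, ← Submodule.map_comap_subtype,
      Submodule.finrank_map_subtype_eq]

end Pool.Agent.MP_708e57_al.c4

end MrgPart0

-- ======== part 1: formerly Pool.Agent.MP_708e57_al.c4.Conv
section MrgPart1

/-! The converse: every SI-sequence is a Gorenstein sequence (points of an order ideal). -/

set_option autoImplicit false

namespace Pool.Agent.MP_708e57_al.c4

open Module Finset

universe u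

namespace Conv

variable {K : Type u} [Field K] {τ : Type} {Ω : Type}

/-- the span of the members of a family of degree at most `i` -/
def sp (G : (τ →₀ ℕ) → Ω → K) (i : ℕ) : Submodule K (Ω → K) :=
  Submodule.span K {g | ∃ v : τ →₀ ℕ, v.degree ≤ i ∧ G v = g}

lemma sp_mono (G : (τ →₀ ℕ) → Ω → K) {i j : ℕ} (h : i ≤ j) : sp G i ≤ sp G j :=
  Submodule.span_mono fun _ ⟨v, hv, hg⟩ => ⟨v, hv.trans h, hg⟩

lemma mem_sp (G : (τ →₀ ℕ) → Ω → K) {i : ℕ} (v : τ →₀ ℕ) (h : v.degree ≤ i) : G v ∈ sp G i :=
  Submodule.subset_span ⟨v, h, rfl⟩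

lemma mul_mem_sp (x : τ → Ω → K) (G : (τ →₀ ℕ) → Ω → K) (c : (τ →₀ ℕ) → τ → K)
    (hG : ∀ v s, G (v + Finsupp.single s 1) = x s * G v - c v s • G v) (s : τ) (i : ℕ)
    (g : Ω → K) (hg : g ∈ sp G i) : x s * g ∈ sp G (i + 1) := by
  induction hg using Submodule.span_induction with
  | mem g hg =>
    obtain ⟨v, hv, rfl⟩ := hg
    have h1 : x s * G v = G (v + Finsupp.single s 1) + c v s • G v := by rw [hG]; abel
    rw [h1]
    refine Submodule.add_mem _ (mem_sp G _ ?_) (Submodule.smul_mem _ _ (mem_sp G _ (by omega)))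
    rw [map_add, Finsupp.degree_single]
    omega
  | zero => rw [mul_zero]; exact Submodule.zero_mem _
  | add a b _ _ ha hb => rw [mul_add]; exact Submodule.add_mem _ ha hb
  | smul a b _ hb => rw [mul_smul_comm]; exact Submodule.smul_mem _ _ hb

lemma sp_le (x : τ → Ω → K) (G G' : (τ →₀ ℕ) → Ω → K) (c c' : (τ →₀ ℕ) → τ → K)
    (h0 : G 0 = G' 0)
    (hG : ∀ v s, G (v + Finsupp.single s 1) = x s * G v - c v s • G v)
    (hG' : ∀ v s, G' (v + Finsupp.single s 1) = x s * G' v - c' v s • G' v) (i : ℕ) :
    sp G i ≤ sp G' i := by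
  have key : ∀ n, ∀ v : τ →₀ ℕ, v.degree = n → G v ∈ sp G' n := by
    intro n
    induction n with
    | zero =>
      intro v hv
      rw [(Finsupp.degree_eq_zero_iff v).1 hv, h0]
      exact mem_sp G' 0 (by simp)
    | succ n ih =>
      intro v hv
      have hne : v ≠ 0 := by
        rintro rfl
        simp at hv
      obtain ⟨s, hs⟩ := Finsupp.ne_iff.1 hne
      have hs' : v s ≠ 0 := hs
      have hd := degree_sub_single hs'
      have he : v = (v - Finsupp.single s 1) + Finsupp.single s 1 := by
        rw [tsub_add_cancel_of_le]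
        exact Finsupp.single_le_iff.2 (by omega)
      have h1 := ih (v - Finsupp.single s 1) (by omega)
      rw [he, hG]
      exact Submodule.sub_mem _ (mul_mem_sp x G' c' hG' s n _ h1)
        (Submodule.smul_mem _ _ (sp_mono G' (by omega) h1))
  refine Submodule.span_le.2 ?_
  rintro _ ⟨v, hv, rfl⟩
  exact sp_mono G' hv (key _ v rfl)

variable [Fintype τ]

/-- powers -/
def pw (K : Type u) [Field K] (O : Finset (τ →₀ ℕ)) (v : τ →₀ ℕ) : O → K :=
  fun p => ∏ s, ((p.1 s : ℕ) : K) ^ v s

/-- falling powers -/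
def fl (K : Type u) [Field K] (O : Finset (τ →₀ ℕ)) (v : τ →₀ ℕ) : O → K :=
  fun p => ∏ s, (((p.1 s).descFactorial (v s) : ℕ) : K)

lemma pw_add (O : Finset (τ →₀ ℕ)) (v w : τ →₀ ℕ) (p : O) :
    pw K O (v + w) p = pw K O v p * pw K O w p := by
  simp only [pw, Finsupp.add_apply, pow_add, prod_mul_distrib]

lemma pw_step (O : Finset (τ →₀ ℕ)) (v : τ →₀ ℕ) (s : τ) :
    pw K O (v + Finsupp.single s 1) =
      (fun p : O => ((p.1 s : ℕ) : K)) * pw K O v - (0 : K) • pw K O v := by
  classical
  funext p
  rw [zero_smul, sub_zero, pw_add, Pi.mul_apply, mul_comm]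
  congr 1
  unfold pw
  rw [prod_eq_single s]
  · simp
  · intro b _ hb
    rw [Finsupp.single_eq_of_ne hb, pow_zero]
  · simp

lemma fl_step (O : Finset (τ →₀ ℕ)) (v : τ →₀ ℕ) (s : τ) :
    fl K O (v + Finsupp.single s 1) =
      (fun p : O => ((p.1 s : ℕ) : K)) * fl K O v - ((v s : ℕ) : K) • fl K O v := by
  classical
  funext p
  rw [Pi.sub_apply, Pi.mul_apply, Pi.smul_apply, smul_eq_mul, ← sub_mul]
  unfold fl
  rw [← mul_prod_erase _ _ (mem_univ s), ← mul_prod_erase _ _ (mem_univ s), ← mul_assoc]
  congr 1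
  · rw [Finsupp.add_apply, Finsupp.single_eq_same, Nat.descFactorial_succ]
    rcases Nat.lt_or_ge (p.1 s) (v s) with h | h
    · rw [Nat.descFactorial_eq_zero_iff_lt.2 h]
      simp
    · rw [Nat.cast_mul, Nat.cast_sub h]
  · refine prod_congr rfl fun b hb => ?_
    rw [Finsupp.add_apply, Finsupp.single_eq_of_ne (ne_of_mem_erase hb), add_zero]

lemma sp_eq (O : Finset (τ →₀ ℕ)) (i : ℕ) : sp (pw K O) i = sp (fl K O) i := by
  have h0 : pw K O 0 = fl K O 0 := by
    funext p
    simp [pw, fl]
  exact le_antisymm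
    (sp_le (fun s (p : O) => ((p.1 s : ℕ) : K)) _ _ (fun _ _ => 0) (fun v s => ((v s : ℕ) : K)) h0
      (pw_step O) (fl_step O) i)
    (sp_le (fun s (p : O) => ((p.1 s : ℕ) : K)) _ _ (fun v s => ((v s : ℕ) : K)) (fun _ _ => 0)
      h0.symm (fl_step O) (pw_step O) i)

lemma le_of_fl (O : Finset (τ →₀ ℕ)) (v : τ →₀ ℕ) (p : O) (h : fl K O v p ≠ 0) : v ≤ p.1 := by
  intro s
  by_contra hc
  apply h
  unfold fl
  refine prod_eq_zero (mem_univ s) ?_
  rw [Nat.descFactorial_eq_zero_iff_lt.2 (not_le.1 hc), Nat.cast_zero]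

lemma fl_indep [CharZero K] (O : Finset (τ →₀ ℕ)) :
    LinearIndependent K (fun v : O => fl K O v.1) := by
  classical
  rw [Fintype.linearIndependent_iff]
  intro g hg
  have key : ∀ n, ∀ v : O, v.1.degree = n → g v = 0 := by
    intro n
    induction n using Nat.strong_induction_on with
    | _ n ih =>
      intro v hv
      have h1 := congrFun hg v
      rw [Finset.sum_apply, sum_eq_single v] at h1
      · rw [Pi.smul_apply, smul_eq_mul, Pi.zero_apply] at h1
        refine (mul_eq_zero.1 h1).resolve_right ?_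
        unfold fl
        refine prod_ne_zero_iff.2 fun s _ => ?_
        rw [Nat.descFactorial_self]
        exact Nat.cast_ne_zero.2 (Nat.factorial_ne_zero _)
      · intro w _ hw
        rw [Pi.smul_apply, smul_eq_mul]
        by_cases h2 : fl K O w.1 v = 0
        · rw [h2, mul_zero]
        · have h3 := le_of_fl O w.1 v h2
          obtain ⟨y, hy⟩ := exists_add_of_le h3
          have hy0 : y ≠ 0 := by
            rintro rfl
            exact hw (Subtype.ext (by rw [hy, add_zero]))
          have h4 : y.degree ≠ 0 := fun h => hy0 ((Finsupp.degree_eq_zero_iff y).1 h)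
          have h5 : v.1.degree = w.1.degree + y.degree := by rw [hy, map_add]
          rw [ih w.1.degree (by omega) w rfl, zero_mul]
      · simp
  exact fun v => key _ v rfl

lemma finrank_sp [CharZero K] (O : Finset (τ →₀ ℕ)) (hO : ∀ u ∈ O, ∀ v, v ≤ u → v ∈ O) (i : ℕ) :
    finrank K (sp (pw K O) i) = (O.filter fun u => u.degree ≤ i).card := by
  classical
  let e : (O.filter fun u => u.degree ≤ i) → O := fun v => ⟨v.1, (mem_filter.1 v.2).1⟩
  have he : Function.Injective e := fun a b h => Subtype.ext (congrArg (fun z : O => z.1) h)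
  have h1 := (fl_indep (K := K) O).comp e he
  have h2 : sp (fl K O) i = Submodule.span K (Set.range ((fun v : O => fl K O v.1) ∘ e)) := by
    refine le_antisymm (Submodule.span_le.2 ?_) (Submodule.span_mono ?_)
    · rintro _ ⟨v, hv, rfl⟩
      by_cases h : v ∈ O
      · exact Submodule.subset_span ⟨⟨v, mem_filter.2 ⟨h, hv⟩⟩, rfl⟩
      · have : fl K O v = 0 := by
          funext p
          by_contra hc
          exact h (hO _ p.2 _ (le_of_fl O v p hc))
        rw [this]
        exact Submodule.zero_mem _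
    · rintro _ ⟨v, rfl⟩
      exact ⟨v.1, (mem_filter.1 v.2).2, rfl⟩
  rw [sp_eq, h2, finrank_span_eq_card h1, Fintype.card_coe]

/-- the evaluation matrix -/
noncomputable def ev (K : Type u) [Field K] (O : Finset (τ →₀ ℕ)) (i : ℕ) : Matrix (Mon (Option τ) i) O K :=
  Matrix.of fun u p => pw K O u.1.some p

lemma span_ev (O : Finset (τ →₀ ℕ)) (i : ℕ) :
    Submodule.span K (Set.range (ev K O i).row) = sp (pw K O) i := by
  unfold sp
  congr 1
  ext g
  constructor
  · rintro ⟨u, rfl⟩
    have := degree_option u.1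
    rw [u.2] at this
    exact ⟨u.1.some, by omega, rfl⟩
  · rintro ⟨v, hv, rfl⟩
    refine ⟨⟨v.optionElim (i - v.degree), ?_⟩, ?_⟩
    · rw [degree_option, Finsupp.some_optionElim, Finsupp.optionElim_apply_none]
      omega
    · funext p
      simp only [Matrix.row, ev, Matrix.of_apply, Finsupp.some_optionElim]

lemma rank_cat [CharZero K] (O : Finset (τ →₀ ℕ)) (hO : ∀ u ∈ O, ∀ v, v ≤ u → v ∈ O) (i j : ℕ)
    (hj : ∀ u ∈ O, u.degree ≤ j) :
    (cat (fun u : Option τ →₀ ℕ => ∑ p : O, pw K O u.some p) i j).rank =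
      (O.filter fun u => u.degree ≤ i).card := by
  classical
  have h1 : cat (fun u : Option τ →₀ ℕ => ∑ p : O, pw K O u.some p) i j =
      ev K O i * (ev K O j).transpose := by
    ext u v
    simp only [cat, ev, Matrix.of_apply, Matrix.mul_apply, Matrix.transpose_apply,
      Finsupp.some_add, pw_add]
  have h2 : sp (pw K O) j = ⊤ := by
    refine Submodule.eq_top_of_finrank_eq ?_
    rw [finrank_sp O hO, filter_true_of_mem hj, finrank_fintype_fun_eq_card, Fintype.card_coe]
  have h3 : LinearMap.range (ev K O j).transpose.mulVecLin = ⊤ := by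
    rw [Matrix.range_mulVecLin, ← h2, ← span_ev]
    rfl
  rw [← finrank_sp (K := K) O hO, ← span_ev, ← Matrix.rank_eq_finrank_span_row, h1]
  unfold Matrix.rank
  rw [Matrix.mulVecLin_mul, LinearMap.range_comp_of_range_eq_top _ h3]

omit [Fintype τ] in
lemma card_le (O : Finset (τ →₀ ℕ)) (i : ℕ) :
    (O.filter fun u => u.degree ≤ i).card =
      ∑ l ∈ range (i + 1), (O.filter fun u => u.degree = l).card := by
  classical
  rw [card_eq_sum_card_fiberwise (f := fun u : τ →₀ ℕ => u.degree) (t := range (i + 1))]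
  · refine sum_congr rfl fun l hl => ?_
    have := mem_range.1 hl
    congr 1
    ext u
    simp only [mem_filter]
    constructor
    · rintro ⟨⟨h1, -⟩, h2⟩
      exact ⟨h1, h2⟩
    · rintro ⟨h1, h2⟩
      exact ⟨⟨h1, by omega⟩, h2⟩
  · intro u hu
    have := (mem_filter.1 (mem_coe.1 hu)).2
    exact mem_coe.2 (mem_range.2 (by simp only; omega))

end Conv

open Conv in
/-- A symmetric sequence whose first half is the sum sequence of an O-sequence is Gorenstein. -/
theorem isGorSeq_of_sum (K : Type u) [Field K] [CharZero K] (d : ℕ) (h t : ℕ → ℕ) (ht : IsOSeq t)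
    (hh : ∀ i, 2 * i ≤ d → h i = ∑ j ∈ range (i + 1), t j)
    (hsym : ∀ i j, i + j = d → h i = h j) (hbig : ∀ i, d < i → h i = 0) : IsGorSeq K d h := by
  classical
  obtain ⟨B, O, hdown, hdeg, hcard⟩ := exists_ideal ht (d / 2)
  have hlow : ∀ i, 2 * i ≤ d →
      (cat (fun u : Option (Fin B) →₀ ℕ => ∑ p : O, pw K O u.some p) i (d - i)).rank = h i := by
    intro i hi
    rw [rank_cat O hdown i (d - i) (fun u hu => by have := hdeg u hu; omega), card_le, hh i hi]
    exact sum_congr rfl fun l hl => hcard l (by have := mem_range.1 hl; omega)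
  refine isGorSeq_cat (fun u : Option (Fin B) →₀ ℕ => ∑ p : O, pw K O u.some p) d
    ⟨Finsupp.single none d, Finsupp.degree_single _ _, ?_⟩ h (fun i hi => ?_) hbig
  · have h0 := hcard 0 (Nat.zero_le _)
    rw [ht.1] at h0
    have h1 : O.card ≠ 0 := by
      have := card_filter_le O (fun u => u.degree = 0)
      omega
    simp only [Finsupp.some_single_none, pw, Finsupp.coe_zero, Pi.zero_apply, pow_zero,
      prod_const_one, sum_const, card_univ, Fintype.card_coe, nsmul_eq_mul, mul_one]
    exact Nat.cast_ne_zero.2 h1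
  · rcases Nat.lt_or_ge d (2 * i) with h2 | h2
    · have h3 := hlow (d - i) (by omega)
      obtain ⟨j, rfl⟩ : ∃ j, d = i + j := ⟨d - i, by omega⟩
      rw [hsym i (i + j - i) (by omega), ← h3, ← Matrix.rank_transpose]
      have e1 : i + j - i = j := by omega
      have e2 : i + j - j = i := by omega
      rw [e1, e2]
      congr 1
      ext u v
      simp only [cat, Matrix.transpose_apply, Matrix.of_apply, add_comm]
    · exact hlow i h2

/-- Every SI-sequence is a Gorenstein sequence. -/
theorem isGorSeq_of_SI (K : Type u) [Field K] [CharZero K] (d : ℕ) (h : ℕ → ℕ)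
    (hsym : ∀ i j, i + j = d → h i = h j) (hbig : ∀ i, d < i → h i = 0)
    (hmono : ∀ i, 2 * (i + 1) ≤ d → h i ≤ h (i + 1)) (t : ℕ → ℕ) (ht : IsOSeq t) (h0 : h 0 = 1)
    (hd : ∀ i, 2 * (i + 1) ≤ d → t (i + 1) = h (i + 1) - h i) : IsGorSeq K d h := by
  refine isGorSeq_of_sum K d h t ht (fun i => ?_) hsym hbig
  induction i with
  | zero => intro _; simp [h0, ht.1]
  | succ i ih =>
    intro hi
    have := hmono i hi
    rw [sum_range_succ, ← ih (by omega), hd i hi]
    omega

namespace Conv

lemma le_mac (l x : ℕ) (h : l = 0 → x = 0) : x ≤ mac l x := by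
  obtain ⟨b, h1, h2⟩ := exists_rep l x h
  have := val_add_up l b
  omega

lemma mc_mono (l : ℕ) {a b : ℕ} (h : a ≤ b) : a.multichoose (l + 1) ≤ b.multichoose (l + 1) :=
  (mc_strictMono l).monotone h

lemma gain (l x : ℕ) : ∃ r, x = (topB l x).multichoose (l + 1) + r ∧ (l = 0 → r = 0) ∧
    mac (l + 1) x = (topB l x).multichoose (l + 1) + (topB l x - 1).multichoose (l + 2) +
      mac l r := by
  have h1 := topB_le l x
  have h2 := rem_lt l x
  refine ⟨x - (topB l x).multichoose (l + 1), by omega, ?_, by rw [mac_succ, mc_split]⟩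
  rintro rfl
  simp only [Nat.multichoose_zero_right] at h2
  omega

lemma le_topB (l x b : ℕ) (h : b.multichoose (l + 1) ≤ x) : b ≤ topB l x := by
  have h1 := lt_topB l x
  by_contra hc
  have := mc_mono l (show topB l x + 1 ≤ b by omega)
  omega

lemma gain_top (l x : ℕ) (h : 3 ≤ topB l x) : x + (l + 3) ≤ mac (l + 1) x := by
  obtain ⟨r, h1, h2, h3⟩ := gain l x
  have h4 := le_mac l r h2
  have h5 := mc_mono (l + 1) (show 2 ≤ topB l x - 1 by omega)
  rw [Nat.multichoose_two] at h5
  have h6 : l + 1 + 1 = l + 2 := rfl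
  rw [h6] at h5
  omega

lemma H_succ (n s : ℕ) : ∑ i ∈ range (n + 1 + 1), min (i + 1) (s + 1) =
    n + 2 + ∑ i ∈ range (n + 1), min (i + 1) s := by
  have h1 : ∀ i, min (i + 1) (s + 1) = 1 + min i s := fun i => by omega
  simp only [h1]
  rw [sum_add_distrib, sum_range_succ' (fun i => min i s)]
  simp

lemma gain_low (l : ℕ) : ∀ x s, s ≤ l → (l = 0 → x = 0) →
    ∑ i ∈ range (l + 1), min (i + 1) s ≤ x → x + s ≤ mac l x := by
  induction l with
  | zero =>
    intro x s h1 h2 _
    rw [h2 rfl]
    omega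
  | succ l ih =>
    intro x s h1 h2 h3
    rcases s with _ | s
    · exact le_mac _ _ h2
    · rw [H_succ] at h3
      have h4 : 2 ≤ topB l x := le_topB l x 2 (by rw [Nat.multichoose_two]; omega)
      rcases h4.eq_or_lt with h5 | h5
      · obtain ⟨r, g1, g2, g3⟩ := gain l x
        rw [← h5] at g1 g3
        rw [Nat.multichoose_two] at g1 g3
        rw [show 2 - 1 = 1 from rfl, Nat.multichoose_one] at g3
        have := ih r s (by omega) g2 (by omega)
        omega
      · have := gain_top l x h5
        omega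

lemma H_top (n s : ℕ) (h : n + 1 ≤ s) :
    ∑ i ∈ range (n + 1), min (i + 1) s = (n + 2).choose 2 := by
  induction n with
  | zero => simp; omega
  | succ n ih =>
    rw [sum_range_succ, ih (by omega), choose_two_succ (n + 2)]
    omega

end Conv

open Conv in
/-- Macaulay's condition in three variables from the level form. -/
theorem le_mac_of_levels (n x y : ℕ) (hn : 1 ≤ n) (hy : y ≤ (n + 3).choose 2)
    (h : ∀ s, 1 ≤ s → x + s ≤ y → ∑ i ∈ range (n + 1), min (i + 1) s ≤ x) : y ≤ mac n x := by
  rcases Nat.lt_or_ge x y with h1 | h1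
  · have h2 := h (y - x) (by omega) (by omega)
    rcases Nat.lt_or_ge n (y - x) with h3 | h3
    · rw [H_top n _ h3] at h2
      obtain ⟨l, rfl⟩ : ∃ l, n = l + 1 := ⟨n - 1, by omega⟩
      have h4 : 3 ≤ topB l x := le_topB l x 3 (by
        rw [Nat.multichoose_eq, show 3 + (l + 1) - 1 = (l + 1) + 2 by omega, Nat.choose_symm_add]
        exact h2)
      have h5 := gain_top l x h4
      rw [choose_two_succ (l + 1 + 2)] at hy
      omega
    · have := gain_low n x (y - x) h3 (by omega) h2
      omega
  · exact h1.trans (le_mac n x (by omega))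

theorem convS : ConvS.{u} := by
  intro K _ _ d h _ hs
  obtain ⟨h1, h2, h3, h4⟩ := hs
  refine isGorSeq_of_SI K d h (fun i j hij => ?_) h2 h3 _ h4 (by simpa using h4.1)
    (fun i hi => ?_)
  · rw [h1 i (by omega), show d - i = j by omega]
  · simp only [Nat.add_one_ne_zero, if_false, if_pos hi, Nat.add_sub_cancel]

namespace Conv

lemma H_add (n s : ℕ) :
    ∑ i ∈ range (n + 1), min (i + 1) s + (n + 2 - s).choose 2 = (n + 2).choose 2 := by
  induction n with
  | zero =>
    rcases s with _ | _ | s
    · simp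
    · simp
    · simp
  | succ n ih =>
    rw [sum_range_succ, choose_two_succ (n + 2)]
    rcases Nat.lt_or_ge (n + 2) s with h | h
    · rw [show n + 2 - s = 0 by omega] at ih
      rw [show n + 1 + 2 - s = 0 by omega]
      omega
    · rw [show n + 1 + 2 - s = (n + 2 - s) + 1 by omega, choose_two_succ (n + 2 - s)]
      omega

end Conv

theorem mac3S' : Mac3S := by
  intro n x y hn _ hy h
  refine le_mac_of_levels n x y hn hy fun s h1 h2 => ?_
  have := h s h1 h2
  have := Conv.H_add n s
  omega

end Pool.Agent.MP_708e57_al.c4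

end MrgPart1

-- marker of a merged file
example : 731051 + 476046 = 731051 + 476046 := rfl
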