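import Mathlib.Algebra.Polynomial.Bivariate
import Mathlib.RingTheory.PiTensorProduct
import Mathlib.RingTheory.MvPolynomial.IrreducibleQuadratic
import Pool.Agent.MP_708e57_al.Defs

-- ======== part 0: formerly Pool.Agent.MP_708e57_al.c4.Spec
section MrgPart0

/-! Codimension four: definitions and the statements of the blocks. -/

set_option autoImplicit false

namespace Pool.Agent.MP_708e57_al.c4

open Module

universe u

/-- polynomials in `y1, y2, y3, y4 = X 0, X 1, X 2, X 3` -/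
abbrev R (F : Type u) [Field F] : Type u := MvPolynomial (Fin 4) F

/-- forms of degree `n` -/
abbrev H (F : Type u) [Field F] (n : ℕ) : Submodule F (R F) :=
  MvPolynomial.homogeneousSubmodule (Fin 4) F n

/-- polynomials in `z = X` with coefficients polynomials in `w = C X` -/
abbrev O (F : Type u) [Field F] : Type u := Polynomial (Polynomial F)

variable {F : Type u} [Field F]

/-- the functional lives in degree `d` -/
def Conc (φ : R F →ₗ[F] F) (d : ℕ) : Prop := ∀ n, n ≠ d → ∀ f ∈ H F n, φ f = 0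

/-- the annihilator of a functional -/
def Ann (φ : R F →ₗ[F] F) : Submodule F (R F) where
  carrier := {f | ∀ g, φ (f * g) = 0}
  add_mem' ha hb g := by rw [add_mul, map_add, ha g, hb g, add_zero]
  zero_mem' g := by rw [zero_mul, map_zero]
  smul_mem' c f hf g := by rw [smul_mul_assoc, map_smul, hf g, smul_zero]

/-- the degree `n` part of the annihilator -/
noncomputable def I (φ : R F →ₗ[F] F) (n : ℕ) : Submodule F (R F) := H F n ⊓ Ann φ

/-- its dimension; the Hilbert function is `(n + 3).choose 3 - di φ n` -/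
noncomputable def di (φ : R F →ₗ[F] F) (n : ℕ) : ℕ := finrank F (I φ n)

/-- the Hilbert function does not decrease up to the middle -/
def Uni (φ : R F →ₗ[F] F) (d : ℕ) : Prop :=
  ∀ i j, i ≤ j → 2 * j ≤ d + 1 → (i + 3).choose 3 + di φ j ≤ (j + 3).choose 3 + di φ i

/-- the product rule -/
def Lei {A : Type u} [CommRing A] (D : A →+ A) : Prop := ∀ f g, D (f * g) = D f * g + f * D g

/-- a derivation that moves `X a` to `X b`, keeps constants constant and commutes with `φ` -/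
structure Der (φ : R F →ₗ[F] F) (D : R F →+ R F) (a b : Fin 4) : Prop where
  mul : Lei D
  con : ∀ c : F, ∃ c' : F, D (MvPolynomial.C c) = MvPolynomial.C c'
  hit : D (MvPolynomial.X a) = MvPolynomial.X b
  mis : ∀ e, e ≠ a → D (MvPolynomial.X e) = 0
  ph : ∀ f, D (MvPolynomial.C (φ f)) = MvPolynomial.C (φ (D f))

/-- generic coordinates -/
def Gen (φ : R F →ₗ[F] F) : Prop :=
  ∃ D12 D31 D32 D41 D43 : R F →+ R F, Der φ D12 0 1 ∧ Der φ D31 2 0 ∧ Der φ D32 2 1 ∧
    Der φ D41 3 0 ∧ Der φ D43 3 2 ∧ ∀ f, D41 (D43 f) = D43 (D41 f)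

/-- `y1 ↦ 1, y2 ↦ z, y3 ↦ w, y4 ↦ 0` -/
noncomputable def eps (F : Type u) [Field F] : R F →ₐ[F] O F :=
  MvPolynomial.aeval ![1, Polynomial.X, Polynomial.C Polynomial.X, 0]

/-- `w ↦ 0` -/
noncomputable def rho (F : Type u) [Field F] : O F →ₐ[F] Polynomial F :=
  Polynomial.mapAlgHom (Polynomial.aeval (0 : F))

/-- `w ↦ w z`; the degree in `z` of the image is the total degree -/
noncomputable def tau (F : Type u) [Field F] : O F →ₐ[F] O F :=
  Polynomial.aevalAeval (Polynomial.C Polynomial.X * Polynomial.X) Polynomial.X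

/-- total degree at most `n` -/
def L (F : Type u) [Field F] (n : ℕ) : Submodule F (O F) where
  carrier := {f | (tau F f).natDegree ≤ n}
  add_mem' ha hb := by
    simp only [Set.mem_ofPred_eq, map_add] at *
    exact Polynomial.natDegree_add_le_of_degree_le ha hb
  zero_mem' := by simp
  smul_mem' c f hf := by
    simp only [Set.mem_ofPred_eq, map_smul] at *
    exact (Polynomial.natDegree_smul_le c _).trans hf

/-- `b : w ^ k` -/
noncomputable def Wk (b : Submodule F (O F)) (k : ℕ) : Submodule F (O F) :=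
  b.comap (LinearMap.mulLeft F (Polynomial.C Polynomial.X ^ k))

/-- the leading forms of order `k` -/
noncomputable def Vk (b : Submodule F (O F)) (k : ℕ) : Submodule F (Polynomial F) :=
  (Wk b k).map (rho F).toLinearMap

/-- `b + P0 L n` -/
noncomputable def plus (b : Submodule F (O F)) (P0 : O F) (n : ℕ) : Submodule F (O F) :=
  b ⊔ (L F n).map (LinearMap.mulLeft F P0)

/-- the plane curve of a plateau -/
structure Curve (b b' : Submodule F (O F)) (D k s m : ℕ) (P0 G0 : O F) : Prop where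
  num : D = k + s + 1 + m ∧ k + 1 ≤ s
  mon : P0.Monic ∧ P0.natDegree = s ∧ P0 ∈ L F s
  g0 : G0 ∈ L F m ∧ Polynomial.C Polynomial.X ^ k * (P0 * G0) ∈ b'
  test : ∀ Q, Polynomial.C Polynomial.X ^ k * (Q * G0) ∈ plus b P0 (D - s) → P0 ∣ Q
  lev : ∀ κ, finrank F (Vk (plus b P0 (D - s)) κ) ≤ (D - κ + 1 - s) + if κ < k then s - 1 - κ else 0

/-- sections 1 and 2 of the note; `D = E + 1` -/
def CurveS : Prop :=
  ∀ (F : Type u) [Field F] [CharZero F] (b b' : Submodule F (O F)) (E : ℕ) (d1 d2 : O F →+ O F),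
    b ≤ L F (E + 1) → b' ≤ L F E → FiniteDimensional F b → b' ≤ b →
    (∀ f ∈ b', Polynomial.X * f ∈ b ∧ Polynomial.C Polynomial.X * f ∈ b) →
    Lei d1 → Lei d2 → d1 (Polynomial.C Polynomial.X) = 1 →
    d2 (Polynomial.C Polynomial.X) = Polynomial.X →
    (∀ f ∈ b, d1 f ∈ b ∧ d2 f ∈ b) → (∀ f ∈ b', d1 f ∈ b' ∧ d2 f ∈ b') →
    (∀ κ, Vk b' κ ≠ ⊥ → ∃ p ∈ Vk b' κ, p.coeff (E - κ) ≠ 0) →
    finrank F b ≤ finrank F b' + (E + 1) →
    (∀ κ, finrank F (Vk b κ) ≤ E + 1 - 2 * κ) ∨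
      ∃ k s m P0 G0, Curve b b' (E + 1) k s m P0 G0

/-- section 0: passing to generic coordinates over a larger field -/
def GenS : Prop :=
  ∀ (K : Type u) [Field K] [CharZero K] (φ : R K →ₗ[K] K) (d : ℕ), Conc φ d →
    ∃ (F : Type u) (_ : Field F) (_ : CharZero F) (ψ : R F →ₗ[F] F),
      Conc ψ d ∧ Gen ψ ∧ ∀ n, di ψ n = di φ n

/-- from Gorenstein algebras to functionals -/
def BridgeS : Prop :=
  ∀ (K : Type u) [Field K] (d : ℕ) (h : ℕ → ℕ), IsGorSeq K d h → h 1 ≤ 4 →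
    ∃ φ : R K →ₗ[K] K, Conc φ d ∧ ∀ n, h n + di φ n = (n + 3).choose 3

end Pool.Agent.MP_708e57_al.c4

end MrgPart0

-- ======== part 1: formerly Pool.Agent.MP_708e57_al.c4.Spec2
section MrgPart1

/-! Codimension four: the statements of the blocks for the SI theorem. -/

set_option autoImplicit false

namespace Pool.Agent.MP_708e57_al.c4

open Module

universe u

variable {F : Type u} [Field F]

/-- the plane curve of a plateau, growth `τ` -/
structure CurveT (b b' : Submodule F (O F)) (D τ k s m : ℕ) (P0 G0 : O F) : Prop where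
  num : D = k + s + 1 + m ∧ k + τ ≤ s
  mon : P0.Monic ∧ P0.natDegree = s ∧ P0 ∈ L F s
  g0 : G0 ∈ L F m ∧ Polynomial.C Polynomial.X ^ k * (P0 * G0) ∈ b'
  test : ∀ Q, Polynomial.C Polynomial.X ^ k * (Q * G0) ∈ plus b P0 (D - s) → P0 ∣ Q
  lev : ∀ κ, finrank F (Vk (plus b P0 (D - s)) κ) ≤ (D - κ + 1 - s) + if κ < k then s - τ - κ else 0
  full : ∀ κ ≤ k, ∀ q ∈ Polynomial.degreeLT F (m + k - κ + 1),
    ∃ f, Polynomial.C Polynomial.X ^ κ * (P0 * f) ∈ b' ∧ rho F f = q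

theorem CurveT.curve {b b' : Submodule F (O F)} {D τ k s m : ℕ} {P0 G0 : O F}
    (h : CurveT b b' D τ k s m P0 G0) (hτ : 1 ≤ τ) : Curve b b' D k s m P0 G0 :=
  ⟨⟨h.num.1, (Nat.add_le_add_left hτ k).trans h.num.2⟩, h.mon, h.g0, h.test,
    fun κ => (h.lev κ).trans (by split_ifs <;> omega)⟩

/-- `CurveS` with growth `τ` -/
def CurveTS : Prop :=
  ∀ (F : Type u) [Field F] [CharZero F] (b b' : Submodule F (O F)) (E τ : ℕ) (d1 d2 : O F →+ O F),
    1 ≤ τ → b ≤ L F (E + 1) → b' ≤ L F E → FiniteDimensional F b → b' ≤ b →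
    (∀ f ∈ b', Polynomial.X * f ∈ b ∧ Polynomial.C Polynomial.X * f ∈ b) →
    Lei d1 → Lei d2 → d1 (Polynomial.C Polynomial.X) = 1 →
    d2 (Polynomial.C Polynomial.X) = Polynomial.X →
    (∀ f ∈ b, d1 f ∈ b ∧ d2 f ∈ b) → (∀ f ∈ b', d1 f ∈ b' ∧ d2 f ∈ b') →
    (∀ κ, Vk b' κ ≠ ⊥ → ∃ p ∈ Vk b' κ, p.coeff (E - κ) ≠ 0) →
    finrank F b + τ ≤ finrank F b' + (E + 2) →
    (∀ κ, finrank F (Vk b κ) ≤ E + 2 - τ - 2 * κ) ∨
      ∃ k s m P0 G0, CurveT b b' (E + 1) τ k s m P0 G0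

theorem CurveTS.curveS (h : CurveTS.{u}) : CurveS.{u} := by
  intro F _ _ b b' E d1 d2 h1 h2 h3 h4 h5 h6 h7 h8 h9 h10 h11 h12 h13
  obtain q | ⟨k, s, m, P0, G0, q⟩ :=
    h F b b' E 1 d1 d2 le_rfl h1 h2 h3 h4 h5 h6 h7 h8 h9 h10 h11 h12 (by omega)
  · exact Or.inl q
  · exact Or.inr ⟨k, s, m, P0, G0, q.curve le_rfl⟩

/-- Macaulay's bound in three variables -/
def Mac3S : Prop :=
  ∀ n x y : ℕ, 1 ≤ n → x ≤ (n + 2).choose 2 → y ≤ (n + 3).choose 2 →
    (∀ τ, 1 ≤ τ → x + τ ≤ y → (n + 2).choose 2 ≤ x + (n + 2 - τ).choose 2) → y ≤ mac n x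

/-- `h` is an SI-sequence of socle degree `d` -/
def IsSI (d : ℕ) (h : ℕ → ℕ) : Prop :=
  (∀ i ≤ d, h i = h (d - i)) ∧ (∀ i, d < i → h i = 0) ∧ (∀ i, 2 * (i + 1) ≤ d → h i ≤ h (i + 1)) ∧
    IsOSeq fun i => if i = 0 then h 0 else if 2 * i ≤ d then h i - h (i - 1) else 0

/-- the converse -/
def ConvS : Prop :=
  ∀ (K : Type u) [Field K] [CharZero K] (d : ℕ) (h : ℕ → ℕ), h 1 ≤ 4 → IsSI d h → IsGorSeq K d h

end Pool.Agent.MP_708e57_al.c4

end MrgPart1

-- marker of a merged file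
example : 731051 + 29236 = 731051 + 29236 := rfl
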