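import Mathlib.LinearAlgebra.FreeModule.PID
import Mathlib.Algebra.DualNumber
import Mathlib.RingTheory.Flat.TorsionFree
import Mathlib.Algebra.Module.StablyFree.Basic
import Mathlib.RingTheory.Polynomial.GaussLemma
import Mathlib.Algebra.Order.Antidiag.FinsuppEquiv
import Mathlib.RingTheory.Polynomial.IsIntegral
import Mathlib.RingTheory.Polynomial.DegreeLT
import Mathlib.RingTheory.SimpleRing.Principal
import Mathlib.RingTheory.TotallySplit
import Mathlib.RingTheory.Etale.Weakly
import Mathlib.RingTheory.Henselian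
import Mathlib.RingTheory.RegularLocalRing.Defs
import Mathlib.Tactic.Polynomial.Basic
import Pool.Agent.MP_708e57_al.c4.Spec2

-- ======== part 0: formerly Pool.Agent.MP_708e57_al.c4.Kit
section MrgPart0

/-! Codimension four: tools on forms, functionals, derivations and dimensions. -/

set_option autoImplicit false

namespace Pool.Agent.MP_708e57_al.c4

open Module MvPolynomial

universe u

variable {F : Type u} [Field F]

theorem finH (F : Type u) [Field F] (n : ℕ) : FiniteDimensional F (H F n) :=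
  Module.Finite.iff_fg.2 (homogeneousSubmodule_fg _ _ n)

theorem fin_of_le {n : ℕ} {W : Submodule F (R F)} (h : W ≤ H F n) : FiniteDimensional F W :=
  haveI := finH F n
  Submodule.finiteDimensional_of_le h

theorem finrank_H (F : Type u) [Field F] (n : ℕ) : finrank F (H F n) = (n + 3).choose 3 := by
  classical
  have e : {d : Fin 4 →₀ ℕ | d.degree = n} = ↑((Finset.univ : Finset (Fin 4)).finsuppAntidiag n) := by
    ext d
    simp [Finsupp.degree_eq_sum]
  rw [H, homogeneousSubmodule_eq_finsupp_supported, e,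
    (AddMonoidAlgebra.supportedEquivFinsupp _).finrank_eq, finrank_finsupp_self]
  simp only [Finset.coe_sort_coe, Fintype.card_coe, Finset.card_finsuppAntidiag_nat_eq_choose,
    Finset.card_univ, Fintype.card_fin]
  rw [show 4 + n - 1 = n + 3 by omega, Nat.choose_symm_add]

theorem H_mul {a b : ℕ} {f g : R F} (hf : f ∈ H F a) (hg : g ∈ H F b) : f * g ∈ H F (a + b) :=
  IsHomogeneous.mul hf hg

theorem H_X (a : Fin 4) : (X a : R F) ∈ H F 1 := isHomogeneous_X _ _

theorem H_Xp (a : Fin 4) (n : ℕ) : (X a ^ n : R F) ∈ H F n := isHomogeneous_X_pow _ _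

theorem H_Xmul {n : ℕ} (a : Fin 4) {f : R F} (hf : f ∈ H F n) : X a * f ∈ H F (n + 1) :=
  add_comm 1 n ▸ H_mul (H_X a) hf

theorem H_zero {f : R F} (hf : f ∈ H F 0) : ∃ c, f = C c :=
  ⟨_, by rw [← homogeneousComponent_zero, homogeneousComponent_eq_self hf]⟩

theorem H_succ {n : ℕ} {f : R F} (hf : f ∈ H F (n + 1)) :
    ∃ g : Fin 4 → R F, (∀ a, g a ∈ H F n) ∧ f = ∑ a, X a * g a := by
  rw [H, ← homogeneousSubmodule_one_pow, pow_succ', homogeneousSubmodule_one_pow] at hf
  refine Submodule.mul_induction_on hf ?_ ?_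
  · intro m hm x hx
    rw [homogeneousSubmodule_one_eq_span_X, Submodule.mem_span_range_iff_exists_fun] at hm
    obtain ⟨c, rfl⟩ := hm
    exact ⟨fun a => c a • x, fun a => Submodule.smul_mem _ _ hx, by
      simp [Finset.sum_mul]⟩
  · rintro x y ⟨g, hg, rfl⟩ ⟨g', hg', rfl⟩
    exact ⟨g + g', fun a => add_mem (hg a) (hg' a), by simp [mul_add, Finset.sum_add_distrib]⟩

/-- induction over forms -/
theorem H_ind {P : ℕ → R F → Prop} (h0 : ∀ c, P 0 (C c))
    (hadd : ∀ n f g, P n f → P n g → P n (f + g))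
    (hX : ∀ n a f, f ∈ H F n → P n f → P (n + 1) (X a * f)) :
    ∀ n, ∀ f ∈ H F n, P n f := by
  intro n
  induction n with
  | zero =>
    intro f hf
    obtain ⟨c, rfl⟩ := H_zero hf
    exact h0 c
  | succ n ih =>
    intro f hf
    obtain ⟨g, hg, rfl⟩ := H_succ hf
    rw [Fin.sum_univ_four]
    have := fun a => hX n a _ (hg a) (ih _ (hg a))
    exact hadd _ _ _ (hadd _ _ _ (hadd _ _ _ (this 0) (this 1)) (this 2)) (this 3)

theorem H_cancel {n k : ℕ} (a : Fin 4) {f : R F} (hf : X a ^ k * f ∈ H F (n + k)) :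
    f ∈ H F n := by
  intro d hd
  have h1 : coeff (Finsupp.single a k + d) (X a ^ k * f) ≠ 0 := by
    rwa [X_pow_eq_monomial, coeff_monomial_mul, one_mul]
  have := hf h1
  rw [map_add] at this
  simp only [Finsupp.weight_single, Pi.one_apply, smul_eq_mul, mul_one] at this
  omega

theorem H_cancel0 {n k : ℕ} (a : Fin 4) {f : R F} (hf : X a ^ k * f ∈ H F n) (h : n < k) :
    f = 0 := by
  ext d
  by_contra hd
  have h1 : coeff (Finsupp.single a k + d) (X a ^ k * f) ≠ 0 := by
    rwa [X_pow_eq_monomial, coeff_monomial_mul, one_mul]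
  have := hf h1
  rw [map_add] at this
  simp only [Finsupp.weight_single, Pi.one_apply, smul_eq_mul, mul_one] at this
  omega

variable {φ : R F →ₗ[F] F} {d : ℕ}

theorem mem_Ann {f : R F} : f ∈ Ann φ ↔ ∀ g, φ (f * g) = 0 := Iff.rfl

theorem Ann_mul {f : R F} (hf : f ∈ Ann φ) (g : R F) : g * f ∈ Ann φ := fun x => by
  rw [mul_comm g, mul_assoc]
  exact hf _

theorem Conc.ann (h : Conc φ d) {i : ℕ} {f : R F} (hf : f ∈ H F i)
    (hg : ∀ j, i + j = d → ∀ g ∈ H F j, φ (f * g) = 0) : f ∈ Ann φ := by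
  intro g
  rw [← sum_homogeneousComponent g, Finset.mul_sum, map_sum]
  refine Finset.sum_eq_zero fun n _ => ?_
  by_cases e : i + n = d
  · exact hg n e _ (homogeneousComponent_mem n g)
  · exact h _ e _ (H_mul hf (homogeneousComponent_mem n g))

theorem Conc.ann' (h : Conc φ d) {i j : ℕ} (e : i + j = d) {f : R F} (hf : f ∈ H F i)
    (hg : ∀ g ∈ H F j, φ (f * g) = 0) : f ∈ Ann φ :=
  h.ann hf fun j' e' => (show j = j' by omega) ▸ hg

theorem Conc.mul {s : ℕ} (h : Conc φ (d + s)) {P : R F} (hP : P ∈ H F s) :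
    Conc (φ ∘ₗ LinearMap.mulLeft F P) d := fun n hn f hf =>
  h (s + n) (by omega) _ (H_mul hP hf)

theorem finI (φ : R F →ₗ[F] F) (n : ℕ) : FiniteDimensional F (I φ n) := fin_of_le inf_le_left

theorem di_le (φ : R F →ₗ[F] F) (n : ℕ) : di φ n ≤ (n + 3).choose 3 := by
  have := finH F n
  rw [← finrank_H F n]
  exact Submodule.finrank_mono inf_le_left

section lei

variable {A : Type u} [CommRing A] {D : A →+ A}

theorem Lei.one (h : Lei D) : D 1 = 0 := by
  have := h 1 1
  simpa using this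

theorem Lei.pow (h : Lei D) (x : A) (n : ℕ) : D (x ^ (n + 1)) = (n + 1 : A) * (x ^ n * D x) := by
  induction n with
  | zero => simp
  | succ n ih =>
    rw [pow_succ, h, ih]
    push_cast
    ring

theorem Lei.pow_zero' (h : Lei D) {x : A} (hx : D x = 0) (n : ℕ) : D (x ^ n) = 0 := by
  cases n with
  | zero => simpa using h.one
  | succ n => rw [h.pow, hx, mul_zero, mul_zero]

end lei

variable {D : R F →+ R F} {a b : Fin 4}

theorem Der.X_mem (h : Der φ D a b) (e : Fin 4) : D (X e) ∈ H F 1 := by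
  by_cases c : e = a
  · rw [c, h.hit]
    exact H_X b
  · rw [h.mis e c]
    exact zero_mem _

theorem Der.memH (h : Der φ D a b) : ∀ n, ∀ f ∈ H F n, D f ∈ H F n := by
  refine H_ind (fun c => ?_) (fun n f g hf hg => ?_) (fun n e f hf ih => ?_)
  · obtain ⟨c', e⟩ := h.con c
    rw [e]
    exact isHomogeneous_C _ _
  · rw [map_add]
    exact add_mem hf hg
  · rw [h.mul]
    exact add_mem (add_comm 1 n ▸ H_mul (h.X_mem e) hf) (H_Xmul e ih)

theorem Der.phi (h : Der φ D a b) {f : R F} (hf : φ f = 0) : φ (D f) = 0 := by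
  have := h.ph f
  rw [hf, map_zero, map_zero] at this
  exact C_injective _ _ (this.symm.trans (map_zero _).symm)

theorem Der.move (h : Der φ D a b) {f g : R F} (h0 : φ (f * g) = 0) (h1 : φ (f * D g) = 0) :
    φ (D f * g) = 0 := by
  have := h.phi h0
  rwa [h.mul, map_add, h1, add_zero] at this

theorem Der.memI (h : Der φ D a b) {n : ℕ} {f : R F} (hf : f ∈ I φ n) : D f ∈ I φ n :=
  ⟨h.memH n f hf.1, fun g => h.move (hf.2 g) (hf.2 _)⟩

theorem Der.smul (h : Der φ D a b) (c : F) : ∃ c' : F, ∀ f, D (c • f) = c' • f + c • D f := by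
  obtain ⟨c', e⟩ := h.con c
  exact ⟨c', fun f => by rw [smul_eq_C_mul, h.mul, e, smul_eq_C_mul, smul_eq_C_mul]⟩

theorem Der.span (h : Der φ D a b) {S : Set (R F)} (hS : ∀ x ∈ S, D x ∈ Submodule.span F S) :
    ∀ x ∈ Submodule.span F S, D x ∈ Submodule.span F S := by
  intro x hx
  induction hx using Submodule.span_induction with
  | mem x hx => exact hS x hx
  | zero => simp
  | add x y _ _ h1 h2 => rw [map_add]; exact add_mem h1 h2
  | smul c x hx h1 =>
    obtain ⟨c', e⟩ := h.smul c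
    rw [e]
    exact add_mem (Submodule.smul_mem _ _ hx) (Submodule.smul_mem _ _ h1)

section dim

variable {M M' : Type u} [AddCommGroup M] [Module F M] [AddCommGroup M'] [Module F M']

theorem rank_map (W : Submodule F M) [FiniteDimensional F W] (π : M →ₗ[F] M') :
    finrank F W = finrank F (W.map π) + finrank F (W ⊓ LinearMap.ker π : Submodule F M) := by
  have h1 := (π.domRestrict W).finrank_range_add_finrank_ker
  rw [LinearMap.range_domRestrict, LinearMap.ker_domRestrict] at h1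
  rw [← h1, ← Submodule.map_comap_subtype, Submodule.finrank_map_subtype_eq]

theorem rank_inj (W : Submodule F M) {π : M →ₗ[F] M'} (h : Function.Injective π) :
    finrank F (W.map π) = finrank F W := (Submodule.equivMapOfInjective π h W).finrank_eq.symm

theorem rank_cut (A J N : Submodule F M) [FiniteDimensional F N] (h : J ≤ N) :
    finrank F (A ⊓ N : Submodule F M) + finrank F J ≤
      finrank F (A ⊓ J : Submodule F M) + finrank F N := by
  have : FiniteDimensional F J := Submodule.finiteDimensional_of_le h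
  have : FiniteDimensional F (A ⊓ N : Submodule F M) :=
    Submodule.finiteDimensional_of_le inf_le_right
  have h1 := Submodule.finrank_sup_add_finrank_inf_eq (A ⊓ N) J
  have h2 : finrank F (A ⊓ N ⊔ J : Submodule F M) ≤ finrank F N :=
    Submodule.finrank_mono (sup_le inf_le_right h)
  rw [inf_assoc, inf_eq_right.2 h] at h1
  omega

/-- the elements orthogonal to `W` -/
def perp (B : M →ₗ[F] M →ₗ[F] F) (W : Submodule F M) : Submodule F M where
  carrier := {g | ∀ f ∈ W, B f g = 0}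
  add_mem' ha hb f hf := by rw [map_add, ha f hf, hb f hf, add_zero]
  zero_mem' f _ := map_zero _
  smul_mem' c g hg f hf := by rw [map_smul, hg f hf, smul_zero]

theorem rank_perp (B : M →ₗ[F] M →ₗ[F] F) (hB : ∀ f g, B f g = B g f) (W W' : Submodule F M)
    [FiniteDimensional F W] [FiniteDimensional F W'] :
    finrank F W + finrank F (W' ⊓ perp B W : Submodule F M) =
      finrank F W' + finrank F (W ⊓ perp B W' : Submodule F M) := by
  have key : ∀ (U U' : Submodule F M) [FiniteDimensional F U],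
      finrank F U = finrank F (LinearMap.range (B.domRestrict₁₂ U U')) +
        finrank F (U ⊓ perp B U' : Submodule F M) := by
    intro U U' _
    rw [← (B.domRestrict₁₂ U U').finrank_range_add_finrank_ker,
      ← Submodule.finrank_map_subtype_eq U (LinearMap.ker _)]
    congr 3
    all_goals
      ext x
      simp only [Submodule.mem_map, LinearMap.mem_ker, Submodule.mem_inf]
      constructor
      · rintro ⟨y, hy, rfl⟩
        exact ⟨y.2, fun f hf => (hB _ _).trans (LinearMap.congr_fun hy ⟨f, hf⟩)⟩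
      · rintro ⟨h1, h2⟩
        exact ⟨⟨x, h1⟩, LinearMap.ext fun f => (hB _ _).trans (h2 f.1 f.2), rfl⟩
  have e : B.domRestrict₁₂ W' W =
      (B.domRestrict₁₂ W W').dualMap ∘ₗ (Module.evalEquiv F W').toLinearMap := by
    ext x y
    exact hB _ _
  have r : finrank F (LinearMap.range (B.domRestrict₁₂ W' W)) =
      finrank F (LinearMap.range (B.domRestrict₁₂ W W')) := by
    rw [e, LinearMap.range_comp, LinearEquiv.range, Submodule.map_top]
    exact LinearMap.finrank_range_dualMap_eq_finrank_range _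
  have k1 := key W W'
  have k2 := key W' W
  omega

end dim

/-- the pairing `φ (x f g)` -/
noncomputable def bil (φ : R F →ₗ[F] F) (x : R F) : R F →ₗ[F] R F →ₗ[F] F :=
  (LinearMap.mul F (R F)).compr₂ (φ ∘ₗ LinearMap.mulLeft F x)

theorem bil_apply (x f g : R F) : bil φ x f g = φ (x * (f * g)) := rfl

theorem bil_symm (x f g : R F) : bil φ x f g = bil φ x g f := by
  rw [bil_apply, bil_apply, mul_comm f]

theorem Conc.perp_H (h : Conc φ d) {i j : ℕ} (e : i + j = d) {W : Submodule F (R F)}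
    (hW : W ≤ H F i) : W ⊓ perp (bil φ 1) (H F j) = W ⊓ Ann φ := by
  ext x
  refine and_congr_right fun hx => ⟨fun c => h.ann' e (hW hx) fun g hg => ?_, fun c g _ => ?_⟩
  · have := c g hg
    rwa [bil_apply, one_mul, mul_comm] at this
  · rw [bil_apply, one_mul, mul_comm]
    exact c g

theorem Conc.symm (h : Conc φ d) {i j : ℕ} (e : i + j = d) :
    (i + 3).choose 3 + di φ j = (j + 3).choose 3 + di φ i := by
  have := finH F i
  have := finH F j
  have := rank_perp (bil φ 1) (bil_symm 1) (H F i) (H F j)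
  rwa [h.perp_H e le_rfl, h.perp_H (add_comm i j ▸ e) le_rfl, finrank_H, finrank_H] at this

end Pool.Agent.MP_708e57_al.c4

end MrgPart0

-- ======== part 1: formerly Pool.Agent.MP_708e57_al.c4.CurveA
section MrgPart1

/-! Codimension four: total degree, levels and the shape of a plateau. -/

set_option autoImplicit false

namespace Pool.Agent.MP_708e57_al.c4

open Module Polynomial

universe u

namespace Cv

variable {F : Type u} [Field F]

theorem rho_w : rho F (C X) = 0 := by simp [rho]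

theorem rho_z : rho F X = X := by simp [rho]

theorem rho_coeff (f : O F) (n : ℕ) : (rho F f).coeff n = (f.coeff n).coeff 0 := by
  rw [rho, coeff_mapAlgHom_apply, coeff_zero_eq_aeval_zero]

theorem w_dvd {f : O F} (h : rho F f = 0) : (C X : O F) ∣ f := by
  rw [C_dvd_iff_dvd_coeff]
  intro n
  rw [X_dvd_iff, ← rho_coeff, h, coeff_zero]

theorem w_ne : (C X : O F) ≠ 0 := C_ne_zero.2 X_ne_zero

theorem tau_mono (j e : ℕ) (c : F) :
    tau F (monomial j (monomial e c)) = monomial (j + e) (monomial e c) := by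
  rw [← C_mul_X_pow_eq_monomial (n := j), map_mul, map_pow, tau, aevalAeval_C, aevalAeval_Y,
    aeval_monomial, ← C_mul_X_pow_eq_monomial (n := j + e), ← C_mul_X_pow_eq_monomial (n := e),
    map_mul, map_pow, mul_pow, pow_add]
  rw [show algebraMap F (O F) c = C (C c) from rfl]
  ring

theorem tau_coeff (f : O F) (j e : ℕ) : ((tau F f).coeff (j + e)).coeff e = (f.coeff j).coeff e := by
  induction f using Polynomial.induction_on' with
  | add p q hp hq => simp only [map_add, coeff_add, hp, hq]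
  | monomial j' a =>
    induction a using Polynomial.induction_on' with
    | add p q hp hq => simp only [map_add, coeff_add, hp, hq]
    | monomial e' c =>
      rw [tau_mono]
      simp only [coeff_monomial]
      by_cases h : e' = e
      · subst h
        by_cases h' : j' = j
        · simp [h']
        · rw [if_neg (by omega), if_neg h']
      · split_ifs <;> simp [coeff_monomial, h]

theorem tau_ne {f : O F} (hf : f ≠ 0) : tau F f ≠ 0 := fun h => hf <| by
  ext j e
  rw [← tau_coeff, h]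
  simp

/-- total degree -/
noncomputable def td (f : O F) : ℕ := (tau F f).natDegree

theorem mem_L {f : O F} {n : ℕ} : f ∈ L F n ↔ td f ≤ n := Iff.rfl

theorem td_mul {f g : O F} (hf : f ≠ 0) (hg : g ≠ 0) : td (f * g) = td f + td g := by
  rw [td, map_mul, natDegree_mul (tau_ne hf) (tau_ne hg)]
  rfl

theorem td_zero : td (0 : O F) = 0 := by simp [td]

theorem td_wp (k : ℕ) : td (C X ^ k : O F) = k := by
  have := tau_mono (F := F) 0 k 1
  rw [monomial_zero_left, ← X_pow_eq_monomial, map_pow] at this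
  rw [td, this, natDegree_monomial_eq _ (by simp), zero_add]

theorem coeff_L {f : O F} {n j e : ℕ} (hf : f ∈ L F n) (h : n < j + e) :
    (f.coeff j).coeff e = 0 := by
  rw [← tau_coeff, coeff_eq_zero_of_natDegree_lt (lt_of_le_of_lt hf h), coeff_zero]

theorem rho_deg (f : O F) : (rho F f).natDegree ≤ td f := by
  rw [natDegree_le_iff_coeff_eq_zero]
  intro n hn
  rw [rho_coeff]
  exact coeff_L (mem_L.2 le_rfl) (by omega)

theorem monic_of_L {f : O F} {n : ℕ} (hf : f ∈ L F n) (h : (rho F f).coeff n = 1) : f.Monic := by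
  refine monic_of_natDegree_le_of_coeff_eq_one n ?_ ?_
  · rw [natDegree_le_iff_coeff_eq_zero]
    intro j hj
    ext e
    rw [coeff_L hf (by omega), coeff_zero]
  · ext e
    cases e with
    | zero => rw [← rho_coeff, h, coeff_one_zero]
    | succ e => rw [coeff_L hf (by omega), coeff_one, if_neg (by omega)]

theorem rho_monic {f : O F} (hf : f.Monic) :
    (rho F f).Monic ∧ (rho F f).natDegree = f.natDegree := by
  rw [rho, coe_mapAlgHom]
  exact ⟨hf.map _, hf.natDegree_map _⟩

theorem L_cancel {f g : O F} {a n : ℕ} (hf : f ≠ 0) (ha : a ≤ td f) (h : f * g ∈ L F n) :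
    g ∈ L F (n - a) := by
  by_cases hg : g = 0
  · rw [hg]; exact zero_mem _
  · rw [mem_L, td_mul hf hg] at h
    rw [mem_L]; omega

theorem L_mul {f g : O F} {a n : ℕ} (hf : f ∈ L F a) (hg : g ∈ L F n) : f * g ∈ L F (a + n) := by
  rw [mem_L, td, map_mul]
  exact natDegree_mul_le.trans (add_le_add hf hg)

theorem mem_Wk {b : Submodule F (O F)} {k : ℕ} {f : O F} : f ∈ Wk b k ↔ C X ^ k * f ∈ b := by
  rw [Wk, Submodule.mem_comap, LinearMap.mulLeft_apply]

theorem mem_Vk {b : Submodule F (O F)} {k : ℕ} {p : F[X]} :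
    p ∈ Vk b k ↔ ∃ f ∈ Wk b k, rho F f = p := by
  rw [Vk, Submodule.mem_map]
  rfl

theorem Wk_L {b : Submodule F (O F)} {n k : ℕ} (hb : b ≤ L F n) {f : O F} (hf : f ∈ Wk b k) :
    f ∈ L F (n - k) := L_cancel (pow_ne_zero _ w_ne) (td_wp k).ge (hb (mem_Wk.1 hf))

theorem Wk_le {b : Submodule F (O F)} {n k : ℕ} (hb : b ≤ L F n) {f : O F} (hf : f ∈ Wk b k)
    (h0 : f ≠ 0) : k + td f ≤ n := by
  have := hb (mem_Wk.1 hf)
  rwa [mem_L, td_mul (pow_ne_zero _ w_ne) h0, td_wp] at this

theorem fin_Wk (b : Submodule F (O F)) [FiniteDimensional F b] (k : ℕ) :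
    FiniteDimensional F (Wk b k) := by
  have h1 : (Wk b k).map (LinearMap.mulLeft F (C X ^ k : O F)) ≤ b := Submodule.map_comap_le _ _
  have h2 := Submodule.finiteDimensional_of_le h1
  exact Module.Finite.equiv (Submodule.equivMapOfInjective (LinearMap.mulLeft F (C X ^ k : O F))
    (fun _ _ h => mul_left_cancel₀ (pow_ne_zero k w_ne) h) (Wk b k)).symm

theorem fin_Vk (b : Submodule F (O F)) [FiniteDimensional F b] (k : ℕ) :
    FiniteDimensional F (Vk b k) :=
  haveI := fin_Wk b k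
  Module.Finite.map _ _

theorem Wk_zero (b : Submodule F (O F)) : Wk b 0 = b := by
  ext f
  rw [mem_Wk, pow_zero, one_mul]

theorem Wk_succ {b : Submodule F (O F)} {k : ℕ} {f : O F} (hf : f ∈ Wk b k) (h : rho F f = 0) :
    ∃ g ∈ Wk b (k + 1), f = C X * g := by
  obtain ⟨g, rfl⟩ := w_dvd h
  refine ⟨g, ?_, rfl⟩
  rw [mem_Wk, pow_succ, mul_assoc]
  exact mem_Wk.1 hf

theorem rank_Wk (b : Submodule F (O F)) [FiniteDimensional F b] (k : ℕ) :
    finrank F (Wk b k) = finrank F (Vk b k) + finrank F (Wk b (k + 1)) := by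
  have := fin_Wk b k
  rw [rank_map (Wk b k) (rho F).toLinearMap,
    ← rank_inj (Wk b (k + 1)) (π := LinearMap.mulLeft F (C X : O F))
      fun _ _ h => mul_left_cancel₀ w_ne h]
  congr 3
  all_goals
    ext f
    constructor
    · rintro ⟨h1, h2⟩
      obtain ⟨g, hg, rfl⟩ := Wk_succ h1 h2
      exact ⟨g, hg, rfl⟩
    · rintro ⟨g, hg, rfl⟩
      refine ⟨?_, ?_⟩
      · rw [SetLike.mem_coe, mem_Wk, pow_succ, mul_assoc] at hg
        exact mem_Wk.2 hg
      · rw [SetLike.mem_coe, LinearMap.mem_ker, LinearMap.mulLeft_apply, AlgHom.toLinearMap_apply,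
          map_mul, rho_w, zero_mul]

/-! ### Subspaces of polynomials in one variable -/

/-- `z W` -/
noncomputable def zW (W : Submodule F F[X]) : Submodule F F[X] := W.map (LinearMap.mulLeft F X)

theorem rank_zW {W U : Submodule F F[X]} [FiniteDimensional F U] (h0 : W ≠ ⊥) (h1 : W ≤ U)
    (h2 : ∀ p ∈ W, X * p ∈ U) : finrank F W + 1 ≤ finrank F U := by
  refine Submodule.finrank_lt_finrank_of_lt (lt_of_le_of_ne h1 ?_)
  rintro rfl
  obtain ⟨p, hp, hp0⟩ := (Submodule.ne_bot_iff _).1 h0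
  obtain ⟨n, hn⟩ := span_of_finite_le_degreeLT
    (Set.finite_range fun i => ((finBasis F W i : W) : F[X]))
  have hW : W ≤ degreeLT F n := by
    refine le_trans ?_ hn
    intro x hx
    rw [show x = ((⟨x, hx⟩ : W) : F[X]) from rfl, ← (finBasis F W).sum_repr ⟨x, hx⟩,
      Submodule.coe_sum]
    exact Submodule.sum_mem _ fun i _ =>
      Submodule.smul_mem _ _ (Submodule.subset_span ⟨i, rfl⟩)
  have h3 : ∀ j, X ^ j * p ∈ W := by
    intro j
    induction j with
    | zero => simpa using hp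
    | succ j ih => rw [pow_succ', mul_assoc]; exact h2 _ ih
  have h4 := mem_degreeLT.1 (hW (h3 n))
  rw [← natDegree_lt_iff_degree_lt (mul_ne_zero (pow_ne_zero _ X_ne_zero) hp0),
    natDegree_X_pow_mul n hp0] at h4
  omega

theorem le_of_pow {M : Submodule F F[X]} {n : ℕ} (h : ∀ j ≤ n, X ^ j ∈ M) {q : F[X]}
    (hq : q.natDegree ≤ n) : q ∈ M := by
  rw [q.as_sum_range' (n + 1) (by omega)]
  refine Submodule.sum_mem _ fun j hj => ?_
  rw [← smul_X_eq_monomial]
  exact Submodule.smul_mem _ _ (h j (by simpa [Nat.lt_succ_iff] using hj))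

/-- multiples of `γ` by polynomials of degree less than `n` -/
noncomputable def mult (γ : F[X]) (n : ℕ) : Submodule F F[X] :=
  (degreeLT F n).map (LinearMap.mulLeft F γ)

theorem fin_mult (γ : F[X]) (n : ℕ) : FiniteDimensional F (mult γ n) :=
  haveI : FiniteDimensional F (degreeLT F n) := Module.Finite.of_basis (degreeLT.basis F n)
  Module.Finite.map _ _

theorem rank_mult {γ : F[X]} (h : γ ≠ 0) (n : ℕ) : finrank F (mult γ n) = n := by
  rw [mult, rank_inj _ fun _ _ e => mul_left_cancel₀ h e, finrank_eq_card_basis (degreeLT.basis F n),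
    Fintype.card_fin]

theorem mem_mult {γ q : F[X]} {n : ℕ} (h : q.natDegree ≤ n) : γ * q ∈ mult γ (n + 1) :=
  ⟨q, mem_degreeLT.2 (lt_of_le_of_lt degree_le_natDegree (by exact_mod_cast Nat.lt_succ_of_le h)),
    rfl⟩

/-- a space whose multiples by linear forms gain one dimension only -/
theorem shape {W U : Submodule F F[X]} [FiniteDimensional F U] {t : ℕ} (h1 : W ≤ U)
    (h2 : ∀ p ∈ W, X * p ∈ U) (h3 : finrank F U ≤ finrank F W + 1)
    (hd : ∀ p ∈ W, p.natDegree ≤ t) (hp : ∃ p ∈ W, p.coeff t ≠ 0) :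
    ∃ (γ : F[X]) (s m : ℕ), γ.Monic ∧ γ.natDegree = s ∧ s + m = t ∧ (∀ j ≤ m, γ * X ^ j ∈ W) ∧
      ∀ f ∈ U, ∃ q : F[X], q.natDegree ≤ m + 1 ∧ f = γ * q := by
  classical
  obtain ⟨p, hp, hp0⟩ := hp
  have hW : FiniteDimensional F W := Submodule.finiteDimensional_of_le h1
  have hU : ∀ f ∈ U, ∃ g ∈ W, ∃ c : F, f = g + c • (X * p) := by
    have hlt : W < W ⊔ Submodule.span F {X * p} := by
      refine lt_of_le_of_ne le_sup_left fun e => hp0 ?_
      have h4 : X * p ∈ W := e ▸ Submodule.mem_sup_right (Submodule.mem_span_singleton_self _)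
      rw [← coeff_X_mul]
      exact coeff_eq_zero_of_natDegree_lt (Nat.lt_succ_of_le (hd _ h4))
    have hle : W ⊔ Submodule.span F {X * p} ≤ U :=
      sup_le h1 ((Submodule.span_singleton_le_iff_mem _ _).2 (h2 p hp))
    have : FiniteDimensional F (W ⊔ Submodule.span F {X * p} : Submodule F F[X]) :=
      Submodule.finiteDimensional_of_le hle
    have h5 := Submodule.finrank_lt_finrank_of_lt hlt
    rw [← Submodule.eq_of_le_of_finrank_le hle (by omega)]
    intro f hf
    obtain ⟨g, hg, y, hy, rfl⟩ := Submodule.mem_sup.1 hf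
    obtain ⟨c, rfl⟩ := Submodule.mem_span_singleton.1 hy
    exact ⟨g, hg, c, rfl⟩
  have hz : ∀ f ∈ W, f.natDegree < t → X * f ∈ W := by
    intro f hf hft
    obtain ⟨g, hg, c, e⟩ := hU _ (h2 f hf)
    have h4 := congrArg (fun x => coeff x (t + 1)) e
    simp only [coeff_add, coeff_smul, coeff_X_mul, coeff_eq_zero_of_natDegree_lt hft,
      coeff_eq_zero_of_natDegree_lt (Nat.lt_succ_of_le (hd g hg)), zero_add, smul_eq_mul] at h4
    rw [e, (mul_eq_zero.1 h4.symm).resolve_right hp0, zero_smul, add_zero]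
    exact hg
  have hex : ∃ n, ∃ g ∈ W, g ≠ 0 ∧ g.natDegree = n :=
    ⟨_, p, hp, fun e => hp0 (by rw [e, coeff_zero]), rfl⟩
  obtain ⟨g, hg, hg0, hgs⟩ := Nat.find_spec hex
  have hmin : ∀ f ∈ W, f ≠ 0 → Nat.find hex ≤ f.natDegree :=
    fun f hf h0 => Nat.find_min' hex ⟨f, hf, h0, rfl⟩
  generalize Nat.find hex = s at hgs hmin
  have hst : s ≤ t := hgs ▸ hd g hg
  obtain ⟨m, rfl⟩ := Nat.exists_eq_add_of_le hst
  have hγ : (g * C g.leadingCoeff⁻¹).Monic := monic_mul_leadingCoeff_inv hg0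
  have hγs : (g * C g.leadingCoeff⁻¹).natDegree = s := by
    rw [natDegree_mul_leadingCoeff_self_inv g, hgs]
  have hγW : g * C g.leadingCoeff⁻¹ ∈ W := by
    rw [mul_comm, ← smul_eq_C_mul]
    exact W.smul_mem _ hg
  generalize g * C g.leadingCoeff⁻¹ = γ at hγ hγs hγW
  have hj : ∀ j ≤ m, γ * X ^ j ∈ W := by
    intro j
    induction j with
    | zero => intro _; simpa using hγW
    | succ j ih =>
      intro h
      rw [pow_succ', mul_left_comm]
      refine hz _ (ih (by omega)) ?_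
      rw [natDegree_mul_X_pow j hγ.ne_zero]
      omega
  have hdiv : ∀ f ∈ W, ∃ q : F[X], q.natDegree ≤ m ∧ f = γ * q := by
    intro f hf
    have hq : (f /ₘ γ).natDegree ≤ m := by
      rw [natDegree_divByMonic f hγ]
      have := hd f hf
      omega
    refine ⟨f /ₘ γ, hq, ?_⟩
    have h4 : γ * (f /ₘ γ) ∈ W :=
      le_of_pow (M := W.comap (LinearMap.mulLeft F γ)) hj hq
    have h5 := modByMonic_add_div f γ
    have h6 : f %ₘ γ ∈ W := by
      rw [eq_sub_of_add_eq h5]
      exact W.sub_mem hf h4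
    by_cases h7 : f %ₘ γ = 0
    · rw [h7, zero_add] at h5
      exact h5.symm
    · have h8 := hmin _ h6 h7
      have h9 := natDegree_lt_natDegree h7 (degree_modByMonic_lt f hγ)
      omega
  refine ⟨γ, s, m, hγ, hγs, rfl, hj, fun f hf => ?_⟩
  obtain ⟨g', hg', c, rfl⟩ := hU f hf
  obtain ⟨q, hq, rfl⟩ := hdiv g' hg'
  obtain ⟨q', hq', rfl⟩ := hdiv p hp
  refine ⟨q + c • (X * q'), natDegree_add_le_of_degree_le (by omega) ?_, ?_⟩
  · refine (natDegree_smul_le _ _).trans (natDegree_mul_le.trans ?_)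
    have := natDegree_X_le (R := F)
    omega
  · rw [mul_add, mul_smul_comm, mul_left_comm]

end Cv

end Pool.Agent.MP_708e57_al.c4

end MrgPart1

-- ======== part 2: formerly Pool.Agent.MP_708e57_al.c4.Curve
section MrgPart2

/-! Codimension four: the plane curve attached to a plateau. -/

set_option autoImplicit false

namespace Pool.Agent.MP_708e57_al.c4

open Module Polynomial

universe u

namespace Cv

variable {F : Type u} [Field F]

theorem lei_w {d : O F →+ O F} (h : Lei d) (n : ℕ) :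
    C X * d (C X ^ n) = (n : O F) * (C X ^ n * d (C X)) := by
  cases n with
  | zero => rw [pow_zero, h.one, mul_zero, Nat.cast_zero, zero_mul]
  | succ n => rw [h.pow]; push_cast; ring

theorem nat_smul (n : ℕ) (f : O F) : (n : O F) * f = (n : F) • f := by
  rw [Nat.cast_smul_eq_nsmul, nsmul_eq_mul]

/-- one step down in the order -/
theorem down {b : Submodule F (O F)} {d : O F →+ O F} (h : Lei d) (hb : ∀ f ∈ b, d f ∈ b) {k : ℕ}
    {f : O F} (hf : f ∈ Wk b (k + 1)) :
    ((k + 1 : ℕ) : O F) * (d (C X) * f) + C X * d f ∈ Wk b k := by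
  have := hb _ (mem_Wk.1 hf)
  rw [h, h.pow] at this
  rw [mem_Wk]
  convert this using 1
  push_cast
  ring

theorem down_V [CharZero F] {b : Submodule F (O F)} {d : O F →+ O F} (h : Lei d)
    (hb : ∀ f ∈ b, d f ∈ b) {k : ℕ} {P0 f : O F} (hP : P0 ∣ d P0) (hf : f ∈ Wk b (k + 1))
    (hd : P0 ∣ f) : ∃ g ∈ Wk b k, P0 ∣ g ∧ rho F g = rho F (d (C X)) * rho F f := by
  have hk : ((k + 1 : ℕ) : F) ≠ 0 := Nat.cast_ne_zero.2 (Nat.succ_ne_zero k)
  refine ⟨((k + 1 : ℕ) : F)⁻¹ • (((k + 1 : ℕ) : O F) * (d (C X) * f) + C X * d f),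
    Submodule.smul_mem _ _ (down h hb hf), ?_, ?_⟩
  · rw [Algebra.smul_def]
    refine Dvd.dvd.mul_left (dvd_add ((hd.mul_left _).mul_left _) (Dvd.dvd.mul_left ?_ _)) _
    obtain ⟨g, rfl⟩ := hd
    rw [h]
    exact dvd_add (hP.mul_right _) (dvd_mul_right _ _)
  · rw [map_smul, map_add, nat_smul, map_smul, map_mul, map_mul, rho_w, zero_mul, add_zero,
      smul_smul, inv_mul_cancel₀ hk, one_smul]

/-- the derivative of an element of order `k` one degree lower -/
theorem side {b b' : Submodule F (O F)} {d : O F →+ O F} (h : Lei d) (hb : ∀ f ∈ b', d f ∈ b')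
    (hw : ∀ f ∈ b', C X * f ∈ b) (hz : ∀ f ∈ b', d (C X) * f ∈ b) {k : ℕ} {p : O F}
    (hp : p ∈ Wk b' k) : d p ∈ Wk b (k + 1) := by
  have h1 := hw _ (hb _ (mem_Wk.1 hp))
  have h2 := b.smul_mem (k : F) (hz _ (mem_Wk.1 hp))
  rw [h, mul_add, ← mul_assoc, lei_w h] at h1
  rw [← nat_smul] at h2
  rw [mem_Wk]
  convert b.sub_mem h1 h2 using 1
  ring

/-- the ideal `(p, w ^ n)` -/
noncomputable def N (p : O F) (n : ℕ) : Ideal (O F) := Ideal.span {p, C X ^ n}

theorem mem_N {p f : O F} {n : ℕ} : f ∈ N p n ↔ ∃ a c, a * p + c * C X ^ n = f :=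
  Ideal.mem_span_pair

theorem N_zero (p f : O F) : f ∈ N p 0 := mem_N.2 ⟨0, f, by ring⟩

theorem N_self (p : O F) (n : ℕ) : p ∈ N p n := mem_N.2 ⟨1, 0, by ring⟩

theorem N_w {p f : O F} {n : ℕ} (h : f ∈ N p n) : C X * f ∈ N p (n + 1) := by
  obtain ⟨a, c, rfl⟩ := mem_N.1 h
  exact mem_N.2 ⟨C X * a, c, by ring⟩

theorem N_cancel {p f : O F} (hp : rho F p ≠ 0) {n : ℕ} (h : C X * f ∈ N p (n + 1)) :
    f ∈ N p n := by
  obtain ⟨a, c, e⟩ := mem_N.1 h
  have h1 := congrArg (rho F) e
  rw [map_add, map_mul, map_mul, map_mul, pow_succ, map_mul, rho_w, mul_zero, mul_zero, zero_mul,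
    add_zero] at h1
  obtain ⟨a', rfl⟩ := w_dvd ((mul_eq_zero.1 h1).resolve_right hp)
  refine mem_N.2 ⟨a', c, mul_left_cancel₀ w_ne ?_⟩
  rw [← e]
  ring

theorem N_unit {p G x : O F} {n : ℕ} (hG : rho F G = 1) (h : G * x ∈ N p n) : x ∈ N p n := by
  obtain ⟨y, hy⟩ := w_dvd (show rho F (1 - G) = 0 by rw [map_sub, map_one, hG, sub_self])
  have h2 := mul_neg_geom_sum (1 - G) n
  have h3 : x = (∑ i ∈ Finset.range n, (1 - G) ^ i) * (G * x) + (y ^ n * x) * C X ^ n := by
    have : (1 - G) ^ n = C X ^ n * y ^ n := by rw [hy, mul_pow]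
    linear_combination (-x) * h2 + x * this
  rw [h3]
  exact Ideal.add_mem _ (Ideal.mul_mem_left _ _ h) (mem_N.2 ⟨0, y ^ n * x, by ring⟩)

theorem N_smul {p x : O F} {n : ℕ} {c : F} (hc : c ≠ 0) (h : c • x ∈ N p n) : x ∈ N p n := by
  have := Ideal.mul_mem_left _ (algebraMap F (O F) c⁻¹) h
  rwa [← Algebra.smul_def, smul_smul, inv_mul_cancel₀ hc, one_smul] at this

theorem N_wp {p f : O F} (hp : rho F p ≠ 0) (e : ℕ) (h : ∀ n, C X ^ e * f ∈ N p n) (n : ℕ) :
    f ∈ N p n := by
  induction e with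
  | zero => simpa using h n
  | succ e ih =>
    refine ih fun n => N_cancel hp ?_
    rw [← mul_assoc, ← pow_succ']
    exact h _

theorem N_sat {p f : O F} (hp : rho F p ≠ 0) {r : F[X]} (hr : r ≠ 0) (h : ∀ n, C r * f ∈ N p n)
    (n : ℕ) : f ∈ N p n := by
  obtain ⟨q, hq, hn⟩ := exists_eq_pow_rootMultiplicity_mul_and_not_dvd r hr 0
  rw [C_0, sub_zero] at hq hn
  rw [X_dvd_iff] at hn
  rw [hq, map_mul, map_pow] at h
  have h1 := N_wp hp _ (fun n => by have := h n; rwa [mul_assoc] at this) n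
  refine N_unit (G := (q.coeff 0)⁻¹ • C q) ?_ ?_
  · ext j
    rw [map_smul, coeff_smul, rho_coeff, coeff_C, coeff_one]
    split_ifs
    · exact inv_mul_cancel₀ hn
    · simp
  · rw [smul_mul_assoc, Algebra.smul_def]
    exact Ideal.mul_mem_left _ _ h1

/-- the intersection of the ideals `(p, w ^ n)` is principal if it contains a monic polynomial -/
theorem exists_gen {p pm : O F} (hp : rho F p ≠ 0) (hm : pm.Monic) (hpm : ∀ n, pm ∈ N p n) :
    ∃ P0 : O F, P0.Monic ∧ ∀ f, P0 ∣ f ↔ ∀ n, f ∈ N p n := by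
  classical
  have hex : ∃ e, ∃ h : O F, h ≠ 0 ∧ (∀ n, h ∈ N p n) ∧ h.natDegree = e :=
    ⟨_, pm, hm.ne_zero, hpm, rfl⟩
  obtain ⟨h, h0, hN, he⟩ := Nat.find_spec hex
  have hmin : ∀ f : O F, f ≠ 0 → (∀ n, f ∈ N p n) → h.natDegree ≤ f.natDegree :=
    fun f f0 hf => he ▸ Nat.find_min' hex ⟨f, f0, hf, rfl⟩
  have hl : h.leadingCoeff ≠ 0 := leadingCoeff_ne_zero.2 h0
  have hinj := IsFractionRing.injective F[X] (FractionRing F[X])
  have key : ∀ f : O F, (∀ n, f ∈ N p n) → h.map (algebraMap F[X] (FractionRing F[X])) ∣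
      f.map (algebraMap F[X] (FractionRing F[X])) := by
    intro f
    induction f using (degree_lt_wf (R := F[X])).induction with
    | _ f ih =>
    intro hf
    by_cases f0 : f = 0
    · rw [f0, Polynomial.map_zero]; exact dvd_zero _
    have hle := hmin f f0 hf
    have fl : f.leadingCoeff ≠ 0 := leadingCoeff_ne_zero.2 f0
    have hlt : degree (C h.leadingCoeff * f -
        C f.leadingCoeff * (X ^ (f.natDegree - h.natDegree) * h)) < degree f := by
      have e1 : degree (C h.leadingCoeff * f) = degree f := degree_C_mul hl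
      refine lt_of_lt_of_eq (degree_sub_lt_left ?_ (mul_ne_zero (C_ne_zero.2 hl) f0) ?_) e1
      · rw [e1, degree_C_mul fl, degree_mul, degree_X_pow, degree_eq_natDegree h0,
          degree_eq_natDegree f0, ← Nat.cast_add, Nat.sub_add_cancel hle]
      · simp only [leadingCoeff_mul, leadingCoeff_C, leadingCoeff_X_pow]
        ring
    have h1 := ih _ hlt fun n => Ideal.sub_mem _ (Ideal.mul_mem_left _ _ (hf n))
      (Ideal.mul_mem_left _ _ (Ideal.mul_mem_left _ _ (hN n)))
    rw [Polynomial.map_sub, Polynomial.map_mul, Polynomial.map_mul, Polynomial.map_mul, map_C]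
      at h1
    have h2 := dvd_add h1 (((dvd_refl (h.map (algebraMap F[X] (FractionRing F[X])))).mul_left
      ((X ^ (f.natDegree - h.natDegree) : O F).map (algebraMap F[X] (FractionRing F[X])))).mul_left
      ((C f.leadingCoeff : O F).map (algebraMap F[X] (FractionRing F[X]))))
    rw [sub_add_cancel] at h2
    exact (IsUnit.dvd_mul_left (isUnit_C.2 (isUnit_iff_ne_zero.2
      ((map_ne_zero_iff _ hinj).2 hl)))).1 h2
  obtain ⟨g, hg⟩ := IsIntegrallyClosed.eq_map_mul_C_of_dvd (FractionRing F[X]) hm (key pm hpm)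
  rw [leadingCoeff_map_of_injective hinj, ← map_C, ← Polynomial.map_mul] at hg
  have hg' : g * C h.leadingCoeff = h := Polynomial.map_injective _ hinj hg
  have hmon : g.Monic := by
    have := congrArg leadingCoeff hg'
    rw [leadingCoeff_mul, leadingCoeff_C] at this
    exact mul_right_cancel₀ hl (this.trans (one_mul _).symm)
  have hgN : ∀ n, g ∈ N p n := N_sat hp hl fun n => by rw [mul_comm, hg']; exact hN n
  have hdeg : g.natDegree = h.natDegree := by rw [← hg', natDegree_mul_C hl]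
  refine ⟨g, hmon, fun f => ⟨?_, fun hf => ?_⟩⟩
  · rintro ⟨q, rfl⟩ n
    exact Ideal.mul_mem_right _ _ (hgN n)
  · rw [← modByMonic_eq_zero_iff_dvd hmon]
    by_contra h7
    have h5 := modByMonic_add_div f g
    have h8 := hmin _ h7 fun n => by
      rw [eq_sub_of_add_eq h5]
      exact Ideal.sub_mem _ (hf n) (Ideal.mul_mem_right _ _ (hgN n))
    have h9 := natDegree_lt_natDegree h7 (degree_modByMonic_lt f hmon)
    omega

/-- all elements of order `k` and `k + 1` lie in every `(p, w ^ n)` -/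
theorem all_N [CharZero F] {b b' : Submodule F (O F)} {d : O F →+ O F} (h : Lei d)
    (hw : d (C X) = 1) (hb : ∀ f ∈ b, d f ∈ b) (hle : b' ≤ b) (hz : ∀ f ∈ b', X * f ∈ b)
    {k m : ℕ} {γ : F[X]} {p : O F} (hp : rho F p = γ) (hpW : p ∈ Wk b' k)
    (hdp : d p ∈ Wk b (k + 1)) (hj : ∀ j ≤ m, γ * X ^ j ∈ Vk b' k)
    (hV : ∀ f ∈ Vk b k, ∃ q : F[X], q.natDegree ≤ m + 1 ∧ f = γ * q) (n : ℕ) :
    (∀ f ∈ Wk b k, f ∈ N p n) ∧ ∀ f ∈ Wk b (k + 1), f ∈ N p n := by
  induction n with
  | zero => exact ⟨fun f _ => N_zero p f, fun f _ => N_zero p f⟩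
  | succ n ih =>
    have hker : ∀ f ∈ Wk b k, rho F f = 0 → f ∈ N p (n + 1) := by
      intro f hf h0
      obtain ⟨g, hg, rfl⟩ := Wk_succ hf h0
      exact N_w (ih.2 g hg)
    have hle' : ∀ f ∈ Wk b' k, f ∈ Wk b k := fun f hf => mem_Wk.2 (hle (mem_Wk.1 hf))
    have hz' : ∀ f ∈ Wk b' k, X * f ∈ Wk b k := fun f hf => by
      rw [mem_Wk, mul_left_comm]
      exact hz _ (mem_Wk.1 hf)
    have hdiff : ∀ f ∈ Wk b k, ∀ g ∈ Wk b k, g ∈ N p (n + 1) → rho F f = rho F g →
        f ∈ N p (n + 1) := by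
      intro f hf g hg hN e
      have := Ideal.add_mem _ (hker _ (Submodule.sub_mem _ hf hg)
        (by rw [map_sub, e, sub_self])) hN
      rwa [sub_add_cancel] at this
    have hpow : ∀ j ≤ m + 1, ∃ g ∈ Wk b k, g ∈ N p (n + 1) ∧ rho F g = γ * X ^ j := by
      intro j
      induction j with
      | zero => exact fun _ => ⟨p, hle' p hpW, N_self _ _, by rw [hp, pow_zero, mul_one]⟩
      | succ j ihj =>
        intro hjm
        obtain ⟨g, hg, hN, e⟩ := ihj (by omega)
        obtain ⟨g', hg', e'⟩ := mem_Vk.1 (hj j (by omega))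
        refine ⟨X * g', hz' g' hg', Ideal.mul_mem_left _ _
          (hdiff g' (hle' g' hg') g hg hN (e'.trans e.symm)), ?_⟩
        rw [map_mul, rho_z, e']
        ring
    have h1 : ∀ f ∈ Wk b k, f ∈ N p (n + 1) := by
      intro f hf
      obtain ⟨q, hq, e⟩ := hV _ (mem_Vk.2 ⟨f, hf, rfl⟩)
      have h2 := le_of_pow (M := ((Wk b k ⊓ (N p (n + 1)).restrictScalars F).map
        (rho F).toLinearMap).comap (LinearMap.mulLeft F γ)) (fun j hj => by
          obtain ⟨g, hg, hN, e⟩ := hpow j hj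
          rw [Submodule.mem_comap, LinearMap.mulLeft_apply, ← e]
          exact Submodule.mem_map_of_mem (Submodule.mem_inf.2 ⟨hg, hN⟩)) hq
      rw [Submodule.mem_comap, LinearMap.mulLeft_apply, Submodule.mem_map] at h2
      obtain ⟨g, hg, e'⟩ := h2
      rw [Submodule.mem_inf, Submodule.restrictScalars_mem] at hg
      rw [AlgHom.toLinearMap_apply] at e'
      exact hdiff f hf g hg.1 hg.2 (e.trans e'.symm)
    refine ⟨h1, fun f hf => ?_⟩
    have h2 := h1 _ (down h hb hf)
    obtain ⟨a, c, rfl⟩ := mem_N.1 (ih.2 f hf)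
    have h3 := N_w (ih.2 _ hdp)
    have h4 := lei_w h n
    rw [hw] at h2 h4
    have h5 : ((k + 1 + n : ℕ) : O F) * (c * C X ^ n) =
        (((k + 1 : ℕ) : O F) * (1 * (a * p + c * C X ^ n)) + C X * d (a * p + c * C X ^ n)) -
          a * (C X * d p) -
          ((((k + 1 : ℕ) : O F) * a + C X * d a) * p + d c * C X ^ (n + 1)) := by
      rw [map_add, h, h]
      push_cast
      linear_combination (-c) * h4
    have h6 : ((k + 1 + n : ℕ) : O F) * (c * C X ^ n) ∈ N p (n + 1) := by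
      rw [h5]
      exact Ideal.sub_mem _ (Ideal.sub_mem _ h2 (Ideal.mul_mem_left _ _ h3))
        (mem_N.2 ⟨_, _, rfl⟩)
    rw [nat_smul] at h6
    exact Ideal.add_mem _ (Ideal.mul_mem_left _ _ (N_self _ _))
      (N_smul (Nat.cast_ne_zero.2 (by omega)) h6)

/-- all multiples of `γ` are leading forms of multiples of `P0` -/
theorem full [CharZero F] {b : Submodule F (O F)} {d1 d2 : O F →+ O F} (h1 : Lei d1) (h2 : Lei d2)
    (w1 : d1 (C X) = 1) (w2 : d2 (C X) = X) (hb : ∀ f ∈ b, d1 f ∈ b ∧ d2 f ∈ b) {P0 : O F}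
    (p1 : P0 ∣ d1 P0) (p2 : P0 ∣ d2 P0) {k m : ℕ}
    (h0 : ∀ j ≤ m, ∃ f ∈ Wk b k, P0 ∣ f ∧ rho F f = rho F P0 * X ^ j) :
    ∀ c κ, κ + c = k → ∀ q : F[X], q.natDegree ≤ m + c →
      ∃ f ∈ Wk b κ, P0 ∣ f ∧ rho F f = rho F P0 * q := by
  have hpow : ∀ c κ, κ + c = k → ∀ j ≤ m + c,
      ∃ f ∈ Wk b κ, P0 ∣ f ∧ rho F f = rho F P0 * X ^ j := by
    intro c
    induction c with
    | zero => rintro κ rfl; exact h0
    | succ c ih =>
      intro κ e j hj
      cases j with
      | zero =>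
        obtain ⟨f, hf, hd, ef⟩ := ih (κ + 1) (by omega) 0 (by omega)
        obtain ⟨g, hg, hd', eg⟩ := down_V h1 (fun f hf => (hb f hf).1) p1 hf hd
        exact ⟨g, hg, hd', by rw [eg, w1, map_one, one_mul, ef]⟩
      | succ j =>
        obtain ⟨f, hf, hd, ef⟩ := ih (κ + 1) (by omega) j (by omega)
        obtain ⟨g, hg, hd', eg⟩ := down_V h2 (fun f hf => (hb f hf).2) p2 hf hd
        exact ⟨g, hg, hd', by rw [eg, w2, rho_z, ef]; ring⟩
  intro c κ e q hq
  have h3 := le_of_pow (M := ((Wk b κ ⊓ (Ideal.span {P0}).restrictScalars F).map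
    (rho F).toLinearMap).comap (LinearMap.mulLeft F (rho F P0))) (fun j hj => by
      obtain ⟨g, hg, hN, e⟩ := hpow c κ e j hj
      rw [Submodule.mem_comap, LinearMap.mulLeft_apply, ← e]
      exact Submodule.mem_map_of_mem
        (Submodule.mem_inf.2 ⟨hg, Ideal.mem_span_singleton.2 hN⟩)) hq
  rw [Submodule.mem_comap, LinearMap.mulLeft_apply, Submodule.mem_map] at h3
  obtain ⟨g, hg, e'⟩ := h3
  rw [Submodule.mem_inf, Submodule.restrictScalars_mem, Ideal.mem_span_singleton] at hg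
  exact ⟨g, hg.1, hg.2, e'⟩

/-- raising the order of the cofactor -/
theorem raise {b : Submodule F (O F)} {P0 : O F} {D s k : ℕ} (hb : b ≤ L F D) (hm : P0.Monic)
    (hs : P0.natDegree = s)
    (hf : ∀ κ ≤ k, ∀ q : F[X], q.natDegree ≤ D - s - κ →
      ∃ f ∈ Wk b κ, P0 ∣ f ∧ rho F f = rho F P0 * q) {e : O F} (he : e ∈ plus b P0 (D - s)) :
    ∀ o ≤ k + 1, ∃ β ∈ b, ∃ G ∈ L F (D - s - o), e = β + C X ^ o * (P0 * G) := by
  have hγ := rho_monic hm
  have htd : s ≤ td P0 := by rw [← hs, ← hγ.2]; exact rho_deg P0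
  intro o
  induction o with
  | zero =>
    intro _
    obtain ⟨β, hβ, y, hy, rfl⟩ := Submodule.mem_sup.1 he
    obtain ⟨G, hG, rfl⟩ := Submodule.mem_map.1 hy
    exact ⟨β, hβ, G, hG, by rw [pow_zero, one_mul, LinearMap.mulLeft_apply]⟩
  | succ o ih =>
    intro ho
    obtain ⟨β, hβ, G, hG, rfl⟩ := ih (by omega)
    obtain ⟨f, hfW, ⟨G', rfl⟩, ef⟩ := hf o (by omega) (rho F G) ((rho_deg G).trans hG)
    rw [map_mul] at ef
    have hG' : G' ∈ L F (D - s - o) := by
      have := L_cancel hm.ne_zero htd (Wk_L hb hfW)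
      rwa [Nat.sub_right_comm] at this
    obtain ⟨G'', e''⟩ := w_dvd (show rho F (G - G') = 0 by
      rw [map_sub, mul_left_cancel₀ hγ.1.ne_zero ef, sub_self])
    have hG'' : G'' ∈ L F (D - s - o - 1) :=
      L_cancel w_ne (by rw [← pow_one (C X : O F), td_wp]) (e'' ▸ Submodule.sub_mem _ hG hG')
    refine ⟨β + C X ^ o * (P0 * G'), b.add_mem hβ (mem_Wk.1 hfW), G'', hG'', ?_⟩
    linear_combination (C X ^ o * P0) * e''

end Cv

open Cv

variable {F : Type u} [Field F]

/-- the plane curve of a plateau when the growth is at least `σ` -/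
structure CurveG (b b' : Submodule F (O F)) (D σ k s m : ℕ) (P0 G0 : O F) : Prop where
  num : D = k + s + 1 + m ∧ k + σ ≤ s
  mon : P0.Monic ∧ P0.natDegree = s ∧ P0 ∈ L F s
  g0 : G0 ∈ L F m ∧ C X ^ k * (P0 * G0) ∈ b'
  test : ∀ Q, C X ^ k * (Q * G0) ∈ plus b P0 (D - s) → P0 ∣ Q
  lev : ∀ κ, finrank F (Vk (plus b P0 (D - s)) κ) ≤ (D - κ + 1 - s) + if κ < k then s - σ - κ else 0
  dvd : ∀ f ∈ Wk (plus b P0 (D - s)) k, P0 ∣ f
  full' : ∀ κ ≤ k, ∀ q : F[X], q.natDegree ≤ m + (k - κ) →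
    ∃ f ∈ Wk b' κ, P0 ∣ f ∧ rho F f = rho F P0 * q

theorem curveG [CharZero F] (b b' : Submodule F (O F)) (E σ : ℕ) (d1 d2 : O F →+ O F)
    (hσ : 1 ≤ σ) (hb : b ≤ L F (E + 1)) (hb' : b' ≤ L F E) (hfin : FiniteDimensional F b)
    (hle : b' ≤ b) (hmul : ∀ f ∈ b', X * f ∈ b ∧ C X * f ∈ b) (l1 : Lei d1) (l2 : Lei d2)
    (w1 : d1 (C X) = 1) (w2 : d2 (C X) = X) (sb : ∀ f ∈ b, d1 f ∈ b ∧ d2 f ∈ b)
    (sb' : ∀ f ∈ b', d1 f ∈ b' ∧ d2 f ∈ b')
    (hco : ∀ κ, Vk b' κ ≠ ⊥ → ∃ p ∈ Vk b' κ, p.coeff (E - κ) ≠ 0)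
    (hrk : finrank F b + σ ≤ finrank F b' + (E + 2)) :
    (∀ κ, finrank F (Vk b κ) ≤ E + 2 - σ - 2 * κ) ∨
      ∃ k s m P0 G0, CurveG b b' (E + 1) σ k s m P0 G0 := by
  classical
  have hfin' : FiniteDimensional F b' := Submodule.finiteDimensional_of_le hle
  have fV := fin_Vk b
  have hWW : ∀ k, Wk b' k ≤ Wk b (k + 1) := fun k f hf => by
    rw [mem_Wk, pow_succ', mul_assoc]
    exact (hmul _ (mem_Wk.1 hf)).2
  have hV1 : ∀ k, Vk b' k ≤ Vk b k := fun k => Submodule.map_mono (Submodule.comap_mono hle)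
  have hV2 : ∀ k, ∀ p ∈ Vk b' k, X * p ∈ Vk b k := by
    intro k p hp
    obtain ⟨f, hf, rfl⟩ := mem_Vk.1 hp
    refine mem_Vk.2 ⟨X * f, ?_, by rw [map_mul, rho_z]⟩
    rw [mem_Wk, mul_left_comm]
    exact (hmul _ (mem_Wk.1 hf)).1
  have hV3 : ∀ k, Vk b (k + 1) ≤ Vk b k := by
    intro k p hp
    obtain ⟨f, hf, rfl⟩ := mem_Vk.1 hp
    obtain ⟨g, hg, -, e⟩ := down_V (P0 := 1) l1 (fun f hf => (sb f hf).1) (one_dvd _) hf (one_dvd _)
    exact mem_Vk.2 ⟨g, hg, by rw [e, w1, map_one, one_mul]⟩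
  have hV4 : ∀ k, ∀ p ∈ Vk b (k + 1), X * p ∈ Vk b k := by
    intro k p hp
    obtain ⟨f, hf, rfl⟩ := mem_Vk.1 hp
    obtain ⟨g, hg, -, e⟩ := down_V (P0 := 1) l2 (fun f hf => (sb f hf).2) (one_dvd _) hf (one_dvd _)
    exact mem_Vk.2 ⟨g, hg, by rw [e, w2, rho_z]⟩
  have hnum : ∀ k, (∀ κ < k, ¬ (Vk b' κ ≠ ⊥ ∧ finrank F (Vk b κ) ≤ finrank F (Vk b' κ) + 1)) →
      Vk b k ≠ ⊥ → finrank F (Vk b k) + 2 * k + σ ≤ E + 2 := by
    have key : ∀ k, (∀ κ < k, ¬ (Vk b' κ ≠ ⊥ ∧ finrank F (Vk b κ) ≤ finrank F (Vk b' κ) + 1)) →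
        Vk b k ≠ ⊥ → finrank F (Vk b k) + 2 * k + finrank F (Wk b (k + 1)) + finrank F b' ≤
          finrank F b + finrank F (Wk b' k) := by
      intro k
      induction k with
      | zero =>
        intro _ _
        have := rank_Wk b 0
        rw [Wk_zero] at this
        rw [Wk_zero]
        omega
      | succ k ih =>
        intro hn h0
        have h1 := ih (fun κ h => hn κ (by omega))
          fun e => h0 (eq_bot_iff.2 (e ▸ hV3 k))
        have h2 := rank_Wk b (k + 1)
        have h3 := rank_Wk b' k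
        have h4 : finrank F (Vk b' k) + 2 ≤ finrank F (Vk b k) := by
          by_cases e : Vk b' k = ⊥
          · have := fV k
            have := fV (k + 1)
            have h5 := rank_zW h0 (hV3 k) (hV4 k)
            have h6 : finrank F (Vk b (k + 1)) ≠ 0 := fun e' => h0 (Submodule.finrank_eq_zero.1 e')
            rw [e, finrank_bot]
            omega
          · have := hn k (by omega)
            rw [not_and] at this
            have := this e
            omega
        omega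
    intro k hn h0
    have h1 := key k hn h0
    have := fin_Wk b (k + 1)
    have h2 := Submodule.finrank_mono (hWW k)
    omega
  by_cases hex : ∃ κ, Vk b' κ ≠ ⊥ ∧ finrank F (Vk b κ) ≤ finrank F (Vk b' κ) + 1
  swap
  · left
    intro κ
    by_cases e : Vk b κ = ⊥
    · rw [e, finrank_bot]; omega
    · have := hnum κ (fun κ' _ h => hex ⟨κ', h⟩) e
      omega
  right
  obtain ⟨hk0, hk1⟩ := Nat.find_spec hex
  have hmin : ∀ κ < Nat.find hex, _ := fun κ h => Nat.find_min hex h
  generalize Nat.find hex = k at hk0 hk1 hmin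
  have := fV k
  obtain ⟨γ, s, m, hγ, hγs, hsm, hj, hV⟩ := shape (t := E - k) (hV1 k) (hV2 k) hk1 (fun p hp => by
    obtain ⟨f, hf, rfl⟩ := mem_Vk.1 hp
    exact (rho_deg f).trans (Wk_L hb' hf)) (hco k hk0)
  obtain ⟨p, hpW, hp⟩ := mem_Vk.1 (hj 0 (Nat.zero_le _))
  rw [pow_zero, mul_one] at hp
  have hp0 : rho F p ≠ 0 := hp ▸ hγ.ne_zero
  have hkE : k ≤ E := by
    have := Wk_le hb' hpW fun e => hp0 (by rw [e, map_zero])
    omega
  have hks : k + σ ≤ s := by
    have h1 := hnum k hmin fun e => hk0 (eq_bot_iff.2 (e ▸ hV1 k))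
    have h2 : mult γ (m + 1 + 1) ≤ Vk b k := by
      rintro _ ⟨q, hq, rfl⟩
      refine le_of_pow (M := (Vk b k).comap (LinearMap.mulLeft F γ)) (n := m + 1)
        (fun j hj' => ?_) ?_
      · rw [Submodule.mem_comap, LinearMap.mulLeft_apply]
        cases j with
        | zero => exact hV1 k (hj 0 (Nat.zero_le _))
        | succ j =>
          rw [pow_succ', mul_left_comm]
          exact hV2 k _ (hj j (by omega))
      · rw [SetLike.mem_coe, degreeLT_succ_eq_degreeLE, mem_degreeLE] at hq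
        exact natDegree_le_iff_degree_le.2 hq
    have h3 := Submodule.finrank_mono h2
    rw [rank_mult hγ.ne_zero] at h3
    omega
  have hd1 : d1 p ∈ Wk b (k + 1) := side l1 (fun f hf => (sb' f hf).1) (fun f hf => (hmul f hf).2)
    (fun f hf => by rw [w1, one_mul]; exact hle hf) hpW
  have hd2 : d2 p ∈ Wk b (k + 1) := side l2 (fun f hf => (sb' f hf).2) (fun f hf => (hmul f hf).2)
    (fun f hf => by rw [w2]; exact (hmul f hf).1) hpW
  have hN := all_N l1 w1 (fun f hf => (sb f hf).1) hle (fun f hf => (hmul f hf).1) hp hpW hd1 hj hV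
  have hle' : ∀ f ∈ Wk b' k, f ∈ Wk b k := fun f hf => mem_Wk.2 (hle (mem_Wk.1 hf))
  obtain ⟨pm, hpmW, hpm⟩ := mem_Vk.1 (hj m le_rfl)
  have hpmL : pm ∈ L F (s + m) := hsm ▸ Wk_L hb' hpmW
  have hγm : (γ * X ^ m).Monic := hγ.mul (monic_X_pow m)
  have hγd : (γ * X ^ m).natDegree = s + m := by rw [natDegree_mul_X_pow m hγ.ne_zero, hγs]
  have hpmM : pm.Monic := monic_of_L hpmL (by rw [hpm, ← hγd]; exact hγm)
  obtain ⟨P0, hP, hgen⟩ := exists_gen hp0 hpmM fun n => (hN n).1 _ (hle' _ hpmW)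
  have hWk : ∀ f ∈ Wk b k, P0 ∣ f := fun f hf => (hgen f).2 fun n => (hN n).1 f hf
  have hWk1 : ∀ f ∈ Wk b (k + 1), P0 ∣ f := fun f hf => (hgen f).2 fun n => (hN n).2 f hf
  obtain ⟨G0, hG0⟩ := hWk p (hle' p hpW)
  have hρ : rho F P0 = γ := by
    refine eq_of_monic_of_associated (rho_monic hP).1 hγ (associated_of_dvd_dvd ?_ ?_)
    · rw [← hp, hG0, map_mul]; exact dvd_mul_right _ _
    · obtain ⟨a, c, e⟩ := mem_N.1 ((hgen P0).1 dvd_rfl 1)
      rw [← e, map_add, map_mul, map_mul, pow_one, rho_w, mul_zero, add_zero, hp]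
      exact dvd_mul_left _ _
  have hPs : P0.natDegree = s := by rw [← (rho_monic hP).2, hρ, hγs]
  have htd : s ≤ td P0 := by rw [← hγs, ← hρ]; exact rho_deg P0
  have hρG : rho F G0 = 1 := by
    rw [hG0, map_mul, hρ] at hp
    exact mul_left_cancel₀ hγ.ne_zero (hp.trans (mul_one _).symm)
  have hPL : P0 ∈ L F s := by
    obtain ⟨G, hG⟩ := hWk pm (hle' pm hpmW)
    have h1 : rho F G = X ^ m := by
      rw [hG, map_mul, hρ] at hpm
      exact mul_left_cancel₀ hγ.ne_zero hpm
    have h2 := rho_deg G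
    rw [h1, natDegree_X_pow] at h2
    have h3 : G ≠ 0 := fun e => hpmM.ne_zero (by rw [hG, e, mul_zero])
    rw [hG, mul_comm] at hpmL
    simpa using L_cancel h3 h2 hpmL
  have hN2 : ∀ Q, P0 ∣ Q * G0 → P0 ∣ Q := fun Q h => (hgen Q).2 fun n =>
    N_unit hρG (by rw [mul_comm]; exact (hgen _).1 h n)
  have hN1 : ∀ e Q, P0 ∣ C X ^ e * Q → P0 ∣ Q := fun e Q h => (hgen Q).2
    (N_wp hp0 e ((hgen _).1 h))
  have hdP : ∀ d : O F →+ O F, Lei d → d p ∈ Wk b (k + 1) → P0 ∣ d P0 := fun d l h => by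
    have h1 := hWk1 _ h
    rw [hG0, l] at h1
    exact hN2 _ ((dvd_add_left (dvd_mul_right _ _)).1 h1)
  have hfull := full l1 l2 w1 w2 sb (hdP d1 l1 hd1) (hdP d2 l2 hd2) (k := k) (m := m + 1)
    fun j hj' => by
      have : γ * X ^ j ∈ Vk b k := by
        cases j with
        | zero => exact hV1 k (hj 0 (Nat.zero_le _))
        | succ j =>
          rw [pow_succ', mul_left_comm]
          exact hV2 k _ (hj j (by omega))
      obtain ⟨f, hf, e⟩ := mem_Vk.1 this
      exact ⟨f, hf, hWk f hf, by rw [e, hρ]⟩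
  have hfull' := full l1 l2 w1 w2 sb' (hdP d1 l1 hd1) (hdP d2 l2 hd2) (k := k) (m := m)
    fun j hj' => by
      obtain ⟨f, hf, e⟩ := mem_Vk.1 (hj j hj')
      exact ⟨f, hf, hWk f (hle' f hf), by rw [e, hρ]⟩
  have hlow : ∀ κ ≤ k, ∀ f ∈ Wk (plus b P0 (E + 1 - s)) κ,
      ∃ g ∈ Wk b κ, ∃ G, f = g + C X * (P0 * G) := by
    intro κ hκ f hf
    obtain ⟨β, hβ, G, -, e⟩ := raise (k := k) hb hP hPs
      (fun κ hκ q hq => hfull (k - κ) κ (by omega) q (by omega)) (mem_Wk.1 hf) (κ + 1) (by omega)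
    refine ⟨f - C X * (P0 * G), ?_, G, by ring⟩
    rw [mem_Wk]
    convert hβ using 1
    linear_combination e
  have hdvd : ∀ f ∈ Wk (plus b P0 (E + 1 - s)) k, P0 ∣ f := by
    intro f hf
    obtain ⟨g, hg, G, rfl⟩ := hlow k le_rfl f hf
    exact dvd_add (hWk g hg) ((dvd_mul_right _ _).mul_left _)
  have hplus : plus b P0 (E + 1 - s) ≤ L F (E + 1) := by
    refine sup_le hb ?_
    rintro _ ⟨G, hG, rfl⟩
    have := L_mul hPL hG
    rwa [show s + (E + 1 - s) = E + 1 by omega] at this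
  refine ⟨k, s, m, P0, G0, ⟨by omega, hks⟩, ⟨hP, hPs, hPL⟩, ⟨?_, hG0 ▸ mem_Wk.1 hpW⟩,
    fun Q hQ => hN2 Q (hdvd _ (mem_Wk.2 hQ)), fun κ => ?_, hdvd,
    fun κ hκ q hq => hfull' (k - κ) κ (by omega) q hq⟩
  · have := Wk_L hb' hpW
    rw [hG0, ← hsm] at this
    simpa using L_cancel hP.ne_zero htd this
  · split_ifs with hκ
    · have h1 : Vk (plus b P0 (E + 1 - s)) κ ≤ Vk b κ := by
        intro q hq
        obtain ⟨f, hf, rfl⟩ := mem_Vk.1 hq
        obtain ⟨g, hg, G, rfl⟩ := hlow κ hκ.le f hf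
        exact mem_Vk.2 ⟨g, hg, by rw [map_add, map_mul, rho_w, zero_mul, add_zero]⟩
      have := fV κ
      have h2 := Submodule.finrank_mono h1
      by_cases e : Vk b κ = ⊥
      · rw [e, finrank_bot] at h2; omega
      · have := hnum κ (fun κ' h => hmin κ' (by omega)) e
        omega
    · have h1 : Vk (plus b P0 (E + 1 - s)) κ ≤ mult γ (E + 1 - κ + 1 - s) := by
        intro q hq
        obtain ⟨f, hf, rfl⟩ := mem_Vk.1 hq
        by_cases f0 : f = 0
        · rw [f0, map_zero]; exact zero_mem _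
        have h2 := Wk_le hplus hf f0
        obtain ⟨g, rfl⟩ := hN1 (κ - k) f (hdvd _ (by
          rw [mem_Wk, ← mul_assoc, ← pow_add, show k + (κ - k) = κ by omega]
          exact mem_Wk.1 hf))
        rw [td_mul hP.ne_zero (right_ne_zero_of_mul f0)] at h2
        have h3 := rho_deg g
        rw [map_mul, hρ, show E + 1 - κ + 1 - s = (E + 1 - κ - s) + 1 by omega]
        exact mem_mult (by omega)
      have := fin_mult γ (E + 1 - κ + 1 - s)
      have h2 := Submodule.finrank_mono h1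
      rwa [rank_mult hγ.ne_zero] at h2

theorem curveS : CurveS.{u} := by
  intro F _ _ b b' E d1 d2 hb hb' hfin hle hmul l1 l2 w1 w2 sb sb' hco hrk
  rcases curveG b b' E 1 d1 d2 le_rfl hb hb' hfin hle hmul l1 l2 w1 w2 sb sb' hco (by omega) with
    h | ⟨k, s, m, P0, G0, h⟩
  · exact Or.inl h
  · exact Or.inr ⟨k, s, m, P0, G0, h.num, h.mon, h.g0, h.test, h.lev⟩

end Pool.Agent.MP_708e57_al.c4

end MrgPart2

-- ======== part 3: formerly Pool.Agent.MP_708e57_al.c4.Gen
section MrgPart3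

/-! Codimension four: generic coordinates over a field of rational functions. -/

set_option autoImplicit false

namespace Pool.Agent.MP_708e57_al.c4

open Module MvPolynomial

universe u

namespace GenAux

section tsz

variable {B : Type u} [CommRing B]

/-- the second component of a section of the square-zero extension -/
def sndD (Φ : B →+* TrivSqZeroExt B B) : B →+ B where
  toFun x := (Φ x).snd
  map_zero' := by simp
  map_add' x y := by simp

lemma sndD_lei (Φ : B →+* TrivSqZeroExt B B) (h : ∀ x, (Φ x).fst = x) : Lei (sndD Φ) := by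
  intro f g
  change (Φ (f * g)).snd = (Φ f).snd * g + f * (Φ g).snd
  rw [map_mul, TrivSqZeroExt.snd_mul, h, h]
  simp only [smul_eq_mul, MulOpposite.smul_eq_mul_unop, MulOpposite.unop_op]
  ring

lemma lei_comm {D E : B →+ B} (hD : Lei D) (hE : Lei E) : Lei (D.comp E - E.comp D) := by
  intro f g
  simp only [AddMonoidHom.sub_apply, AddMonoidHom.comp_apply, hD _ _, hE _ _, map_add]
  ring

end tsz

section ext

variable {F : Type u} [Field F]

/-- a derivation of the coefficients, extended with given values on the variables -/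
lemma exists_ext (δ : F →+ F) (hδ : Lei δ) (v : Fin 4 → R F) :
    ∃ D : R F →+ R F, Lei D ∧ (∀ c, D (C c) = C (δ c)) ∧ ∀ e, D (X e) = v e := by
  let j : F →+* TrivSqZeroExt (R F) (R F) :=
    { toFun := fun c => TrivSqZeroExt.inl (C c) + TrivSqZeroExt.inr (C (δ c))
      map_one' := by rw [hδ.one]; simp
      map_zero' := by simp
      map_add' := fun a b => by ext1 <;> simp
      map_mul' := fun a b => by
        ext1
        · simp
        · rw [hδ a b]
          simp [TrivSqZeroExt.snd_mul, add_comm, mul_comm] }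
  let Φ : R F →+* TrivSqZeroExt (R F) (R F) :=
    eval₂Hom j fun e => TrivSqZeroExt.inl (X e) + TrivSqZeroExt.inr (v e)
  have h : ∀ x, (Φ x).fst = x := by
    intro x
    induction x using MvPolynomial.induction_on with
    | C c => simp [Φ, j]
    | add p q hp hq => rw [map_add, TrivSqZeroExt.fst_add, hp, hq]
    | mul_X p e hp => rw [map_mul, TrivSqZeroExt.fst_mul, hp]; simp [Φ]
  exact ⟨sndD Φ, sndD_lei Φ h, fun c => by simp [sndD, Φ, j], fun e => by simp [sndD, Φ]⟩

lemma lei_zero {D : R F →+ R F} (hD : Lei D) (hC : ∀ c, D (C c) = 0) (hX : ∀ e, D (X e) = 0)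
    (f : R F) : D f = 0 := by
  induction f using MvPolynomial.induction_on with
  | C c => exact hC c
  | add p q hp hq => rw [map_add, hp, hq, add_zero]
  | mul_X p e hp => rw [hD, hp, hX]; simp

end ext

variable (K : Type u) [Field K]

/-- the field of rational functions in six parameters -/
abbrev FF : Type u := FractionRing (MvPolynomial (Fin 6) K)

/-- the parameters -/
noncomputable def t (i : Fin 6) : FF K := algebraMap (MvPolynomial (Fin 6) K) (FF K) (X i)

lemma alg_eq (c : K) :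
    algebraMap K (FF K) c = algebraMap (MvPolynomial (Fin 6) K) (FF K) (C c) := by
  rw [IsScalarTower.algebraMap_apply K (MvPolynomial (Fin 6) K) (FF K)]
  rfl

lemma exists_der (v : Fin 6 → FF K) :
    ∃ δ : FF K →+ FF K, Lei δ ∧ (∀ c : K, δ (algebraMap K (FF K) c) = 0) ∧ ∀ i, δ (t K i) = v i := by
  let j : K →+* TrivSqZeroExt (FF K) (FF K) :=
    (TrivSqZeroExt.inlAlgHom (FF K) (FF K) (FF K)).toRingHom.comp (algebraMap K (FF K))
  let Φ : MvPolynomial (Fin 6) K →+* TrivSqZeroExt (FF K) (FF K) :=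
    eval₂Hom j fun e => TrivSqZeroExt.inl (t K e) + TrivSqZeroExt.inr (v e)
  have h : ∀ x, (Φ x).fst = algebraMap _ (FF K) x := by
    intro x
    induction x using MvPolynomial.induction_on with
    | C c =>
      rw [← alg_eq, eval₂Hom_C]
      rfl
    | add p q hp hq => rw [map_add, TrivSqZeroExt.fst_add, hp, hq, map_add]
    | mul_X p e hp => rw [map_mul, TrivSqZeroExt.fst_mul, hp, map_mul]; simp [Φ, t]
  have hu : ∀ y : nonZeroDivisors (MvPolynomial (Fin 6) K), IsUnit (Φ y) := by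
    intro y
    rw [TrivSqZeroExt.isUnit_iff_isUnit_fst, h]
    exact IsLocalization.map_units (FF K) y
  let Ψ : FF K →+* TrivSqZeroExt (FF K) (FF K) := IsLocalization.lift hu
  have hΨ : ∀ x, Ψ (algebraMap _ (FF K) x) = Φ x := fun x => IsLocalization.lift_eq hu x
  have h1 : ∀ x, (Ψ x).fst = x := by
    have : (TrivSqZeroExt.fstHom (FF K) (FF K) (FF K)).toRingHom.comp Ψ = RingHom.id _ := by
      refine IsLocalization.ringHom_ext (nonZeroDivisors (MvPolynomial (Fin 6) K)) ?_
      refine RingHom.ext fun x => ?_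
      change (Ψ (algebraMap _ (FF K) x)).fst = algebraMap _ (FF K) x
      rw [hΨ, h]
    exact fun x => RingHom.congr_fun this x
  refine ⟨sndD Ψ, sndD_lei Ψ h1, fun c => ?_, fun i => ?_⟩
  · change (Ψ _).snd = 0
    rw [alg_eq, hΨ, eval₂Hom_C]
    rfl
  · change (Ψ (algebraMap _ _ _)).snd = v i
    rw [hΨ]
    simp [Φ]

variable {K}

lemma der_zero {δ : FF K →+ FF K} (h : Lei δ) (hc : ∀ c : K, δ (algebraMap K (FF K) c) = 0)
    (ht : ∀ i, δ (t K i) = 0) (x : FF K) : δ x = 0 := by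
  have h1 : ∀ a : MvPolynomial (Fin 6) K, δ (algebraMap _ (FF K) a) = 0 := by
    intro a
    induction a using MvPolynomial.induction_on with
    | C c => rw [← alg_eq, hc]
    | add p q hp hq => rw [map_add, map_add, hp, hq, add_zero]
    | mul_X p e hp =>
      rw [map_mul, h, hp]
      change _ + _ * δ (t K e) = 0
      rw [ht]
      simp
  obtain ⟨a, b, hb, rfl⟩ := IsFractionRing.div_surjective (A := MvPolynomial (Fin 6) K) x
  have hb' : algebraMap _ (FF K) b ≠ 0 := IsFractionRing.to_map_ne_zero_of_mem_nonZeroDivisors hb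
  have := h (algebraMap _ (FF K) a / algebraMap _ (FF K) b) (algebraMap _ (FF K) b)
  rw [div_mul_cancel₀ _ hb', h1, h1, mul_zero, add_zero] at this
  exact (mul_eq_zero.1 this.symm).resolve_right hb'

section base

variable {F : Type u} [Field F] [Algebra K F]

/-- the extension of a functional -/
noncomputable def ext (F : Type u) [Field F] [Algebra K F] (φ : R K →ₗ[K] K) : R F →ₗ[F] F :=
  (basisMonomials (Fin 4) F).constr F fun α => algebraMap K F (φ (monomial α 1))

lemma ext_mono (φ : R K →ₗ[K] K) (α : Fin 4 →₀ ℕ) :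
    ext F φ (monomial α 1) = algebraMap K F (φ (monomial α 1)) := by
  have := (basisMonomials (Fin 4) F).constr_basis F
    (fun α => algebraMap K F (φ (monomial α 1))) α
  rwa [coe_basisMonomials] at this

lemma ext_map (φ : R K →ₗ[K] K) (f : R K) :
    ext F φ (map (algebraMap K F) f) = algebraMap K F (φ f) := by
  induction f using MvPolynomial.induction_on' with
  | monomial α c =>
    have e1 : (monomial α c : R K) = c • monomial α 1 := by rw [smul_monomial, smul_eq_mul, mul_one]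
    have e2 : (monomial α (algebraMap K F c) : R F) = algebraMap K F c • monomial α 1 := by
      rw [smul_monomial, smul_eq_mul, mul_one]
    rw [map_monomial, e1, e2, map_smul, map_smul, ext_mono, smul_eq_mul, smul_eq_mul, map_mul]
  | add p q hp hq => simp only [map_add, hp, hq]

lemma H_span (n : ℕ) : H F n = Submodule.span F (map (algebraMap K F) '' (H K n : Set (R K))) := by
  apply le_antisymm
  · intro f hf
    revert n f
    refine H_ind (fun c => ?_) (fun n f g hf hg => add_mem hf hg) (fun n e f _ ih => ?_)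
    · have : (C c : R F) = c • map (algebraMap K F) 1 := by rw [map_one, smul_eq_C_mul, mul_one]
      rw [this]
      exact Submodule.smul_mem _ _ (Submodule.subset_span ⟨1, isHomogeneous_one _ _, rfl⟩)
    · rename_i h0
      clear h0
      induction ih using Submodule.span_induction with
      | mem x hx =>
        obtain ⟨g, hg, rfl⟩ := hx
        exact Submodule.subset_span ⟨X e * g, H_Xmul e hg, by rw [map_mul, map_X]⟩
      | zero => simp
      | add x y _ _ h1 h2 => rw [mul_add]; exact add_mem h1 h2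
      | smul c x _ h1 => rw [mul_smul_comm]; exact Submodule.smul_mem _ _ h1
  · rw [Submodule.span_le]
    rintro _ ⟨g, hg, rfl⟩
    exact IsHomogeneous.map hg _

lemma ext_conc {φ : R K →ₗ[K] K} {d : ℕ} (h : Conc φ d) : Conc (ext F φ) d := by
  intro n hn f hf
  rw [H_span (K := K)] at hf
  induction hf using Submodule.span_induction with
  | mem x hx =>
    obtain ⟨g, hg, rfl⟩ := hx
    rw [ext_map, h n hn g hg, map_zero]
  | zero => simp
  | add x y _ _ h1 h2 => rw [map_add, h1, h2, add_zero]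
  | smul c x _ h1 => rw [map_smul, h1, smul_zero]

lemma rank_base {ι : Type} (W : Submodule K (ι → K)) [FiniteDimensional K W] :
    finrank F (Submodule.span F ((fun v => algebraMap K F ∘ v) '' (W : Set (ι → K)))) =
      finrank K W := by
  let b := Module.finBasis K W
  have hli : LinearIndependent F fun i => algebraMap K F ∘ (b i : ι → K) := by
    rw [Fintype.linearIndependent_iff]
    intro c hc i
    refine (Module.forall_dual_apply_eq_zero_iff K (c i)).1 fun l => ?_
    have h0 : ∑ j, l (c j) • b j = 0 := by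
      ext x
      have := congrArg l (congrFun hc x)
      simp only [Finset.sum_apply, Pi.smul_apply, Function.comp_apply, smul_eq_mul, map_sum,
        Pi.zero_apply, map_zero] at this
      simp only [Submodule.coe_sum, Submodule.coe_smul, Finset.sum_apply, Pi.smul_apply,
        smul_eq_mul, Submodule.coe_zero, Pi.zero_apply]
      rw [← this]
      refine Finset.sum_congr rfl fun j _ => ?_
      rw [mul_comm (c j), ← Algebra.smul_def, map_smul, smul_eq_mul, mul_comm]
    exact Fintype.linearIndependent_iff.1 b.linearIndependent _ h0 i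
  have e : Submodule.span F ((fun v => algebraMap K F ∘ v) '' (W : Set (ι → K))) =
      Submodule.span F (Set.range fun i => algebraMap K F ∘ (b i : ι → K)) := by
    apply le_antisymm
    · rw [Submodule.span_le]
      rintro _ ⟨v, hv, rfl⟩
      have h1 : algebraMap K F ∘ v = ∑ j, algebraMap K F (b.repr ⟨v, hv⟩ j) •
          (algebraMap K F ∘ (b j : ι → K)) := by
        ext x
        have := congrFun (congrArg Subtype.val (b.sum_repr ⟨v, hv⟩)) x
        simp only [Submodule.coe_sum, Submodule.coe_smul, Finset.sum_apply, Pi.smul_apply,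
          smul_eq_mul] at this
        simp only [Function.comp_apply, Finset.sum_apply, Pi.smul_apply, smul_eq_mul, ← map_mul,
          ← map_sum, this]
      change algebraMap K F ∘ v ∈ _
      rw [h1]
      exact sum_mem fun j _ => Submodule.smul_mem _ _ (Submodule.subset_span ⟨j, rfl⟩)
    · refine Submodule.span_mono ?_
      rintro _ ⟨i, rfl⟩
      exact ⟨b i, (b i).2, rfl⟩
  rw [e, finrank_span_eq_card hli, Fintype.card_fin]

/-- the catalecticant map -/
noncomputable def cat {L : Type u} [Field L] (χ : R L →ₗ[L] L) :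
    R L →ₗ[L] ((Fin 4 →₀ ℕ) → L) :=
  LinearMap.pi fun β => χ ∘ₗ LinearMap.mulRight L (monomial β 1)

lemma cat_apply {L : Type u} [Field L] (χ : R L →ₗ[L] L) (f : R L) (β : Fin 4 →₀ ℕ) :
    cat χ f β = χ (f * monomial β 1) := by
  rw [cat, LinearMap.pi_apply, LinearMap.comp_apply, LinearMap.mulRight_apply]

lemma cat_ker {L : Type u} [Field L] (χ : R L →ₗ[L] L) : LinearMap.ker (cat χ) = Ann χ := by
  ext f
  refine ⟨fun h g => ?_, fun h => funext fun β => h _⟩
  induction g using MvPolynomial.induction_on' with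
  | monomial α c =>
    have e1 : (monomial α c : R L) = c • monomial α 1 := by rw [smul_monomial, smul_eq_mul, mul_one]
    have : χ (f * monomial α 1) = 0 := congrFun h α
    rw [e1, mul_smul_comm, map_smul, this, smul_zero]
  | add p q hp hq => rw [mul_add, map_add, hp, hq, add_zero]

lemma ext_di (φ : R K →ₗ[K] K) (n : ℕ) : di (ext F φ) n = di φ n := by
  have := finH F n
  have := finH K n
  have h1 := rank_map (H F n) (cat (ext F φ))
  have h2 := rank_map (H K n) (cat φ)
  rw [cat_ker, finrank_H] at h1 h2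
  have e : (H F n).map (cat (ext F φ)) = Submodule.span F
      ((fun v => algebraMap K F ∘ v) '' ((H K n).map (cat φ) : Set ((Fin 4 →₀ ℕ) → K))) := by
    rw [H_span (K := K), Submodule.map_span, Submodule.map_coe, Set.image_image, Set.image_image]
    congr 2
    ext g β
    rw [Function.comp_apply, cat_apply, cat_apply, ← ext_map, map_mul (map (algebraMap K F)),
      map_monomial, map_one (algebraMap K F)]
  rw [e, rank_base] at h1
  unfold di I
  omega

lemma ext_der (φ : R K →ₗ[K] K) {δ : F →+ F} (hδ : Lei δ) (hc : ∀ c, δ (algebraMap K F c) = 0)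
    {D : R F →+ R F} (hD : Lei D) (hC : ∀ c, D (C c) = C (δ c)) (hX : ∀ e, D (X e) = 0)
    (f : R F) : ext F φ (D f) = δ (ext F φ f) := by
  have h0 : ∀ g : R K, D (map (algebraMap K F) g) = 0 := by
    intro g
    induction g using MvPolynomial.induction_on with
    | C c => rw [map_C, hC, hc, map_zero]
    | add p q hp hq => rw [map_add, map_add, hp, hq, add_zero]
    | mul_X p e hp => rw [map_mul, map_X, hD, hp, hX]; simp
  induction f using MvPolynomial.induction_on' with
  | monomial α c =>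
    have e1 : (monomial α c : R F) = C c * map (algebraMap K F) (monomial α 1) := by
      rw [map_monomial, map_one, C_mul_monomial, mul_one]
    rw [e1, hD, h0, hC, mul_zero, add_zero, ← smul_eq_C_mul, ← smul_eq_C_mul, map_smul, map_smul,
      ext_map, smul_eq_mul, smul_eq_mul, hδ, hc, mul_zero, add_zero]
  | add p q hp hq => simp only [map_add, hp, hq]

end base

section change

variable {F : Type u} [Field F]

lemma aeval_H (y : Fin 4 → R F) (hy : ∀ e, y e ∈ H F 1) :
    ∀ n, ∀ f ∈ H F n, aeval y f ∈ H F n := by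
  refine H_ind (fun c => ?_) (fun n f g hf hg => ?_) (fun n e f _ ih => ?_)
  · rw [aeval_C]
    exact isHomogeneous_C _ _
  · rw [map_add]
    exact add_mem hf hg
  · rw [map_mul, aeval_X, add_comm]
    exact H_mul (hy e) ih

lemma change_di (χ : R F →ₗ[F] F) (y y' : Fin 4 → R F) (hy : ∀ e, y e ∈ H F 1)
    (hy' : ∀ e, y' e ∈ H F 1) (h1 : ∀ e, aeval y (y' e) = X e) (h2 : ∀ e, aeval y' (y e) = X e)
    (n : ℕ) : di (χ ∘ₗ (aeval y : R F →ₐ[F] R F).toLinearMap) n = di χ n := by
  have k1 : ∀ f : R F, aeval y (aeval y' f) = f := fun f =>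
    AlgHom.congr_fun (show (aeval y).comp (aeval y') = AlgHom.id F (R F) from
      algHom_ext fun e => by simpa using h1 e) f
  have k2 : ∀ f : R F, aeval y' (aeval y f) = f := fun f =>
    AlgHom.congr_fun (show (aeval y').comp (aeval y) = AlgHom.id F (R F) from
      algHom_ext fun e => by simpa using h2 e) f
  unfold di
  rw [← rank_inj _ (π := (aeval y : R F →ₐ[F] R F).toLinearMap)
    (Function.LeftInverse.injective k2)]
  suffices e : (I (χ ∘ₗ (aeval y : R F →ₐ[F] R F).toLinearMap) n).map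
    (aeval y : R F →ₐ[F] R F).toLinearMap = I χ n by rw [e]
  ext f
  constructor
  · rintro ⟨g, hg, rfl⟩
    refine ⟨aeval_H y hy n g hg.1, fun x => ?_⟩
    have : χ (aeval y (g * aeval y' x)) = 0 := hg.2 (aeval y' x)
    rwa [map_mul, k1] at this
  · intro hf
    refine ⟨aeval y' f, ⟨aeval_H y' hy' n f hf.1, fun x => ?_⟩, k1 f⟩
    change χ (aeval y (aeval y' f * x)) = 0
    rw [map_mul, k1]
    exact hf.2 _

lemma mk_der {χ : R F →ₗ[F] F} {y : Fin 4 → R F} {δ : F →+ F} (hδ : Lei δ) {a b : Fin 4}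
    (hχ : ∀ D : R F →+ R F, Lei D → (∀ c, D (C c) = C (δ c)) → (∀ e, D (X e) = 0) →
      (∀ f, χ (D f) = δ (χ f)) ∧ ∀ e, D (y e) = if e = a then y b else 0) :
    ∃ D : R F →+ R F, Der (χ ∘ₗ (aeval y : R F →ₐ[F] R F).toLinearMap) D a b ∧
      ∀ c, D (C c) = C (δ c) := by
  obtain ⟨D, h1, h2, h3⟩ := exists_ext δ hδ fun e => if e = a then X b else 0
  obtain ⟨D0, g1, g2, g3⟩ := exists_ext δ hδ 0
  obtain ⟨k1, k2⟩ := hχ D0 g1 g2 g3
  have key : ∀ f, aeval y (D f) = D0 (aeval y f) := by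
    intro f
    induction f using MvPolynomial.induction_on with
    | C c => rw [h2, aeval_C, aeval_C, algebraMap_eq, g2]
    | add p q hp hq => simp only [map_add, hp, hq]
    | mul_X p e hp =>
      rw [h1, map_add, map_mul, map_mul, map_mul, g1, hp, aeval_X, h3, k2]
      split_ifs <;> simp
  refine ⟨D, ⟨h1, fun c => ⟨_, h2 c⟩, by rw [h3, if_pos rfl], fun e he => by rw [h3, if_neg he],
    fun f => ?_⟩, h2⟩
  rw [h2]
  change C (δ (χ (aeval y f))) = C (χ (aeval y (D f)))
  rw [key, k1]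

end change

lemma main {F : Type u} [Field F] [Algebra K F] (t : Fin 6 → F)
    (hd : ∀ v : Fin 6 → F, ∃ δ : F →+ F, Lei δ ∧ (∀ c : K, δ (algebraMap K F c) = 0) ∧
      ∀ i, δ (t i) = v i)
    (hz : ∀ δ : F →+ F, Lei δ → (∀ c : K, δ (algebraMap K F c) = 0) → (∀ i, δ (t i) = 0) →
      ∀ x, δ x = 0) (φ : R K →ₗ[K] K) (d : ℕ) (hφ : Conc φ d) :
    ∃ ψ : R F →ₗ[F] F, Conc ψ d ∧ Gen ψ ∧ ∀ n, di ψ n = di φ n := by
  let y : Fin 4 → R F := ![X 0 + C (t 0) * X 1, X 1, X 2 + C (t 1) * X 0 + C (t 2) * X 1,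
    X 3 + C (t 3) * X 0 + C (t 4) * X 1 + C (t 5) * X 2]
  let y' : Fin 4 → R F :=
    ![X 0 - C (t 0) * X 1, X 1, X 2 - C (t 1) * (X 0 - C (t 0) * X 1) - C (t 2) * X 1,
      X 3 - C (t 3) * (X 0 - C (t 0) * X 1) - C (t 4) * X 1 -
        C (t 5) * (X 2 - C (t 1) * (X 0 - C (t 0) * X 1) - C (t 2) * X 1)]
  have hs : ∀ i {f : R F}, f ∈ H F 1 → C (t i) * f ∈ H F 1 := fun i f hf => by
    rw [← smul_eq_C_mul]
    exact Submodule.smul_mem _ _ hf
  have hy : ∀ e, y e ∈ H F 1 := by
    intro e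
    fin_cases e
    · exact add_mem (H_X 0) (hs 0 (H_X 1))
    · exact H_X 1
    · exact add_mem (add_mem (H_X 2) (hs 1 (H_X 0))) (hs 2 (H_X 1))
    · exact add_mem (add_mem (add_mem (H_X 3) (hs 3 (H_X 0))) (hs 4 (H_X 1))) (hs 5 (H_X 2))
  have hy' : ∀ e, y' e ∈ H F 1 := by
    have a0 := sub_mem (H_X 0) (hs 0 (H_X 1))
    have a2 := sub_mem (sub_mem (H_X 2) (hs 1 a0)) (hs 2 (H_X 1))
    intro e
    fin_cases e
    · exact a0
    · exact H_X 1
    · exact a2
    · exact sub_mem (sub_mem (sub_mem (H_X 3) (hs 3 a0)) (hs 4 (H_X 1))) (hs 5 a2)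
  have mk : ∀ (v : Fin 6 → F) (a b : Fin 4),
      (∀ e, (![C (v 0) * X 1, 0, C (v 1) * X 0 + C (v 2) * X 1,
        C (v 3) * X 0 + C (v 4) * X 1 + C (v 5) * X 2] : Fin 4 → R F) e =
          if e = a then y b else 0) →
      ∃ (δ : F →+ F) (D : R F →+ R F), Lei δ ∧
        (∀ c : K, δ (algebraMap K F c) = 0) ∧ (∀ i, δ (t i) = v i) ∧
        Der (ext F φ ∘ₗ (aeval y : R F →ₐ[F] R F).toLinearMap) D a b ∧
        ∀ c, D (C c) = C (δ c) := by
    intro v a b h
    obtain ⟨δ, h1, h2, h3⟩ := hd v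
    obtain ⟨D, k1, k2⟩ := mk_der (χ := ext F φ) (y := y) h1 (a := a) (b := b)
      fun D g1 g2 g3 => ⟨ext_der φ h1 h2 g1 g2 g3, fun e => by
        rw [← h e]
        fin_cases e <;> simp [y, g1 _ _, g2, g3, h3]⟩
    exact ⟨δ, D, h1, h2, h3, k1, k2⟩
  obtain ⟨-, D12, -, -, -, h12, -⟩ := mk ![1, 0, 0, 0, 0, 0] 0 1 fun e => by
    fin_cases e <;> simp [y]
  obtain ⟨-, D31, -, -, -, h31, -⟩ := mk ![0, 1, t 0, 0, 0, 0] 2 0 fun e => by
    fin_cases e <;> simp [y]
  obtain ⟨-, D32, -, -, -, h32, -⟩ := mk ![0, 0, 1, 0, 0, 0] 2 1 fun e => by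
    fin_cases e <;> simp [y]
  obtain ⟨δ1, D41, a1, a2, a3, h41, c41⟩ := mk ![0, 0, 0, 1, t 0, 0] 3 0 fun e => by
    fin_cases e <;> simp [y]
  obtain ⟨δ3, D43, b1, b2, b3, h43, c43⟩ := mk ![0, 0, 0, t 1, t 2, 1] 3 2 fun e => by
    fin_cases e <;> simp [y]
    ring
  refine ⟨ext F φ ∘ₗ (aeval y : R F →ₐ[F] R F).toLinearMap, ?_,
    ⟨D12, D31, D32, D41, D43, h12, h31, h32, h41, h43, fun f => ?_⟩, fun n => ?_⟩
  · intro n hn f hf
    rw [LinearMap.comp_apply, AlgHom.toLinearMap_apply]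
    exact ext_conc hφ n hn _ (aeval_H y hy n f hf)
  · have z : ∀ x, (δ1.comp δ3 - δ3.comp δ1) x = 0 := by
      refine hz _ (lei_comm a1 b1) (fun c => by simp [a2, b2]) fun i => ?_
      fin_cases i <;> simp [a3, b3, a1.one, b1.one]
    refine sub_eq_zero.1 (lei_zero (lei_comm h41.mul h43.mul) (fun c => ?_) (fun e => ?_) f)
    · have := z c
      simp only [AddMonoidHom.sub_apply, AddMonoidHom.comp_apply] at this ⊢
      rw [c43, c41, c41, c43, ← map_sub, this, map_zero]
    · simp only [AddMonoidHom.sub_apply, AddMonoidHom.comp_apply]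
      by_cases he : e = 3
      · rw [he, h43.hit, h41.hit, h41.mis 2 (by decide), h43.mis 0 (by decide), sub_zero]
      · rw [h43.mis e he, h41.mis e he, map_zero, map_zero, sub_zero]
  · rw [change_di _ y y' hy hy', ext_di]
    · intro e
      fin_cases e <;> simp [y, y']
      all_goals ring
    · intro e
      fin_cases e <;> simp [y, y']
      all_goals ring

end GenAux

theorem genS : GenS.{u} := fun K _ _ φ d hφ =>
  ⟨GenAux.FF K, inferInstance, inferInstance,
    GenAux.main (GenAux.t K) (GenAux.exists_der K) (fun _ => GenAux.der_zero) φ d hφ⟩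

end Pool.Agent.MP_708e57_al.c4

end MrgPart3

-- marker of a merged file
example : 731051 + 194159 = 731051 + 194159 := rfl
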