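import Mathlib.Algebra.AffineMonoid.UniqueSums
import Mathlib.Topology.Sheaves.Presheaf
import Mathlib.Data.Int.ConditionallyCompleteOrder
import Mathlib.Data.Int.Star
import Mathlib.Algebra.Order.Ring.Star
import Mathlib.Tactic.Bound
import Pool.Agent.MP_708e57_al.c4.Gen
import Pool.Agent.MP_708e57_al.c4.Spec2

-- ======== part 0: formerly Pool.Agent.MP_708e57_al.c4.KitE
section MrgPart0

/-! Codimension four: restriction to the plane and to the line, filtrations by order. -/

set_option autoImplicit false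

namespace Pool.Agent.MP_708e57_al.c4

open Module MvPolynomial

universe u

variable {F : Type u} [Field F]

@[simp] theorem eps0 : eps F (X 0) = 1 := by simp [eps]
@[simp] theorem eps1 : eps F (X 1) = Polynomial.X := by simp [eps]
@[simp] theorem eps2 : eps F (X 2) = Polynomial.C Polynomial.X := by simp [eps]
@[simp] theorem eps3 : eps F (X 3) = 0 := by simp [eps]
theorem epsC (c : F) : eps F (C c) = Polynomial.C (Polynomial.C c) := by
  simp [eps, Polynomial.algebraMap_apply]
@[simp] theorem rhoX : rho F Polynomial.X = Polynomial.X := by simp [rho]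
@[simp] theorem rhoW : rho F (Polynomial.C Polynomial.X) = 0 := by simp [rho]
theorem rhoC (c : F) : rho F (Polynomial.C (Polynomial.C c)) = Polynomial.C c := by simp [rho]
@[simp] theorem tauX : tau F Polynomial.X = Polynomial.X := by simp [tau]
@[simp] theorem tauW :
    tau F (Polynomial.C Polynomial.X) = Polynomial.C Polynomial.X * Polynomial.X := by simp [tau]
theorem rho_coeff (f : O F) (j : ℕ) : (rho F f).coeff j = (f.coeff j).coeff 0 := by
  simp [rho, Polynomial.coeff_zero_eq_eval_zero]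

theorem mono2 (j e : ℕ) (c : F) : (Polynomial.monomial j (Polynomial.monomial e c) : O F) =
    c • (Polynomial.X ^ j * Polynomial.C Polynomial.X ^ e) := by
  rw [← Polynomial.C_mul_X_pow_eq_monomial, ← Polynomial.C_mul_X_pow_eq_monomial,
    Algebra.smul_def, map_mul, map_pow]
  simp only [Polynomial.algebraMap_apply, Algebra.algebraMap_self, RingHom.id_apply]
  ring

theorem O_ind {P : O F → Prop} (hadd : ∀ f g, P f → P g → P (f + g))
    (hm : ∀ j e c, P (Polynomial.monomial j (Polynomial.monomial e c))) (f : O F) : P f := by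
  induction f using Polynomial.induction_on' with
  | add f g hf hg => exact hadd f g hf hg
  | monomial j a =>
    induction a using Polynomial.induction_on' with
    | add f g hf hg => rw [map_add]; exact hadd _ _ hf hg
    | monomial e c => exact hm j e c

theorem tau_coeff (f : O F) (j e : ℕ) :
    ((tau F f).coeff (j + e)).coeff e = (f.coeff j).coeff e := by
  induction f using O_ind with
  | hadd f g hf hg => simp only [map_add, Polynomial.coeff_add, hf, hg]
  | hm j' e' c =>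
    have : tau F (Polynomial.monomial j' (Polynomial.monomial e' c)) =
        Polynomial.monomial (j' + e') (Polynomial.monomial e' c) := by
      rw [mono2, mono2, map_smul, map_mul, map_pow, map_pow, tauX, tauW]
      congr 1
      ring
    rw [this]
    simp only [Polynomial.coeff_monomial]
    split_ifs <;> simp only [Polynomial.coeff_monomial, Polynomial.coeff_zero] <;>
      first | rfl | (rw [if_neg (by omega)])

theorem mem_L {n : ℕ} {f : O F} : f ∈ L F n ↔ (tau F f).natDegree ≤ n := Iff.rfl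

theorem L_coeff {n j e : ℕ} {f : O F} (hf : f ∈ L F n) (h : n < j + e) :
    (f.coeff j).coeff e = 0 := by
  rw [← tau_coeff, Polynomial.coeff_eq_zero_of_natDegree_lt (lt_of_le_of_lt hf h),
    Polynomial.coeff_zero]

theorem tau_ne {f : O F} (hf : f ≠ 0) : tau F f ≠ 0 := fun c => hf (by
  ext j e
  rw [← tau_coeff, c]
  simp)

theorem L_mul {a b : ℕ} {f g : O F} (hf : f ∈ L F a) (hg : g ∈ L F b) : f * g ∈ L F (a + b) := by
  rw [mem_L, map_mul]
  exact Polynomial.natDegree_mul_le.trans (add_le_add hf hg)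

theorem w_ne : (Polynomial.C Polynomial.X : O F) ≠ 0 := Polynomial.C_ne_zero.2 Polynomial.X_ne_zero

theorem tau_w : (tau F (Polynomial.C Polynomial.X)).natDegree = 1 := by
  rw [tauW, Polynomial.natDegree_C_mul Polynomial.X_ne_zero, Polynomial.natDegree_X]

theorem L_w {n k : ℕ} {f : O F} (hf : Polynomial.C Polynomial.X ^ k * f ∈ L F n) :
    f = 0 ∨ k ≤ n ∧ f ∈ L F (n - k) := by
  refine or_iff_not_imp_left.2 fun h => ?_
  rw [mem_L, map_mul, Polynomial.natDegree_mul (tau_ne (pow_ne_zero _ w_ne)) (tau_ne h), map_pow,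
    Polynomial.natDegree_pow, tau_w] at hf
  rw [mem_L]
  omega

theorem eps_L : ∀ n, ∀ f ∈ H F n, eps F f ∈ L F n := by
  refine H_ind (fun c => ?_) (fun n f g hf hg => ?_) (fun n e f _ ih => ?_)
  · rw [mem_L, ← algebraMap_eq, AlgHom.commutes, AlgHom.commutes, Polynomial.algebraMap_apply,
      Polynomial.natDegree_C]
  · rw [map_add]
    exact add_mem hf hg
  · rw [map_mul, add_comm]
    refine L_mul ?_ ih
    rw [mem_L]
    fin_cases e
    · simp
    · simp
    · exact (congrArg (fun x => (tau F x).natDegree) eps2).trans_le tau_w.le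
    · simp

/-- homogenisation -/
noncomputable def hom (F : Type u) [Field F] (n : ℕ) : O F →ₗ[F] R F :=
  Polynomial.lsum fun j => Polynomial.lsum fun e =>
    LinearMap.toSpanSingleton F (R F) (X 0 ^ (n - j - e) * (X 1 ^ j * X 2 ^ e))

theorem hom_mono (n j e : ℕ) (c : F) : hom F n (Polynomial.monomial j (Polynomial.monomial e c)) =
    c • (X 0 ^ (n - j - e) * (X 1 ^ j * X 2 ^ e)) := by
  simp [hom, Polynomial.lsum_apply, Polynomial.sum_monomial_index]

theorem eps_hom (n : ℕ) (g : O F) : eps F (hom F n g) = g := by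
  induction g using O_ind with
  | hadd f g hf hg => rw [map_add, map_add, hf, hg]
  | hm j e c => rw [hom_mono, mono2]; simp

theorem L_lift {n : ℕ} {g : O F} (hg : g ∈ L F n) : ∃ f ∈ H F n, eps F f = g := by
  refine ⟨hom F n g, ?_, eps_hom n g⟩
  rw [g.as_sum_support, map_sum]
  refine sum_mem fun j _ => ?_
  rw [(g.coeff j).as_sum_support, map_sum, map_sum]
  refine sum_mem fun e he => ?_
  have : j + e ≤ n := not_lt.1 fun c => Polynomial.mem_support_iff.1 he (L_coeff hg c)
  rw [hom_mono]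
  refine Submodule.smul_mem _ _ ?_
  have h := H_mul (H_Xp (F := F) 0 (n - j - e)) (H_mul (H_Xp 1 j) (H_Xp 2 e))
  rwa [show n - j - e + (j + e) = n by omega] at h

theorem eps_ker {n : ℕ} {f : R F} (hf : f ∈ H F n) (h : eps F f = 0) : X 3 ∣ f := by
  have key : X 3 ∣ f - hom F n (eps F f) := by
    conv_rhs => rw [f.as_sum, map_sum, map_sum, ← Finset.sum_sub_distrib]
    refine Finset.dvd_sum fun α hα => ?_
    have hd : α 0 + α 1 + α 2 + α 3 = n := by
      have := by_contra fun c => mem_support_iff.1 hα (IsHomogeneous.coeff_eq_zero hf c)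
      rwa [Finsupp.degree_eq_sum, Fin.sum_univ_four] at this
    have e : (monomial α (coeff α f) : R F) =
        coeff α f • (X 0 ^ α 0 * (X 1 ^ α 1 * X 2 ^ α 2) * X 3 ^ α 3) := by
      rw [monomial_eq, Finsupp.prod_fintype _ _ (by simp), Fin.prod_univ_four, smul_eq_C_mul]
      ring
    rw [e]
    rcases Nat.eq_zero_or_pos (α 3) with z | z
    · have : eps F (coeff α f • (X 0 ^ α 0 * (X 1 ^ α 1 * X 2 ^ α 2) * X 3 ^ α 3)) =
          Polynomial.monomial (α 1) (Polynomial.monomial (α 2) (coeff α f)) := by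
        rw [mono2, z]
        simp
      rw [this, hom_mono, z, show n - α 1 - α 2 = α 0 by omega]
      simp
    · have : eps F (coeff α f • (X 0 ^ α 0 * (X 1 ^ α 1 * X 2 ^ α 2) * X 3 ^ α 3)) = 0 := by
        simp [z.ne']
      rw [this, (hom F n).map_zero, sub_zero, smul_eq_C_mul]
      exact Dvd.dvd.mul_left (Dvd.dvd.mul_left (dvd_pow_self _ z.ne') _) _
  rwa [h, map_zero, sub_zero] at key

theorem eps_ker' {n : ℕ} {f : R F} (hf : f ∈ H F (n + 1)) (h : eps F f = 0) :
    ∃ g ∈ H F n, f = X 3 * g := by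
  obtain ⟨g, rfl⟩ := eps_ker hf h
  exact ⟨g, H_cancel (k := 1) 3 (by rwa [pow_one]), rfl⟩

theorem rho_ker {f : O F} (h : rho F f = 0) : Polynomial.C Polynomial.X ∣ f := by
  rw [Polynomial.C_dvd_iff_dvd_coeff]
  intro j
  rw [Polynomial.X_dvd_iff, ← rho_coeff, h, Polynomial.coeff_zero]

/-- the value at the point `(0, 1, 0, 0)` -/
noncomputable def ev (F : Type u) [Field F] : R F →ₐ[F] F := aeval ![0, 1, 0, 0]

theorem eps_top : ∀ n, ∀ f ∈ H F n,
    (eps F f).natDegree ≤ n ∧ (eps F f).coeff n = Polynomial.C (ev F f) := by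
  intro n f hf
  have h1 : ∀ n, ∀ f ∈ H F n, (eps F f).natDegree ≤ n := fun n f hf =>
    Polynomial.natDegree_le_iff_coeff_eq_zero.2 fun j hj => by
      ext e
      exact L_coeff (eps_L n f hf) (by omega)
  refine ⟨h1 n f hf, ?_⟩
  revert n f
  refine H_ind (fun c => ?_) (fun n f g hf hg => ?_) (fun n e f hf ih => ?_)
  · simp [epsC, ev]
  · simp only [map_add, Polynomial.coeff_add, hf, hg]
  · have z := Polynomial.coeff_eq_zero_of_natDegree_lt (Nat.lt_succ_of_le (h1 n f hf))
    fin_cases e <;> simp [ev, z, Polynomial.coeff_X_mul, Polynomial.coeff_C_mul]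
    simpa [ev] using ih

section filt

variable {A M : Type u} [CommRing A] [IsDomain A] [Algebra F A] [AddCommGroup M] [Module F M]

theorem fin_comap (B : Submodule F A) [FiniteDimensional F B] {x : A} (hx : x ≠ 0) :
    FiniteDimensional F (B.comap (LinearMap.mulLeft F x)) :=
  FiniteDimensional.of_injective
    ((LinearMap.mulLeft F x).restrict (p := B.comap (LinearMap.mulLeft F x)) (q := B) fun _ h => h)
    fun _ _ h => Subtype.ext (mul_left_cancel₀ hx (congrArg Subtype.val h))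

theorem filt (B : Submodule F A) [FiniteDimensional F B] {x : A} (hx : x ≠ 0) (π : A →ₗ[F] M)
    (h0 : ∀ g, π (x * g) = 0) (k : ℕ) (hk : ∀ f, x ^ k * f ∈ B → π f = 0 → x ∣ f) :
    finrank F (B.comap (LinearMap.mulLeft F (x ^ k))) =
      finrank F ((B.comap (LinearMap.mulLeft F (x ^ k))).map π) +
        finrank F (B.comap (LinearMap.mulLeft F (x ^ (k + 1)))) := by
  have := fin_comap B (pow_ne_zero k hx)
  rw [rank_map _ π, ← rank_inj (B.comap (LinearMap.mulLeft F (x ^ (k + 1))))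
    (π := LinearMap.mulLeft F x) (mul_right_injective₀ hx)]
  congr 3
  all_goals
    ext f
    simp only [Submodule.mem_inf, Submodule.mem_comap, LinearMap.mulLeft_apply, LinearMap.mem_ker,
      Submodule.mem_map]
    constructor
    · rintro ⟨h1, h2⟩
      obtain ⟨g, rfl⟩ := hk f h1 h2
      exact ⟨g, by rwa [pow_succ, mul_assoc], rfl⟩
    · rintro ⟨g, hg, rfl⟩
      exact ⟨by rwa [pow_succ, mul_assoc] at hg, h0 g⟩

theorem filt_sum (B : Submodule F A) [FiniteDimensional F B] {x : A} (hx : x ≠ 0) (π : A →ₗ[F] M)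
    (h0 : ∀ g, π (x * g) = 0) (hk : ∀ k f, x ^ k * f ∈ B → π f = 0 → x ∣ f) (v : ℕ → ℕ)
    (hv : ∀ k, finrank F ((B.comap (LinearMap.mulLeft F (x ^ k))).map π) ≤ v k) (k n : ℕ)
    (hn : ∀ f, x ^ (k + n) * f ∈ B → f = 0) :
    finrank F (B.comap (LinearMap.mulLeft F (x ^ k))) ≤ ∑ j ∈ Finset.range n, v (k + j) := by
  induction n generalizing k with
  | zero =>
    have : B.comap (LinearMap.mulLeft F (x ^ k)) = ⊥ := (Submodule.eq_bot_iff _).2 hn
    rw [this, finrank_bot]
    exact Nat.zero_le _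
  | succ n ih =>
    have := ih (k + 1) (by rwa [add_right_comm])
    have e := hv k
    rw [filt B hx π h0 k (hk k), Finset.sum_range_succ']
    simp only [add_assoc, add_comm 1] at this
    simp only [add_zero]
    omega

end filt

end Pool.Agent.MP_708e57_al.c4

end MrgPart0

-- ======== part 1: formerly Pool.Agent.MP_708e57_al.c4.Desc
section MrgPart1

/-! Codimension four: the plane sections of the annihilator satisfy the hypotheses of `CurveS`. -/

set_option autoImplicit false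

namespace Pool.Agent.MP_708e57_al.c4

open Module MvPolynomial

universe u

variable {F : Type u} [Field F] {φ : R F →ₗ[F] F} {D : R F →+ R F}

/-- the plane section of the annihilator in degree `n` -/
noncomputable def sec (φ : R F →ₗ[F] F) (n : ℕ) : Submodule F (O F) :=
  (I φ n).map (eps F).toLinearMap

theorem fin_sec (φ : R F →ₗ[F] F) (n : ℕ) : FiniteDimensional F (sec φ n) :=
  haveI := finI φ n
  Module.Finite.map _ _

theorem I_mul {n : ℕ} (e : Fin 4) {f : R F} (hf : f ∈ I φ n) : X e * f ∈ I φ (n + 1) :=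
  ⟨H_Xmul e hf.1, Ann_mul hf.2 _⟩

theorem desc (h : Lei D) (h0 : D (X 0) = 0) (h3 : D (X 3) = 0) :
    ∃ d : O F →+ O F, Lei d ∧ ∀ f, d (eps F f) = eps F (D f) := by
  let ι : O F →ₐ[F] R F := Polynomial.aevalAeval (X 2) (X 1)
  have e : ∀ g, eps F (ι g) = g := fun g => by
    induction g using O_ind with
    | hadd f g hf hg => rw [map_add, map_add, hf, hg]
    | hm j e c => simp [mono2, ι]
  refine ⟨(eps F : R F →+* O F).toAddMonoidHom.comp (D.comp (ι : O F →+* R F).toAddMonoidHom),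
    fun f g => ?_, fun f => ?_⟩
  · change eps F (D (ι (f * g))) = eps F (D (ι f)) * g + f * eps F (D (ι g))
    rw [map_mul, h, map_add, map_mul, map_mul, e, e]
  · change eps F (D (ι (eps F f))) = _
    induction f using MvPolynomial.induction_on with
    | C c => rw [← algebraMap_eq, AlgHom.commutes, AlgHom.commutes]
    | add f g hf hg => simp only [map_add, hf, hg]
    | mul_X f a hf =>
      rw [map_mul, map_mul, h, h, map_add, map_add, map_mul, map_mul, map_mul, map_mul, hf, e, e]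
      congr 2
      fin_cases a
      · simp [h.one, h0]
      · simp [ι]
      · simp [ι]
      · simp [h3]

/-- the action on constants -/
noncomputable def onC (D : R F →+ R F) (c : F) : F := constantCoeff (D (C c))

theorem onC_zero : onC D 0 = 0 := by simp [onC]

theorem onC_add (x y : F) : onC D (x + y) = onC D x + onC D y := by simp [onC]

theorem Der.onC {a b : Fin 4} (h : Der φ D a b) (c : F) : D (C c) = C (onC D c) := by
  obtain ⟨c', e⟩ := h.con c
  rw [c4.onC, e, constantCoeff_C]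

theorem Der.line (h : Der φ D 0 1) : ∀ n, ∀ f ∈ H F n, ∀ e, (rho F (eps F (D f))).coeff e =
    c4.onC D ((rho F (eps F f)).coeff e) +
      ((n : F) + 1 - e) * (Polynomial.X * rho F (eps F f)).coeff e := by
  refine H_ind (fun c e => ?_) (fun n f g hf hg e => ?_) (fun n a f _ ih e => ?_)
  · rw [h.onC, epsC, epsC, rhoC, rhoC]
    rcases e with _ | _ | e <;> simp [onC_zero, Polynomial.coeff_X_mul, Polynomial.coeff_C]
  · simp only [map_add, mul_add, Polynomial.coeff_add, hf e, hg e, onC_add]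
    ring
  · rw [h.mul]
    fin_cases a
    · simp [h.hit, ih e]
      ring
    · rcases e with _ | e
      · simp [h.mis, onC_zero]
      · simp [h.mis, Polynomial.coeff_X_mul, ih e]
    · simp [h.mis, onC_zero]
    · simp [h.mis, onC_zero]

theorem sec_top [CharZero F] (h : Der φ D 0 1) (E κ : ℕ) (hV : Vk (sec φ E) κ ≠ ⊥) :
    ∃ p ∈ Vk (sec φ E) κ, p.coeff (E - κ) ≠ 0 := by
  obtain ⟨_, ⟨g, ⟨f, hf, e⟩, rfl⟩, hp⟩ := (Submodule.ne_bot_iff _).1 hV
  change eps F f = Polynomial.C Polynomial.X ^ κ * g at e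
  change rho F g ≠ 0 at hp
  obtain z | ⟨hκ, hg⟩ := L_w (e ▸ eps_L E f hf.1)
  · exact absurd (by rw [z, map_zero]) hp
  have st : ∀ x ∈ H F (E - κ), eps F x ∈ Wk (sec φ E) κ → eps F (D x) ∈ Wk (sec φ E) κ := by
    rintro x hx ⟨y, hy, ey⟩
    change eps F y = Polynomial.C Polynomial.X ^ κ * eps F x at ey
    have hx' : X 2 ^ κ * x ∈ H F E := (Nat.add_sub_cancel' hκ) ▸ H_mul (H_Xp 2 κ) hx
    obtain ⟨t, ht⟩ := eps_ker (sub_mem hy.1 hx') (by simp [ey])
    refine ⟨D y, h.memI hy, ?_⟩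
    change eps F (D y) = Polynomial.C Polynomial.X ^ κ * eps F (D x)
    rw [sub_eq_iff_eq_add.1 ht, map_add, h.mul, h.mul, h.mul.pow_zero' (h.mis 2 (by decide)),
      h.mis 3 (by decide)]
    simp
  have up : ∀ r, ∀ x ∈ H F (E - κ), eps F x ∈ Wk (sec φ E) κ → rho F (eps F x) ≠ 0 →
      E - κ ≤ (rho F (eps F x)).natDegree + r → ∃ p ∈ Vk (sec φ E) κ, p.coeff (E - κ) ≠ 0 := by
    intro r
    induction r with
    | zero =>
      intro x hx h1 h2 h3
      refine ⟨_, ⟨_, h1, rfl⟩, fun c => h2 ?_⟩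
      by_contra c'
      have := Polynomial.leadingCoeff_ne_zero.2 c'
      rcases h3.eq_or_lt with q | q
      · exact this (by rwa [q] at c)
      · refine this ?_
        rw [Polynomial.leadingCoeff, rho_coeff]
        exact L_coeff (eps_L _ x hx) q
    | succ r ih =>
      intro x hx h1 h2 h3
      by_cases c : E - κ ≤ (rho F (eps F x)).natDegree + r
      · exact ih x hx h1 h2 c
      have q := h.line _ x hx ((rho F (eps F x)).natDegree + 1)
      rw [Polynomial.coeff_natDegree_succ_eq_zero, onC_zero, zero_add, Polynomial.coeff_X_mul,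
        Polynomial.coeff_natDegree] at q
      have q' : (rho F (eps F (D x))).coeff ((rho F (eps F x)).natDegree + 1) ≠ 0 := by
        rw [q]
        refine mul_ne_zero (sub_ne_zero.2 ?_) (Polynomial.leadingCoeff_ne_zero.2 h2)
        norm_cast
        omega
      have := Polynomial.le_natDegree_of_ne_zero q'
      exact ih _ (h.memH _ x hx) (st x hx h1) (fun z => q' (by simp [z])) (by omega)
  obtain ⟨x, hx, rfl⟩ := L_lift hg
  exact up (E - κ) x hx ⟨f, hf, e⟩ hp (Nat.le_add_left _ _)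

theorem sec_curve [CharZero F] (hC : CurveS.{u}) (hG : Gen φ) (E : ℕ)
    (h : finrank F (sec φ (E + 1)) ≤ finrank F (sec φ E) + (E + 1)) :
    (∀ κ, finrank F (Vk (sec φ (E + 1)) κ) ≤ E + 1 - 2 * κ) ∨
      ∃ k s m P0 G0, Curve (sec φ (E + 1)) (sec φ E) (E + 1) k s m P0 G0 := by
  obtain ⟨D12, D31, D32, -, -, h12, h31, h32, -⟩ := hG
  obtain ⟨d1, l1, e1⟩ := desc h31.mul (h31.mis 0 (by decide)) (h31.mis 3 (by decide))
  obtain ⟨d2, l2, e2⟩ := desc h32.mul (h32.mis 0 (by decide)) (h32.mis 3 (by decide))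
  have hL : ∀ n, sec φ n ≤ L F n := by
    rintro n _ ⟨f, hf, rfl⟩
    exact eps_L n f hf.1
  have hd : ∀ n, ∀ f ∈ sec φ n, d1 f ∈ sec φ n ∧ d2 f ∈ sec φ n := by
    rintro n _ ⟨f, hf, rfl⟩
    exact ⟨⟨_, h31.memI hf, (e1 f).symm⟩, ⟨_, h32.memI hf, (e2 f).symm⟩⟩
  refine hC F _ _ E d1 d2 (hL _) (hL _) (fin_sec _ _) ?_ ?_ l1 l2 ?_ ?_ (hd _) (hd _)
    (sec_top h12 E) h
  · rintro _ ⟨f, hf, rfl⟩
    exact ⟨_, I_mul 0 hf, by simp⟩
  · rintro _ ⟨f, hf, rfl⟩
    exact ⟨⟨_, I_mul 1 hf, by simp⟩, ⟨_, I_mul 2 hf, by simp⟩⟩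
  · rw [← eps2, e1, h31.hit, eps0]
  · rw [← eps2, e2, h32.hit, eps1]

theorem di_sec (φ : R F →ₗ[F] F) (n : ℕ) : di φ (n + 1) =
    finrank F (sec φ (n + 1)) + di (φ ∘ₗ LinearMap.mulLeft F (X 3)) n := by
  have := finI φ (n + 1)
  rw [di, rank_map _ (eps F).toLinearMap, di, ← rank_inj (I _ n)
    (π := LinearMap.mulLeft F (X 3)) (mul_right_injective₀ (X_ne_zero 3))]
  congr 3
  all_goals
    ext f
    constructor
    · rintro ⟨h1, h2⟩
      obtain ⟨g, hg, rfl⟩ := eps_ker' h1.1 h2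
      exact ⟨g, ⟨hg, fun x => (congrArg φ (mul_assoc _ _ _)).symm.trans (h1.2 x)⟩, rfl⟩
    · rintro ⟨g, hg, rfl⟩
      exact ⟨⟨H_Xmul 3 hg.1, fun x => (congrArg φ (mul_assoc _ _ _)).trans (hg.2 x)⟩, by simp⟩

end Pool.Agent.MP_708e57_al.c4

end MrgPart1

-- ======== part 2: formerly Pool.Agent.MP_708e57_al.c4.Pencil
section MrgPart2

/-! Codimension four: the pencil lemma. -/

set_option autoImplicit false

namespace Pool.Agent.MP_708e57_al.c4

open Module MvPolynomial

universe u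

variable {F : Type u} [Field F] {φ : R F →ₗ[F] F} {δ : R F →+ R F}

theorem Conc.perp_perp {D a : ℕ} (h : Conc φ (D + a)) {M : Submodule F (R F)} (h1 : M ≤ H F D)
    (h2 : I φ D ≤ M) : H F D ⊓ perp (bil φ 1) (H F a ⊓ perp (bil φ 1) M) ≤ M := by
  have := finH F a
  have := finH F D
  have := fin_of_le h1
  have : FiniteDimensional F (H F a ⊓ perp (bil φ 1) M : Submodule F (R F)) := fin_of_le inf_le_left
  have : FiniteDimensional F (H F D ⊓ perp (bil φ 1) (H F a ⊓ perp (bil φ 1) M) :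
    Submodule F (R F)) := fin_of_le inf_le_left
  have q : M ≤ H F D ⊓ perp (bil φ 1) (H F a ⊓ perp (bil φ 1) M) :=
    le_inf h1 fun x hx f hf => (bil_symm _ _ _).trans (hf.2 x hx)
  refine (Submodule.eq_of_le_of_finrank_le q ?_).ge
  have e1 := rank_perp (bil φ 1) (bil_symm 1) M (H F a)
  have e2 := rank_perp (bil φ 1) (bil_symm 1) (H F a ⊓ perp (bil φ 1) M) (H F D)
  rw [h.perp_H rfl h1] at e1
  rw [h.perp_H (add_comm a D) inf_le_left] at e2
  have e3 := h.symm (rfl : D + a = D + a)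
  have := finI φ a
  have : FiniteDimensional F (M ⊓ Ann φ : Submodule F (R F)) := fin_of_le (inf_le_left.trans h1)
  have e4 : finrank F (H F a ⊓ perp (bil φ 1) M ⊓ Ann φ : Submodule F (R F)) ≤ di φ a :=
    Submodule.finrank_mono (inf_le_inf_right _ inf_le_left)
  have e5 : di φ D ≤ finrank F (M ⊓ Ann φ : Submodule F (R F)) :=
    Submodule.finrank_mono (le_inf h2 inf_le_right)
  rw [finrank_H] at e1 e2
  omega

/-- the elements that stay in `M` under the derivation -/
noncomputable def core (δ : R F →+ R F) (M : Submodule F (R F)) : Submodule F (R F) :=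
  Submodule.span F {x | ∀ n, δ^[n] x ∈ M}

theorem core_le (M : Submodule F (R F)) : core δ M ≤ M := Submodule.span_le.2 fun _ hx => hx 0

theorem le_core {M W : Submodule F (R F)} (h : W ≤ M) (hW : ∀ x ∈ W, δ x ∈ W) : W ≤ core δ M :=
  fun x hx => Submodule.subset_span fun n => h (by
    induction n with
    | zero => exact hx
    | succ n ih => rw [Function.iterate_succ_apply']; exact hW _ ih)

theorem core_st (hδ : Der φ δ 3 2) (M : Submodule F (R F)) : ∀ x ∈ core δ M, δ x ∈ core δ M :=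
  hδ.span fun _ hx => Submodule.subset_span fun n => hx (n + 1)

theorem comap0 {A : Type u} [CommRing A] [Algebra F A] (B : Submodule F A) (x : A) :
    B.comap (LinearMap.mulLeft F (x ^ 0)) = B := by
  ext
  simp

/-- the dimension of `b : w ^ k` -/
noncomputable def om (b : Submodule F (O F)) (k : ℕ) : ℕ := finrank F (Wk b k)

theorem core_ord [CharZero F] (hδ : Der φ δ 3 2) {N : Submodule F (R F)} (hN : ∀ x ∈ N, δ x ∈ N)
    {b : Submodule F (O F)} (hb : N ≤ b.comap (eps F).toLinearMap) (r j : ℕ) :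
    ∀ v, X 2 ^ r * (X 3 ^ j * v) ∈ N → eps F v ∈ Wk b (r + j) := by
  induction j with
  | zero =>
    intro v hv
    have := hb hv
    simpa [Wk] using this
  | succ j ih =>
    intro v hv
    have h1 := hN _ hv
    rw [hδ.mul, hδ.mul, hδ.mul.pow_zero' (hδ.mis 2 (by decide)), hδ.mul.pow, hδ.hit] at h1
    have h2 := ih (((j : F) + 1) • (X 2 * v) + X 3 * δ v) (by
      convert h1 using 1
      rw [smul_eq_C_mul]
      simp only [map_add, map_natCast, map_one]
      ring)
    have hj : ((j : F) + 1) ≠ 0 := by norm_cast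
    rw [map_add, map_mul, eps3, zero_mul, add_zero, map_smul, Submodule.smul_mem_iff _ hj] at h2
    simpa [Wk, ← add_assoc, pow_succ, mul_assoc] using h2

theorem core_dim [CharZero F] (hδ : Der φ δ 3 2) {N : Submodule F (R F)} (hN : ∀ x ∈ N, δ x ∈ N)
    {b : Submodule F (O F)} [FiniteDimensional F b] (hb : N ≤ b.comap (eps F).toLinearMap)
    (n r : ℕ) (hH : N ≤ H F (n + r)) :
    finrank F (N.comap (LinearMap.mulLeft F (X 2 ^ r))) ≤
      ∑ j ∈ Finset.range (n + 1), om b (r + j) := by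
  have := fin_of_le hH
  have := fin_comap N (pow_ne_zero r (X_ne_zero (R := F) (2 : Fin 4)))
  have := filt_sum (N.comap (LinearMap.mulLeft F (X 2 ^ r))) (X_ne_zero 3) (eps F).toLinearMap
    (fun g => by simp) (fun k f h1 h2 => ?_) (fun j => om b (r + j)) (fun k => ?_) 0
    (n + 1) fun f hf => H_cancel0 3 (H_cancel 2 (hH hf)) (by omega)
  · rw [comap0] at this
    simpa only [zero_add] using this
  · have h3 := H_cancel 2 (hH h1)
    rcases le_or_gt k n with c | c
    · exact eps_ker (H_cancel 3 ((Nat.sub_add_cancel c).symm ▸ h3)) h2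
    · rw [H_cancel0 3 h3 c]
      exact dvd_zero _
  · have : FiniteDimensional F (Wk b (r + k)) := fin_comap b (pow_ne_zero _ w_ne)
    refine Submodule.finrank_mono ?_
    rintro _ ⟨v, hv, rfl⟩
    exact core_ord hδ hN hb r k v hv

theorem pencil [CharZero F] (hδ : Der φ δ 3 2) {a g : ℕ} (hφ : Conc φ (a + (g + 1) + a))
    {JD Ja : Submodule F (R F)} (h1 : JD ≤ H F (a + (g + 1))) (h2 : I φ (a + (g + 1)) ≤ JD)
    (h3 : ∀ f ∈ JD, δ f ∈ JD) (h4 : ∀ f ∈ Ja, X 2 ^ (g + 1) * f ∈ JD)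
    {b : Submodule F (O F)} [FiniteDimensional F b] (hb : JD.map (eps F).toLinearMap ≤ b) :
    (a + (g + 1) + 3).choose 3 + di φ a + 2 * finrank F Ja ≤
      ∑ j ∈ Finset.range (a + (g + 1) + 1), om b j +
        2 * ∑ j ∈ Finset.range (a + 1), om b (g + 1 + j) +
          finrank F (Ja ⊓ perp (bil φ 1) JD : Submodule F (R F)) := by
  set D := a + (g + 1) with hD
  let M := H F D ⊓ b.comap (eps F).toLinearMap
  let N := core δ M
  let Na : Submodule F (R F) := N.comap (LinearMap.mulLeft F (X 2 ^ (g + 1)))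
  let Z0 := H F a ⊓ perp (bil φ 1) M
  let Z := Submodule.span F {x | ∃ n, ∃ z ∈ Z0, δ^[n] z = x}
  let Ω := H F a ⊓ perp (bil φ 1) JD
  have hM : JD ≤ M := le_inf h1 (Submodule.map_le_iff_le_comap.1 hb)
  have hJ : JD ≤ N := le_core hM h3
  have hNH : N ≤ H F D := (core_le M).trans inf_le_left
  have hNb : N ≤ b.comap (eps F).toLinearMap := (core_le M).trans inf_le_right
  have hX : ∀ x, δ (X 2 ^ (g + 1) * x) = X 2 ^ (g + 1) * δ x := fun x => by
    rw [hδ.mul, hδ.mul.pow_zero' (hδ.mis 2 (by decide)), zero_mul, zero_add]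
  have hX2 : ∀ x ∈ H F a, X 2 ^ (g + 1) * x ∈ H F D := fun x hx =>
    (show g + 1 + a = D by omega) ▸ H_mul (H_Xp 2 _) hx
  have n1 := core_dim hδ (core_st hδ M) hNb D 0 hNH
  have n2 := core_dim hδ (core_st hδ M) hNb a (g + 1) hNH
  rw [comap0] at n1
  simp only [zero_add] at n1
  have hZ : ∀ x ∈ Z, δ x ∈ Z := hδ.span (by
    rintro _ ⟨n, z, hz, rfl⟩
    exact Submodule.subset_span ⟨n + 1, z, hz, Function.iterate_succ_apply' _ _ _⟩)
  have it : ∀ n, ∀ z ∈ H F a, δ^[n] z ∈ H F a := fun n z hz => by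
    induction n with
    | zero => exact hz
    | succ n ih => rw [Function.iterate_succ_apply']; exact hδ.memH _ _ ih
  have hZH : Z ≤ H F a := Submodule.span_le.2 (by
    rintro _ ⟨n, z, hz, rfl⟩
    exact it n z hz.1)
  have rel : ∀ z ∈ Z0, ∀ n,
      X 3 * δ^[n + 1] z + ((n : R F) + 1) * (X 2 * δ^[n] z) ∈ I φ (a + 1) := by
    intro z hz n
    induction n with
    | zero =>
      have : X 3 * z ∈ I φ (a + 1) := ⟨H_Xmul 3 hz.1,
        hφ.ann' (j := a + g) (by omega) (H_Xmul 3 hz.1) fun t ht => by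
          have := hz.2 (X 3 * t) ⟨H_Xmul 3 ht, by simp⟩
          rw [bil_apply] at this
          rw [← this]
          congr 1
          ring⟩
      have := hδ.memI this
      rw [hδ.mul, hδ.hit] at this
      simpa [add_comm] using this
    | succ n ih =>
      have := hδ.memI ih
      rw [map_add, hδ.mul, ← Nat.cast_succ, ← nsmul_eq_mul, map_nsmul, hδ.mul, hδ.hit,
        hδ.mis 2 (by decide), ← Function.iterate_succ_apply' δ,
        ← Function.iterate_succ_apply' δ] at this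
      convert this using 1
      simp only [nsmul_eq_mul]
      push_cast
      ring
  have hZN : Z ≤ Na := by
    refine Submodule.map_le_iff_le_comap.1 (le_core (Submodule.map_le_iff_le_comap.2
      (Submodule.span_le.2 ?_)) ?_)
    · rintro _ ⟨n, z, hz, rfl⟩
      refine ⟨hX2 _ (it n z hz.1), ?_⟩
      have hn : ((n : F) + 1) ≠ 0 := by norm_cast
      have q : X 2 ^ g * (X 3 * δ^[n + 1] z + ((n : R F) + 1) * (X 2 * δ^[n] z)) ∈ I φ D :=
        ⟨(show g + (a + 1) = D by omega) ▸ H_mul (H_Xp 2 g) (rel z hz n).1, Ann_mul (rel z hz n).2 _⟩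
      have q' := (hM (h2 q)).2
      rw [show ((n : R F) + 1) = C ((n : F) + 1) by simp, C_mul'] at q'
      refine (Submodule.smul_mem_iff (b.comap (eps F).toLinearMap) hn).1 ?_
      simpa [pow_succ, mul_assoc] using q'
    · rintro _ ⟨x, hx, rfl⟩
      exact ⟨δ x, hZ x hx, (hX x).symm⟩
  have hP : H F D ⊓ perp (bil φ 1) Z ≤ N := by
    refine le_core (fun x hx => hφ.perp_perp inf_le_left (h2.trans hM) ⟨hx.1, fun f hf => ?_⟩)
      fun x hx => ⟨hδ.memH _ _ hx.1, fun f hf => ?_⟩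
    · exact hx.2 f (Submodule.subset_span ⟨0, f, hf, rfl⟩)
    · have e1 := hx.2 f hf
      have e2 := hx.2 _ (hZ f hf)
      rw [bil_apply, one_mul, mul_comm] at e1 e2 ⊢
      exact hδ.move e1 e2
  have := fin_of_le hNH
  have := fin_of_le hZH
  have := fin_of_le h1
  have := finH F a
  have : FiniteDimensional F Ω := fin_of_le inf_le_left
  have : FiniteDimensional F Na := fin_comap N (pow_ne_zero _ (X_ne_zero 2))
  have hJa : Ja ≤ Na := fun f hf => hJ (h4 f hf)
  have c1 := rank_cut Ω Ja Na hJa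
  have c2 := rank_cut Z Ja Na hJa
  rw [inf_eq_left.2 hZN] at c2
  have c3 := rank_perp (bil φ (X 2 ^ (g + 1))) (bil_symm _) Z Ω
  have c4 : finrank F (Ω ⊓ perp (bil φ (X 2 ^ (g + 1))) Z : Submodule F (R F)) ≤
      finrank F (Ω ⊓ Na : Submodule F (R F)) := by
    have : FiniteDimensional F (Ω ⊓ Na : Submodule F (R F)) :=
      Submodule.finiteDimensional_of_le inf_le_left
    refine Submodule.finrank_mono fun x hx => ⟨hx.1, hP ⟨hX2 _ hx.1.1, fun f hf => ?_⟩⟩
    have := hx.2 f hf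
    rw [bil_apply] at this ⊢
    rw [← this]
    exact congrArg φ (by simp only [LinearMap.mulLeft_apply]; ring)
  have c5 : finrank F (Z ⊓ Ja : Submodule F (R F)) ≤
      finrank F (Z ⊓ perp (bil φ (X 2 ^ (g + 1))) Ω : Submodule F (R F)) := by
    have : FiniteDimensional F (Z ⊓ perp (bil φ (X 2 ^ (g + 1))) Ω : Submodule F (R F)) :=
      Submodule.finiteDimensional_of_le inf_le_left
    refine Submodule.finrank_mono fun x hx => ⟨hx.1, fun f hf => ?_⟩
    have := hf.2 _ (h4 x hx.2)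
    rw [bil_apply] at this ⊢
    rw [← this]
    exact congrArg φ (by ring)
  have c6 := rank_perp (bil φ 1) (bil_symm 1) JD (H F a)
  rw [hφ.perp_H rfl h1, finrank_H] at c6
  have c7 := hφ.symm (rfl : D + a = D + a)
  have : FiniteDimensional F (JD ⊓ Ann φ : Submodule F (R F)) := fin_of_le (inf_le_left.trans h1)
  have c8 : di φ D ≤ finrank F (JD ⊓ Ann φ : Submodule F (R F)) :=
    Submodule.finrank_mono (le_inf h2 inf_le_right)
  have c9 : finrank F JD ≤ finrank F N := Submodule.finrank_mono hJ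
  have : FiniteDimensional F Ja := Submodule.finiteDimensional_of_le hJa
  have : FiniteDimensional F (Ja ⊓ perp (bil φ 1) JD : Submodule F (R F)) :=
    Submodule.finiteDimensional_of_le inf_le_left
  have c0 : finrank F (Ω ⊓ Ja : Submodule F (R F)) ≤
      finrank F (Ja ⊓ perp (bil φ 1) JD : Submodule F (R F)) :=
    Submodule.finrank_mono fun x hx => ⟨hx.2, hx.1.2⟩
  change finrank F Na ≤ _ at n2
  change finrank F N ≤ _ at n1
  change _ + finrank F Ω = _ at c6
  omega

end Pool.Agent.MP_708e57_al.c4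

end MrgPart2

-- ======== part 3: formerly Pool.Agent.MP_708e57_al.c4.LemL
section MrgPart3

/-! Codimension four: the ranks of the powers of `y3` on the kernel of `y4`. -/

set_option autoImplicit false

namespace Pool.Agent.MP_708e57_al.c4

open Module MvPolynomial

universe u

variable {F : Type u} [Field F] {φ : R F →ₗ[F] F} {δ : R F →+ R F}

/-- the forms of degree `a` that `y4` moves into `J` -/
noncomputable def KK (J : Submodule F (R F)) (a : ℕ) : Submodule F (R F) :=
  H F a ⊓ J.comap (LinearMap.mulLeft F (X 3))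

/-- those that `y3 ^ i` also moves into `J` -/
noncomputable def NN (J : Submodule F (R F)) (a i : ℕ) : Submodule F (R F) :=
  KK J a ⊓ J.comap (LinearMap.mulLeft F (X 2 ^ i))

theorem finKK (J : Submodule F (R F)) (a : ℕ) : FiniteDimensional F (KK J a) :=
  fin_of_le inf_le_left

theorem finNN (J : Submodule F (R F)) (a i : ℕ) : FiniteDimensional F (NN J a i) :=
  fin_of_le (inf_le_left.trans inf_le_left)

theorem Der.iter (hδ : Der φ δ 3 2) {a : ℕ} (n : ℕ) {z : R F} (hz : z ∈ H F a) :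
    δ^[n] z ∈ H F a := by
  induction n with
  | zero => exact hz
  | succ n ih => rw [Function.iterate_succ_apply']; exact hδ.memH _ _ ih

theorem relA (hδ : Der φ δ 3 2) {J : Submodule F (R F)} (hd : ∀ f ∈ J, δ f ∈ J) {z : R F}
    (hz : X 3 * z ∈ J) (n : ℕ) :
    X 3 * δ^[n + 1] z + ((n : F) + 1) • (X 2 * δ^[n] z) ∈ J := by
  have e : ∀ (n : ℕ) (x : R F), ((n : F) + 1) • x = (n + 1) • x := fun n x => by
    rw [← Nat.cast_succ, Nat.cast_smul_eq_nsmul]
  rw [e]
  induction n with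
  | zero =>
    have := hd _ hz
    rw [hδ.mul, hδ.hit] at this
    simpa [add_comm] using this
  | succ n ih =>
    have := hd _ ih
    rw [map_add, hδ.mul, map_nsmul, hδ.mul, hδ.hit, hδ.mis 2 (by decide),
      ← Function.iterate_succ_apply' δ, ← Function.iterate_succ_apply' δ] at this
    convert this using 1
    simp only [nsmul_eq_mul]
    push_cast
    ring

theorem relB [CharZero F] (hδ : Der φ δ 3 2) {J : Submodule F (R F)}
    (hm : ∀ g, ∀ f ∈ J, g * f ∈ J) (hd : ∀ f ∈ J, δ f ∈ J) (p : ℕ) :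
    ∃ c : F, c ≠ 0 ∧ ∀ z, X 3 * z ∈ J → X 3 ^ p * δ^[p] z - c • (X 2 ^ p * z) ∈ J := by
  induction p with
  | zero => exact ⟨1, one_ne_zero, fun z _ => by simp⟩
  | succ p ih =>
    obtain ⟨c, hc, h⟩ := ih
    have hp : ((p : F) + 1) ≠ 0 := by norm_cast
    refine ⟨-(((p : F) + 1) * c), neg_ne_zero.2 (mul_ne_zero hp hc), fun z hz => ?_⟩
    have h1 := hm (X 3 ^ p) _ (relA hδ hd hz p)
    have h2 := J.smul_mem ((p : F) + 1) (hm (X 2) _ (h z hz))
    convert sub_mem h1 h2 using 1
    simp only [smul_eq_C_mul, map_neg, map_mul]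
    ring

theorem relC [CharZero F] (hδ : Der φ δ 3 2) {J : Submodule F (R F)}
    (hm : ∀ g, ∀ f ∈ J, g * f ∈ J) (hd : ∀ f ∈ J, δ f ∈ J) {p i : ℕ} (h : p < i) {z : R F}
    (hz : X 3 * z ∈ J) : X 3 ^ i * δ^[p] z ∈ J := by
  obtain ⟨c, -, hc⟩ := relB hδ hm hd p
  obtain ⟨t, rfl⟩ := Nat.exists_eq_add_of_lt h
  have h1 := hm (X 3 ^ (t + 1)) _ (hc z hz)
  have h2 := J.smul_mem c (hm (X 3 ^ t * X 2 ^ p) _ hz)
  convert add_mem h1 h2 using 1
  simp only [smul_eq_C_mul]
  ring

theorem rank_mod (W J : Submodule F (R F)) [FiniteDimensional F W] (x : R F) :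
    finrank F W = finrank F (W.map (J.mkQ ∘ₗ LinearMap.mulLeft F x)) +
      finrank F (W ⊓ J.comap (LinearMap.mulLeft F x) : Submodule F (R F)) := by
  rw [rank_map W (J.mkQ ∘ₗ LinearMap.mulLeft F x), LinearMap.ker_comp, Submodule.ker_mkQ]

theorem lemL [CharZero F] (hδ : Der φ δ 3 2) {J : Submodule F (R F)}
    (hm : ∀ g, ∀ f ∈ J, g * f ∈ J) (hd : ∀ f ∈ J, δ f ∈ J) (a : ℕ)
    {b : Submodule F (O F)} [FiniteDimensional F b]
    (hb : (H F (a + 1) ⊓ J).map (eps F).toLinearMap ≤ b) (r : ℕ) :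
    r * finrank F (KK J a) + finrank F (H F a ⊓ J : Submodule F (R F)) ≤
      ∑ i ∈ Finset.range r, finrank F (NN J a i) + ∑ j ∈ Finset.range (a + 1), om b (1 + j) := by
  let Z : ℕ → Submodule F (R F) := fun i =>
    (H F a ⊓ J) ⊔ Submodule.span F {x | ∃ p < i, ∃ z ∈ KK J a, δ^[p] z = x}
  let Y := Submodule.span F {x | ∃ p, ∃ z ∈ KK J a, δ^[p] z = x}
  let M := H F (a + 1) ⊓ b.comap (eps F).toLinearMap
  let N := core δ M
  have hNH : N ≤ H F (a + 1) := (core_le M).trans inf_le_left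
  have hNb : N ≤ b.comap (eps F).toLinearMap := (core_le M).trans inf_le_right
  have n1 := core_dim hδ (core_st hδ M) hNb a 1 hNH
  have hY : ∀ x ∈ Y, δ x ∈ Y := hδ.span (by
    rintro _ ⟨n, z, hz, rfl⟩
    exact Submodule.subset_span ⟨n + 1, z, hz, Function.iterate_succ_apply' _ _ _⟩)
  have hYN : Y ≤ N.comap (LinearMap.mulLeft F (X 2 ^ 1)) := by
    refine Submodule.map_le_iff_le_comap.1 (le_core (Submodule.map_le_iff_le_comap.2
      (Submodule.span_le.2 ?_)) ?_)
    · rintro _ ⟨n, z, hz, rfl⟩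
      have q0 : X 2 * δ^[n] z ∈ H F (a + 1) := H_Xmul 2 (hδ.iter n hz.1)
      refine ⟨by simpa using q0, ?_⟩
      have hn : ((n : F) + 1) ≠ 0 := by norm_cast
      have q := hb ⟨_, ⟨add_mem (H_Xmul 3 (hδ.iter (n + 1) hz.1)) (Submodule.smul_mem _ _ q0),
        relA hδ hd hz.2 n⟩, rfl⟩
      refine (Submodule.smul_mem_iff (b.comap (eps F).toLinearMap) hn).1 ?_
      simpa using q
    · rintro _ ⟨x, hx, rfl⟩
      refine ⟨δ x, hY x hx, ?_⟩
      rw [LinearMap.mulLeft_apply, LinearMap.mulLeft_apply, hδ.mul,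
        hδ.mul.pow_zero' (hδ.mis 2 (by decide)), zero_mul, zero_add]
  have hZY : ∀ i, Z i ≤ Y := fun i => sup_le
    (fun x hx => Submodule.subset_span ⟨0, x, ⟨hx.1, hm _ _ hx.2⟩, rfl⟩)
    (Submodule.span_mono fun _ ⟨p, _, h⟩ => ⟨p, h⟩)
  have := fin_of_le hNH
  have : FiniteDimensional F (N.comap (LinearMap.mulLeft F (X 2 ^ 1))) :=
    fin_comap N (pow_ne_zero _ (X_ne_zero 2))
  have fZ : ∀ i, FiniteDimensional F (Z i) := fun i =>
    Submodule.finiteDimensional_of_le ((hZY i).trans hYN)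
  have := finKK J a
  have step : ∀ i, finrank F (Z i) + finrank F (KK J a) ≤
      finrank F (Z (i + 1)) + finrank F (NN J a i) := by
    intro i
    have := fZ (i + 1)
    have e1 := rank_mod (Z (i + 1)) J (X 3 ^ i)
    have e2 := rank_mod (KK J a) J (X 2 ^ i)
    have : FiniteDimensional F (Z (i + 1) ⊓ J.comap (LinearMap.mulLeft F (X 3 ^ i)) :
      Submodule F (R F)) := Submodule.finiteDimensional_of_le inf_le_left
    have e3 : finrank F (Z i) ≤ finrank F (Z (i + 1) ⊓ J.comap (LinearMap.mulLeft F (X 3 ^ i)) :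
        Submodule F (R F)) := by
      have up : Z i ≤ Z (i + 1) := by
        refine sup_le_sup_left (Submodule.span_mono ?_) _
        rintro _ ⟨p, hp, h⟩
        exact ⟨p, by omega, h⟩
      refine Submodule.finrank_mono (le_inf up (sup_le (fun x hx => hm _ _ hx.2)
          (Submodule.span_le.2 ?_)))
      rintro _ ⟨p, hp, z, hz, rfl⟩
      exact relC hδ hm hd hp hz.2
    have e4 : finrank F ((KK J a).map (J.mkQ ∘ₗ LinearMap.mulLeft F (X 2 ^ i))) ≤
        finrank F ((Z (i + 1)).map (J.mkQ ∘ₗ LinearMap.mulLeft F (X 3 ^ i))) := by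
      refine Submodule.finrank_mono ?_
      rintro _ ⟨z, hz, rfl⟩
      obtain ⟨c, hc, h⟩ := relB hδ hm hd i
      refine (Submodule.smul_mem_iff _ hc).1 (Submodule.mem_map.2 ⟨δ^[i] z, Submodule.mem_sup_right
        (Submodule.subset_span ⟨i, by omega, z, hz, rfl⟩), ?_⟩)
      rw [← map_smul]
      refine (Submodule.Quotient.eq J).2 ?_
      simpa using h z hz.2
    change _ = _ + finrank F (NN J a i) at e2
    omega
  have all : ∀ i, i * finrank F (KK J a) + finrank F (H F a ⊓ J : Submodule F (R F)) ≤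
      ∑ i ∈ Finset.range i, finrank F (NN J a i) + finrank F (Z i) := by
    intro i
    induction i with
    | zero =>
      have := fZ 0
      have : finrank F (H F a ⊓ J : Submodule F (R F)) ≤ finrank F (Z 0) :=
        Submodule.finrank_mono le_sup_left
      simpa using this
    | succ i ih =>
      have := step i
      rw [Finset.sum_range_succ, add_mul]
      omega
  have := all r
  have := (Submodule.finrank_mono ((hZY r).trans hYN)).trans n1
  omega

end Pool.Agent.MP_708e57_al.c4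

end MrgPart3

-- ======== part 4: formerly Pool.Agent.MP_708e57_al.c4.Trans
section MrgPart4

/-! Codimension four: duality for the kernel of `y4`, and the transfer through `I : P`. -/

set_option autoImplicit false

namespace Pool.Agent.MP_708e57_al.c4

open Module MvPolynomial

universe u

variable {F : Type u} [Field F] {φ : R F →ₗ[F] F} {δ : R F →+ R F}

theorem Conc.dual {D a : ℕ} (h : Conc φ (D + a)) {f : R F} (hf : f ∈ H F D)
    (hz : ∀ z ∈ KK (Ann φ) a, φ (f * z) = 0) : eps F f ∈ sec φ D := by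
  refine (h.perp_perp (M := H F D ⊓ (sec φ D).comap (eps F).toLinearMap) inf_le_left
    (fun x hx => ⟨hx.1, x, hx, rfl⟩) ⟨hf, fun z hq => ?_⟩).2
  rw [bil_apply, one_mul, mul_comm]
  refine hz z ⟨hq.1, h.ann (H_Xmul 3 hq.1) fun j e g hg => ?_⟩
  have := hq.2 (X 3 * g) ⟨(show j + 1 = D by omega) ▸ H_Xmul 3 hg, by simp⟩
  rw [bil_apply] at this
  rw [← this]
  exact congrArg φ (by simp only [LinearMap.mulLeft_apply]; ring)

theorem map_eps (n : ℕ) : (H F n).map (eps F).toLinearMap = L F n :=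
  le_antisymm (Submodule.map_le_iff_le_comap.2 fun f hf => eps_L n f hf) fun _ hx => L_lift hx

theorem Conc.nu {c i a : ℕ} (h : Conc φ (i + c + a)) :
    finrank F (NN (Ann φ) a i) + finrank F (L F c) ≤
      finrank F (KK (Ann φ) a) + om (sec φ (i + c)) i := by
  have := finKK (Ann φ) a
  have := finH F c
  have := fin_sec φ (i + c)
  have : FiniteDimensional F (Wk (sec φ (i + c)) i) := fin_comap _ (pow_ne_zero _ w_ne)
  let A : Submodule F (R F) := H F c ⊓ perp (bil φ (X 2 ^ i)) (KK (Ann φ) a)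
  have : FiniteDimensional F A := fin_of_le inf_le_left
  have e1 := rank_perp (bil φ (X 2 ^ i)) (bil_symm _) (KK (Ann φ) a) (H F c)
  have e2 := rank_map A (eps F).toLinearMap
  have e3 := rank_map (H F c) (eps F).toLinearMap
  rw [map_eps] at e3
  have : FiniteDimensional F (H F c ⊓ LinearMap.ker (eps F).toLinearMap : Submodule F (R F)) :=
    fin_of_le inf_le_left
  have e4 : finrank F (A ⊓ LinearMap.ker (eps F).toLinearMap : Submodule F (R F)) ≤
      finrank F (H F c ⊓ LinearMap.ker (eps F).toLinearMap : Submodule F (R F)) :=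
    Submodule.finrank_mono (inf_le_inf_right _ inf_le_left)
  have e5 : finrank F (A.map (eps F).toLinearMap) ≤ om (sec φ (i + c)) i := by
    refine Submodule.finrank_mono ?_
    rintro _ ⟨f, hf, rfl⟩
    have := h.dual (H_mul (H_Xp 2 i) hf.1) fun z hz => by
      have := hf.2 z hz
      rw [bil_apply] at this
      rw [← this]
      exact congrArg φ (by ring)
    simpa [Wk] using this
  have : FiniteDimensional F (KK (Ann φ) a ⊓ perp (bil φ (X 2 ^ i)) (H F c) :
    Submodule F (R F)) := Submodule.finiteDimensional_of_le inf_le_left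
  have e6 : finrank F (NN (Ann φ) a i) ≤ finrank F (KK (Ann φ) a ⊓ perp (bil φ (X 2 ^ i)) (H F c) :
      Submodule F (R F)) := by
    refine Submodule.finrank_mono fun z hz => ⟨hz.1, fun g _ => ?_⟩
    have := hz.2 g
    rw [bil_apply, ← this]
    exact congrArg φ (by simp only [LinearMap.mulLeft_apply]; ring)
  change _ + finrank F A = _ at e1
  omega

/-- the inequality PL of the note -/
theorem pl [CharZero F] (hδ : Der φ δ 3 2) {D a : ℕ} (h : Conc φ (D + a)) :
    ∑ i ∈ Finset.range (D + 1), finrank F (L F (D - i)) + di φ a ≤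
      ∑ i ∈ Finset.range (D + 1), om (sec φ D) i +
        ∑ j ∈ Finset.range (a + 1), om (sec φ (a + 1)) (1 + j) := by
  have := fin_sec φ (a + 1)
  have e1 := lemL hδ (J := Ann φ) (fun g f hf => Ann_mul hf g)
    (fun f hf g => hδ.move (hf g) (hf _)) a (b := sec φ (a + 1)) le_rfl (D + 1)
  have e2 : ∑ i ∈ Finset.range (D + 1), (finrank F (NN (Ann φ) a i) + finrank F (L F (D - i))) ≤
      ∑ i ∈ Finset.range (D + 1), (finrank F (KK (Ann φ) a) + om (sec φ D) i) := by
    refine Finset.sum_le_sum fun i hi => ?_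
    have e : i + (D - i) = D := by have := Finset.mem_range.1 hi; omega
    have := Conc.nu (φ := φ) (c := D - i) (i := i) (a := a) (e.symm ▸ h)
    rwa [e] at this
  rw [Finset.sum_add_distrib, Finset.sum_add_distrib, Finset.sum_const, Finset.card_range,
    smul_eq_mul] at e2
  change _ + di φ a ≤ _ at e1
  omega

/-- the ideal `I + (P)` -/
noncomputable def JP (φ : R F →ₗ[F] F) (P : R F) : Submodule F (R F) :=
  Ann φ ⊔ LinearMap.range (LinearMap.mulLeft F P)

theorem mem_JP {P f : R F} : f ∈ JP φ P ↔ ∃ g, f - P * g ∈ Ann φ := by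
  constructor
  · intro h
    obtain ⟨x, hx, _, ⟨g, rfl⟩, rfl⟩ := Submodule.mem_sup.1 h
    exact ⟨g, by simpa using hx⟩
  · rintro ⟨g, hg⟩
    exact Submodule.mem_sup.2 ⟨_, hg, _, ⟨g, rfl⟩, by simp⟩

theorem JP_mul (P g f : R F) (hf : f ∈ JP φ P) : g * f ∈ JP φ P := by
  obtain ⟨t, ht⟩ := mem_JP.1 hf
  exact mem_JP.2 ⟨g * t, by convert Ann_mul ht g using 1; ring⟩

theorem JP_der {a b : Fin 4} (hδ : Der φ δ a b) {P : R F} (h0 : δ P = 0) (f : R F)
    (hf : f ∈ JP φ P) : δ f ∈ JP φ P := by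
  obtain ⟨t, ht⟩ := mem_JP.1 hf
  refine mem_JP.2 ⟨δ t, ?_⟩
  have : δ (f - P * t) ∈ Ann φ := fun g => hδ.move (ht g) (ht _)
  rwa [map_sub, hδ.mul, h0, zero_mul, zero_add] at this

theorem Conc.JP_sec {d s e : ℕ} (h : Conc φ d) {P : R F} (hP : P ∈ H F s) :
    (H F (s + e) ⊓ JP φ P).map (eps F).toLinearMap ≤ plus (sec φ (s + e)) (eps F P) e := by
  rintro _ ⟨f, ⟨hf, hJ⟩, rfl⟩
  obtain ⟨g, hg⟩ := mem_JP.1 hJ
  have hc := homogeneousComponent_mem e g
  have h1 : f - P * homogeneousComponent e g ∈ H F (s + e) := sub_mem hf (H_mul hP hc)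
  have h2 : f - P * homogeneousComponent e g ∈ Ann φ := h.ann h1 fun j hj t ht => by
    have key : ∀ n, n ≠ e → φ (P * homogeneousComponent n g * t) = 0 := fun n hn =>
      h (s + n + j) (by omega) _ (H_mul (H_mul hP (homogeneousComponent_mem n g)) ht)
    have : φ (P * g * t) = φ (P * homogeneousComponent e g * t) := by
      conv_lhs => rw [← sum_homogeneousComponent g, Finset.mul_sum, Finset.sum_mul, map_sum]
      refine Finset.sum_eq_single e (fun n _ hn => key n hn) fun hn => ?_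
      rw [homogeneousComponent_eq_zero _ _ (by simpa using hn), mul_zero, zero_mul, map_zero]
    rw [sub_mul, map_sub, ← this, ← map_sub, ← sub_mul]
    exact hg t
  exact Submodule.mem_sup.2 ⟨_, ⟨_, ⟨h1, h2⟩, rfl⟩, _, ⟨_, eps_L e _ hc, rfl⟩, by simp⟩

/-- the transfer: `b : P0` in degree `e` against the part of `b_D` of order `G` -/
theorem transfer {s e a G j : ℕ} (h : Conc φ (G + e + a)) {P : R F} (hP : P ∈ H F s)
    (ha : s + e = a + 1) (hj : 2 * j ≤ G) :
    finrank F (L F e ⊓ (sec φ (a + 1)).comap (LinearMap.mulLeft F (eps F P)) :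
        Submodule F (O F)) + finrank F (NN (JP φ P) a j) ≤
      finrank F (L F e ⊓ (sec φ (a + 1)).comap (LinearMap.mulLeft F (eps F P)) ⊓
        Wk (sec φ (G + e)) G : Submodule F (O F)) + finrank F (KK (JP φ P) a) := by
  set bs : Submodule F (O F) := L F e ⊓ (sec φ (a + 1)).comap (LinearMap.mulLeft F (eps F P))
  set N := NN (JP φ P) a j
  set K := KK (JP φ P) a
  let K0 := KK (Ann φ) a
  let Q : Submodule F (R F × R F) := (H F e).prod (H F a) ⊓
    (Ann φ).comap ((LinearMap.mulLeft F P).coprod (LinearMap.mulLeft F (-X 3)))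
  have mQ : ∀ x : R F × R F, x ∈ Q ↔ (x.1 ∈ H F e ∧ x.2 ∈ H F a) ∧ P * x.1 - X 3 * x.2 ∈ Ann φ :=
    fun x => by simp [Q, Submodule.mem_prod, sub_eq_add_neg]
  let π := N.mkQ ∘ₗ LinearMap.snd F (R F) (R F)
  let p1 := LinearMap.fst F (R F) (R F)
  let Q1 : Submodule F (R F × R F) := Q ⊓ LinearMap.ker π
  let U : Submodule F (R F) := Q1.map p1 ⊓ perp (bil φ (X 2 ^ G)) K0
  have f1 := finH F e
  have f2 := finH F a
  have := finKK (JP φ P) a
  have := finKK (Ann φ) a
  have : FiniteDimensional F ((H F e).prod (H F a)) :=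
    Module.Finite.iff_fg.2 ((Module.Finite.iff_fg.1 f1).prod (Module.Finite.iff_fg.1 f2))
  have : FiniteDimensional F Q := Submodule.finiteDimensional_of_le inf_le_left
  have : FiniteDimensional F Q1 := Submodule.finiteDimensional_of_le inf_le_left
  have : FiniteDimensional F U := Submodule.finiteDimensional_of_le inf_le_left
  have hQK : ∀ x ∈ Q, x.2 ∈ K := fun x hx => ⟨((mQ x).1 hx).1.2, mem_JP.2 ⟨x.1, by
    have := neg_mem ((mQ x).1 hx).2
    rwa [neg_sub] at this⟩⟩
  have e1 := rank_map Q π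
  have e2 := rank_map K N.mkQ
  rw [Submodule.ker_mkQ, inf_eq_right.2 (show N ≤ K from inf_le_left)] at e2
  have e3 : finrank F (Q.map π) ≤ finrank F (K.map N.mkQ) := by
    refine Submodule.finrank_mono ?_
    rintro _ ⟨x, hx, rfl⟩
    exact ⟨x.2, hQK x hx, rfl⟩
  have e4 := rank_map Q p1
  have e5 := rank_map Q1 p1
  have inj : Function.Injective (LinearMap.inr F (R F) (R F)) := LinearMap.inr_injective
  have : FiniteDimensional F (Q ⊓ LinearMap.ker p1 : Submodule F (R F × R F)) :=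
    Submodule.finiteDimensional_of_le inf_le_left
  have e6 : finrank F K0 ≤ finrank F (Q ⊓ LinearMap.ker p1 : Submodule F (R F × R F)) := by
    rw [← rank_inj K0 inj]
    refine Submodule.finrank_mono ?_
    rintro _ ⟨z, hz, rfl⟩
    exact ⟨(mQ _).2 ⟨⟨zero_mem _, hz.1⟩, by simpa using hz.2⟩, rfl⟩
  have : FiniteDimensional F (K0 ⊓ N : Submodule F (R F)) :=
    Submodule.finiteDimensional_of_le inf_le_left
  have e7 : finrank F (Q1 ⊓ LinearMap.ker p1 : Submodule F (R F × R F)) ≤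
      finrank F (K0 ⊓ N : Submodule F (R F)) := by
    rw [← rank_inj (K0 ⊓ N) inj]
    refine Submodule.finrank_mono ?_
    rintro ⟨f, z⟩ ⟨⟨h1, h2⟩, h3⟩
    obtain rfl : f = 0 := h3
    exact ⟨z, ⟨⟨((mQ _).1 h1).1.2, by simpa using ((mQ _).1 h1).2⟩,
      (Submodule.Quotient.mk_eq_zero N).1 h2⟩, rfl⟩
  have e8 := rank_perp (bil φ (X 2 ^ G)) (bil_symm _) (Q1.map p1) K0
  have : FiniteDimensional F (K0 ⊓ perp (bil φ (X 2 ^ G)) (Q1.map p1) : Submodule F (R F)) :=
    Submodule.finiteDimensional_of_le inf_le_left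
  have e9 : finrank F (K0 ⊓ N : Submodule F (R F)) ≤
      finrank F (K0 ⊓ perp (bil φ (X 2 ^ G)) (Q1.map p1) : Submodule F (R F)) := by
    refine Submodule.finrank_mono fun z0 hz0 => ⟨hz0.1, ?_⟩
    rintro _ ⟨⟨f, z⟩, ⟨h1, h2⟩, rfl⟩
    obtain ⟨f', hf'⟩ := mem_JP.1 ((Submodule.Quotient.mk_eq_zero N).1 h2).2
    obtain ⟨g, hg⟩ := mem_JP.1 hz0.2.2
    obtain ⟨c, rfl⟩ := Nat.exists_eq_add_of_le hj
    have a1 := ((mQ _).1 h1).2 (X 2 ^ c * X 2 ^ j * g)
    have a2 := hf' (X 2 ^ c * X 3 * g)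
    have a3 := hg (X 2 ^ c * (X 2 ^ j * f - X 3 * f'))
    have a4 := hz0.1.2 (X 2 ^ c * X 2 ^ j * f')
    have := congrArg₂ (· + ·) (congrArg₂ (· + ·) a1 a2) (congrArg₂ (· + ·) a3 a4)
    simp only [← map_add, add_zero] at this
    rw [bil_apply, ← this]
    exact congrArg φ (by 
      simp only [LinearMap.mulLeft_apply, p1, LinearMap.fst_apply, LinearMap.snd_apply]
      ring)
  have hB : (Q.map p1).map (eps F).toLinearMap = bs := by
    refine le_antisymm ?_ fun x hx => ?_
    · rintro _ ⟨_, ⟨x, hx, rfl⟩, rfl⟩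
      obtain ⟨⟨h1, h2⟩, h3⟩ := (mQ x).1 hx
      exact ⟨eps_L e _ h1, _, ⟨sub_mem (ha ▸ H_mul hP h1) (H_Xmul 3 h2), h3⟩, by simp [p1]⟩
    · obtain ⟨f, hf, rfl⟩ := L_lift hx.1
      obtain ⟨y, hy, ey⟩ := hx.2
      obtain ⟨z, hz, ez⟩ := eps_ker' (sub_mem (ha ▸ H_mul hP hf) hy.1) (by
        rw [map_sub, map_mul, sub_eq_zero]; exact ey.symm)
      exact ⟨f, ⟨(f, z), (mQ _).2 ⟨⟨hf, hz⟩, by rw [← ez]; simpa using hy.2⟩, rfl⟩, rfl⟩
  have hU : U ≤ Q.map p1 := inf_le_left.trans (Submodule.map_mono inf_le_left)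
  have g1 := rank_map (Q.map p1) (eps F).toLinearMap
  have g2 := rank_map U (eps F).toLinearMap
  have : FiniteDimensional F (Q.map p1 ⊓ LinearMap.ker (eps F).toLinearMap : Submodule F (R F)) :=
    Submodule.finiteDimensional_of_le inf_le_left
  have g3 : finrank F (U ⊓ LinearMap.ker (eps F).toLinearMap : Submodule F (R F)) ≤
      finrank F (Q.map p1 ⊓ LinearMap.ker (eps F).toLinearMap : Submodule F (R F)) :=
    Submodule.finrank_mono (inf_le_inf_right _ hU)
  have : FiniteDimensional F bs := hB ▸ Module.Finite.map _ _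
  have : FiniteDimensional F (bs ⊓ Wk (sec φ (G + e)) G : Submodule F (O F)) :=
    Submodule.finiteDimensional_of_le inf_le_left
  have g4 : finrank F (U.map (eps F).toLinearMap) ≤
      finrank F (bs ⊓ Wk (sec φ (G + e)) G : Submodule F (O F)) := by
    refine Submodule.finrank_mono (le_inf (hB ▸ Submodule.map_mono hU) ?_)
    rintro _ ⟨f, hf, rfl⟩
    obtain ⟨x, hx, rfl⟩ := hU hf
    have := h.dual (H_mul (H_Xp 2 G) ((mQ x).1 hx).1.1) fun z hz => by
      have := hf.2 z hz
      rw [bil_apply] at this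
      rw [← this]
      exact congrArg φ (by simp only [p1, LinearMap.fst_apply]; ring)
    simpa [Wk, p1] using this
  rw [hB] at g1
  change _ = _ + finrank F Q1 at e1
  change _ = _ + finrank F U at e8
  omega

end Pool.Agent.MP_708e57_al.c4

end MrgPart4

-- ======== part 5: formerly Pool.Agent.MP_708e57_al.c4.Surf
section MrgPart5

/-! Codimension four: the plane curve of a plateau lifts to a surface killed by `D43`. -/

set_option autoImplicit false

namespace Pool.Agent.MP_708e57_al.c4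

open Module MvPolynomial

universe u

variable {F : Type u} [Field F] {φ : R F →ₗ[F] F} {D D1 D3 : R F →+ R F}

theorem Der.ev {b : Fin 4} (h : Der φ D 3 b) (hb : b ≠ 1) (f : R F) :
    ev F (D f) = c4.onC D (ev F f) := by
  have hC : ∀ c, c4.ev F (C c) = c := fun c => by simp [c4.ev]
  have hm : ∀ x y, c4.onC D (x * y) = c4.onC D x * y + x * c4.onC D y := fun x y => by
    apply C_injective (Fin 4) F
    rw [← h.onC, map_mul, h.mul, h.onC, h.onC, map_add, map_mul, map_mul]
  have h1 : c4.onC D 1 = 0 := by simp [c4.onC, h.mul.one]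
  induction f using MvPolynomial.induction_on with
  | C c => rw [h.onC, hC, hC]
  | add f g hf hg => rw [map_add, map_add, map_add, hf, hg, onC_add]
  | mul_X f a hf =>
    rw [h.mul, map_add, map_mul, map_mul, map_mul, hm, hf]
    congr 2
    by_cases c : a = 3
    · rw [c, h.hit]
      fin_cases b <;> simp_all [c4.ev, onC_zero]
    · rw [h.mis a c]
      fin_cases a <;> simp [c4.ev, onC_zero, h1]

theorem Der.top {b : Fin 4} (h : Der φ D 3 b) (hb : b ≠ 1) {s : ℕ} {P : R F} (hP : P ∈ H F s)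
    (h1 : (eps F P).coeff s = 1) : (eps F (D P)).degree < s := by
  have e := (eps_top s P hP).2
  have e' := eps_top s _ (h.memH s P hP)
  rw [h1, ← map_one Polynomial.C, Polynomial.C_inj] at e
  rw [h.ev hb, ← e, show c4.onC D 1 = 0 by simp [c4.onC, h.mul.one], map_zero] at e'
  rw [Polynomial.degree_lt_iff_coeff_zero]
  intro m hm
  rcases hm.eq_or_lt with q | q
  · exact q ▸ e'.2
  · exact Polynomial.coeff_eq_zero_of_natDegree_lt (e'.1.trans_lt q)

theorem theta (h1 : Der φ D1 3 0) (h3 : Der φ D3 3 2) {E k s m : ℕ} {P0 G0 : O F}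
    (hc : Curve (sec φ (E + 1)) (sec φ E) (E + 1) k s m P0 G0) {P : R F} (hP : P ∈ H F s)
    (e : eps F P = P0) : eps F (D3 P) = Polynomial.C Polynomial.X * eps F (D1 P) := by
  obtain ⟨hn, -⟩ := hc.num
  obtain ⟨hG0, β, hβ, eβ⟩ := hc.g0
  obtain ⟨G, hG, rfl⟩ := L_lift hG0
  subst e
  change eps F β = _ at eβ
  have hx : X 2 ^ k * (P * G) ∈ H F E :=
    (show k + (s + m) = E by omega) ▸ H_mul (H_Xp 2 k) (H_mul hP hG)
  obtain ⟨t, ht⟩ := eps_ker (sub_mem hβ.1 hx) (by simp [eβ])
  have hd : eps F P ∣ Polynomial.C Polynomial.X * eps F (D1 P) - eps F (D3 P) := by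
    refine hc.test _ (Submodule.mem_sup.2 ⟨_, ⟨_, sub_mem (I_mul 2 (h1.memI hβ))
      (I_mul 0 (h3.memI hβ)), rfl⟩, _, ⟨eps F (X 2 ^ k * (X 0 * D3 G - X 2 * D1 G)),
      eps_L _ _ ?_, rfl⟩, ?_⟩)
    · exact (show k + (m + 1) = E + 1 - s by omega) ▸ H_mul (H_Xp 2 k)
        (sub_mem (H_Xmul 0 (h3.memH m G hG)) (H_Xmul 2 (h1.memH m G hG)))
    · rw [sub_eq_iff_eq_add.1 ht]
      simp only [map_add, h1.mul _ _, h3.mul _ _, h1.hit, h3.hit,
        h1.mul.pow_zero' (h1.mis 2 (by decide)), h3.mul.pow_zero' (h3.mis 2 (by decide))]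
      simp
      ring
  have c : (eps F P).coeff s = 1 := hc.mon.2.1 ▸ hc.mon.1.coeff_natDegree
  have hs : (eps F P).degree = s := by
    rw [Polynomial.degree_eq_natDegree hc.mon.1.ne_zero, hc.mon.2.1]
  refine (sub_eq_zero.1 (Polynomial.eq_zero_of_dvd_of_degree_lt hd ?_)).symm
  rw [hs]
  refine (Polynomial.degree_sub_le _ _).trans_lt (max_lt ?_ (h3.top (by decide) hP c))
  rw [Polynomial.degree_C_mul Polynomial.X_ne_zero]
  exact h1.top (by decide) hP c

theorem surf [CharZero F] (h1 : Der φ D1 3 0) (h3 : Der φ D3 3 2)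
    (hcm : ∀ f, D1 (D3 f) = D3 (D1 f)) {s : ℕ} {P : R F} (hP : P ∈ H F s)
    (e : eps F (D3 P) = Polynomial.C Polynomial.X * eps F (D1 P)) :
    ∃ Q ∈ H F s, eps F Q = eps F P ∧ D3 Q = 0 := by
  have key : ∀ n, n ≤ s + 1 → ∃ Q ∈ H F s, eps F Q = eps F P ∧ ∃ A B, D3 Q = X 3 ^ n * A ∧
      D1 Q = X 3 ^ n * B ∧ eps F A = Polynomial.C Polynomial.X * eps F B := by
    intro n
    induction n with
    | zero => exact fun _ => ⟨P, hP, rfl, _, _, by simp, by simp, e⟩
    | succ n ih =>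
      intro hn
      obtain ⟨Q, hQ, eQ, A, B, hA, hB, hAB⟩ := ih (by omega)
      obtain ⟨r, rfl⟩ : ∃ r, s = r + n := ⟨s - n, by omega⟩
      have hA' : A ∈ H F r := H_cancel 3 (hA ▸ h3.memH _ Q hQ)
      have hB' : B ∈ H F r := H_cancel 3 (hB ▸ h1.memH _ Q hQ)
      have hn' : ((n : F) + 1) ≠ 0 := by norm_cast
      obtain ⟨T, hT, eT⟩ : ∃ T, (∀ a, X a * T ∈ H F r) ∧ eps F ((n + 1 : R F) * T) = eps F B := by
        have : Polynomial.C Polynomial.X ^ 1 * eps F B ∈ L F r := by
          rw [pow_one, ← hAB]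
          exact eps_L r A hA'
        obtain z | ⟨hr, hL⟩ := L_w this
        · exact ⟨0, by simp, by simp [z]⟩
        obtain ⟨T, hT, eT⟩ := L_lift hL
        refine ⟨((n : F) + 1)⁻¹ • T, fun a => (Nat.sub_add_cancel hr) ▸
          H_Xmul a (Submodule.smul_mem _ _ hT), ?_⟩
        rw [← eT, show (n + 1 : R F) = C ((n : F) + 1) by simp, C_mul', smul_smul,
          mul_inv_cancel₀ hn', one_smul]
      have hm : ∀ a, (n + 1 : R F) * (X a * T) ∈ H F r := fun a => by
        rw [show (n + 1 : R F) = C ((n : F) + 1) by simp, C_mul']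
        exact Submodule.smul_mem _ _ (hT a)
      obtain ⟨A1, eA⟩ := eps_ker (sub_mem hA' (hm 2)) (by
        rw [map_sub, hAB, ← eT, mul_left_comm, map_mul (eps F) (X 2), eps2, sub_self])
      obtain ⟨B1, eB⟩ := eps_ker (sub_mem hB' (hm 0)) (by
        rw [map_sub, ← eT, mul_left_comm, map_mul (eps F) (X 0), eps0, one_mul, sub_self])
      have q3 : D3 (Q - X 3 ^ (n + 1) * T) = X 3 ^ (n + 1) * (A1 - D3 T) := by
        rw [map_sub, h3.mul, h3.mul.pow, h3.hit, hA, sub_eq_iff_eq_add.1 eA]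
        ring
      have q1 : D1 (Q - X 3 ^ (n + 1) * T) = X 3 ^ (n + 1) * (B1 - D1 T) := by
        rw [map_sub, h1.mul, h1.mul.pow, h1.hit, hB, sub_eq_iff_eq_add.1 eB]
        ring
      refine ⟨Q - X 3 ^ (n + 1) * T, sub_mem hQ ?_, by simp [eQ], _, _, q3, q1, ?_⟩
      · rw [pow_succ, mul_assoc, add_comm r]
        exact H_mul (H_Xp 3 n) (hT 3)
      · have c := hcm (Q - X 3 ^ (n + 1) * T)
        rw [q3, q1, h3.mul, h1.mul, h3.mul.pow, h1.mul.pow, h3.hit, h1.hit] at c
        generalize A1 - D3 T = A2 at c ⊢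
        generalize B1 - D1 T = B2 at c ⊢
        have c' : (n + 1 : R F) * (X 0 * A2) + X 3 * D1 A2 =
            (n + 1 : R F) * (X 2 * B2) + X 3 * D3 B2 :=
          mul_left_cancel₀ (pow_ne_zero n (X_ne_zero 3)) (by linear_combination c)
        have c'' := congrArg (eps F) c'
        simp only [map_add, map_mul, eps0, eps2, eps3, zero_mul, add_zero, one_mul, map_natCast,
          map_one] at c''
        exact mul_left_cancel₀ (by norm_cast) c''
  obtain ⟨Q, hQ, eQ, A, -, hA, -⟩ := key (s + 1) le_rfl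
  have : A = 0 := H_cancel0 3 (hA ▸ h3.memH _ Q hQ) (Nat.lt_succ_self s)
  exact ⟨Q, hQ, eQ, by rw [hA, this, mul_zero]⟩

end Pool.Agent.MP_708e57_al.c4

end MrgPart5

-- ======== part 6: formerly Pool.Agent.MP_708e57_al.c4.Main
section MrgPart6

/-! Codimension four: the numbers and the induction on the socle degree. -/

set_option autoImplicit false

namespace Pool.Agent.MP_708e57_al.c4

open Module MvPolynomial

universe u

/-- six times a binomial coefficient -/
def T (x : ℕ) : ℕ := x * (x + 1) * (x + 2)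

theorem T_succ (x : ℕ) : T (x + 1) = T x + 3 * ((x + 1) * (x + 2)) := by
  unfold T
  ring

theorem T_eq (x : ℕ) : 6 * (x + 3).choose 3 = T (x + 1) := by
  induction x with
  | zero => rfl
  | succ x ih =>
    have h2 : ∀ y : ℕ, 2 * (y + 2).choose 2 = (y + 1) * (y + 2) := fun y => by
      induction y with
      | zero => rfl
      | succ y ih =>
        rw [show y + 1 + 2 = y + 2 + 1 from rfl, Nat.choose_succ_succ', Nat.choose_one_right]
        linarith
    have := h2 (x + 1)
    rw [T_succ, ← ih, show x + 1 + 3 = x + 3 + 1 from rfl, Nat.choose_succ_succ']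
    simp only [add_assoc, Nat.reduceAdd] at this ⊢
    omega

theorem T_mono {x y : ℕ} (h : x ≤ y) : T x ≤ T y := by
  unfold T
  gcongr

theorem T_conv {x y : ℕ} (s : ℕ) (h : x ≤ y) : T x + T (y - s) ≤ T y + T (x - s) := by
  induction h with
  | refl => rfl
  | @step y _ ih =>
    rcases le_or_gt s y with c | c
    · have : (y - s + 1) * (y - s + 2) ≤ (y + 1) * (y + 2) := by gcongr <;> omega
      rw [Nat.succ_sub c, T_succ, T_succ]
      omega
    · have := T_mono (Nat.le_succ y)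
      rw [show y.succ - s = y - s by omega]
      omega

theorem tele (c : ℕ) {f B : ℕ → ℕ} (h : ∀ k, c * f k + B (k + 1) ≤ B k) (n r : ℕ) :
    c * ∑ j ∈ Finset.range n, f (r + j) ≤ B r := by
  induction n generalizing r with
  | zero => simp
  | succ n ih =>
    have := ih (r + 1)
    have := h r
    simp only [add_assoc, add_comm 1] at *
    rw [Finset.sum_range_succ', mul_add, add_zero]
    omega

variable {F : Type u} [Field F] {φ : R F →ₗ[F] F}

theorem om_le {b : Submodule F (O F)} [FiniteDimensional F b] {D : ℕ} (hb : b ≤ L F D) (c : ℕ)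
    {v B : ℕ → ℕ} (hv : ∀ k, finrank F (Vk b k) ≤ v k) (h : ∀ k, c * v k + B (k + 1) ≤ B k)
    (k : ℕ) : c * om b k ≤ B k :=
  (Nat.mul_le_mul_left c (filt_sum b w_ne (rho F).toLinearMap (fun g => by simp)
    (fun _ _ _ => rho_ker) v hv k (D + 1) fun _ hf =>
      (L_w (hb hf)).resolve_right fun c => by omega)).trans (tele c h _ _)

theorem sec_le (φ : R F →ₗ[F] F) (n : ℕ) : sec φ n ≤ L F n := by
  rintro _ ⟨f, hf, rfl⟩
  exact eps_L n f hf.1

theorem caseN [CharZero F] {δ : R F →+ R F} (hδ : Der φ δ 3 2) {a g : ℕ}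
    (hφ : Conc φ (a + (g + 1) + a))
    (h : ∀ κ, finrank F (Vk (sec φ (a + (g + 1))) κ) ≤ a + (g + 1) - 2 * κ) : False := by
  have := fin_sec φ (a + (g + 1))
  have p := pencil hδ hφ (JD := I φ _) (Ja := ⊥) (b := sec φ (a + (g + 1))) inf_le_left le_rfl
    (fun _ => hδ.memI) (by simp) le_rfl
  rw [bot_inf_eq, finrank_bot] at p
  have e := T_eq (a + (g + 1))
  have hL := sec_le φ (a + (g + 1))
  generalize a + (g + 1) = D at *
  have h1 := om_le hL 4 (B := fun k => (D + 1 - 2 * k) ^ 2) h fun k => by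
    rcases le_or_gt (2 * k + 1) D with c | c
    · obtain ⟨x, rfl⟩ := Nat.exists_eq_add_of_le c
      rw [show 2 * k + 1 + x - 2 * k = x + 1 by omega,
        show 2 * k + 1 + x + 1 - 2 * (k + 1) = x by omega,
        show 2 * k + 1 + x + 1 - 2 * k = x + 2 by omega]
      exact le_of_eq (by ring)
    · rw [show D - 2 * k = 0 by omega, show D + 1 - 2 * (k + 1) = 0 by omega]
      exact Nat.zero_le _
  have h2 := tele 24 (f := om (sec φ D)) (B := fun k => T (D + 1 - 2 * k)) fun k => by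
    have := h1 k
    rw [show D + 1 - 2 * (k + 1) = D + 1 - 2 * k - 2 by omega]
    generalize D + 1 - 2 * k = x at *
    rcases x with _ | _ | x
    · simp_all [T]
    · simp_all [T]
      omega
    · rw [show x + 1 + 1 - 2 = x by omega]
      unfold T
      nlinarith
  have h3 := h2 (D + 1) 0
  have h4 := h2 (a + 1) (g + 1)
  have h5 := T_mono (Nat.sub_le (D + 1) (2 * (g + 1)))
  have h6 : 0 < T (D + 1) := by unfold T; positivity
  simp only [zero_add, mul_zero, Nat.sub_zero] at h3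
  omega

theorem ineqP (k u m a : ℕ) (ha : a ≤ k + (k + 1 + u) + m) :
    T (k + 1 + m + 1) + T (a + 1 - (k + 1 + u)) + 3 * (T k + 3 * u * (k * (k + 1))) <
      T (k + (k + 1 + u) + 1 + m + 1) + T (a + 1 - (k + 1 + u) - (k + 1 + u)) := by
  have := T_conv (k + 1 + u) (show a + 1 - (k + 1 + u) ≤ k + 1 + m by omega)
  have key : T (k + 1 + m + 1) + T (k + 1 + m) + 3 * (T k + 3 * u * (k * (k + 1))) <
      T (k + (k + 1 + u) + 1 + m + 1) + T (k + 1 + m - (k + 1 + u)) := by
    rcases le_total u m with q | q <;> obtain ⟨c, rfl⟩ := Nat.exists_eq_add_of_le q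
    · rw [show k + 1 + (u + c) - (k + 1 + u) = c by omega]
      unfold T
      ring_nf
      omega
    · rw [show k + 1 + m - (k + 1 + (m + c)) = 0 by omega]
      unfold T
      ring_nf
      omega
  omega

theorem finL (n : ℕ) : FiniteDimensional F (L F n) := by
  have := finH F n
  refine Submodule.finiteDimensional_of_le (S₂ := (H F n).map (eps F).toLinearMap) fun x hx => ?_
  exact L_lift hx

theorem sq_part {d s a : ℕ} (hφ : Conc φ d) (ih : ∀ d' < d, ∀ ψ : R F →ₗ[F] F, Conc ψ d' → Uni ψ d')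
    {Q : R F} (hQ : Q ∈ H F s) (h0 : Q ≠ 0) (hs : 0 < s) {n : ℕ} (ha : s + a ≤ s + n)
    (hd : d = s + n + (s + a)) {J : Submodule F (R F)}
    (hJ : (H F n).map (LinearMap.mulLeft F Q) ≤ J) :
    6 * finrank F ((H F a).map (LinearMap.mulLeft F Q) ⊓ perp (bil φ 1) J : Submodule F (R F)) +
      T (a + 1 - s) ≤ T (a + 1) + 6 * di φ (s + a) := by
  have h2 : Conc (φ ∘ₗ LinearMap.mulLeft F (Q * Q)) (a + n) :=
    Conc.mul ((show d = a + n + (s + s) by omega) ▸ hφ) (H_mul hQ hQ)
  set ψ := φ ∘ₗ LinearMap.mulLeft F (Q * Q)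
  have := finI ψ a
  have e1 : finrank F ((H F a).map (LinearMap.mulLeft F Q) ⊓ perp (bil φ 1) J :
      Submodule F (R F)) ≤ di ψ a := by
    refine (Submodule.finrank_mono ?_).trans
      (Submodule.finrank_map_le (LinearMap.mulLeft F Q) (I ψ a))
    rintro _ ⟨⟨y, hy, rfl⟩, hp⟩
    refine ⟨y, ⟨hy, h2.ann' rfl hy fun t ht => ?_⟩, rfl⟩
    have := hp _ (hJ ⟨t, ht, rfl⟩)
    rw [bil_apply] at this
    rw [← this]
    exact congrArg φ (by simp only [LinearMap.mulLeft_apply]; ring)
  have e2 := T_eq a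
  rcases le_or_gt s a with c | c
  · obtain ⟨x, rfl⟩ := Nat.exists_eq_add_of_le c
    have u := ih _ (by omega) ψ h2 x (s + x) (by omega) (by omega)
    have := finI φ (s + (s + x))
    have e3 : di ψ x ≤ di φ (s + (s + x)) := by
      rw [di, ← rank_inj _ (π := LinearMap.mulLeft F (Q * Q))
        (mul_right_injective₀ (mul_ne_zero h0 h0))]
      refine Submodule.finrank_mono ?_
      rintro _ ⟨y, hy, rfl⟩
      exact ⟨add_assoc s s x ▸ H_mul (H_mul hQ hQ) hy.1,
        fun t => (congrArg φ (mul_assoc _ _ _)).trans (hy.2 t)⟩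
    have e4 := T_eq x
    rw [show s + x + 1 - s = x + 1 by omega]
    omega
  · have := di_le ψ a
    rw [show a + 1 - s = 0 by omega, show T 0 = 0 from rfl]
    omega

theorem caseP [CharZero F] {δ : R F →+ R F} (hδ : Der φ δ 3 2) {a g k s m : ℕ}
    (hφ : Conc φ (a + (g + 1) + a))
    (ih : ∀ d' < a + (g + 1) + a, ∀ ψ : R F →ₗ[F] F, Conc ψ d' → Uni ψ d')
    {b' : Submodule F (O F)} {G0 : O F} {Q : R F} (hQ : Q ∈ H F s) (h0 : δ Q = 0)
    (hc : Curve (sec φ (a + (g + 1))) b' (a + (g + 1)) k s m (eps F Q) G0) : False := by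
  obtain ⟨hn, hk⟩ := hc.num
  obtain ⟨u, hu⟩ := Nat.exists_eq_add_of_le hk
  have hQ0 : Q ≠ 0 := fun c => hc.mon.1.ne_zero (by rw [c, map_zero])
  set D := a + (g + 1) with hD
  have hs : s + (D - s) = D := by omega
  have hL : plus (sec φ D) (eps F Q) (D - s) ≤ L F D := sup_le (sec_le φ D) (by
    rintro _ ⟨y, hy, rfl⟩
    exact hs ▸ L_mul hc.mon.2.2 (hs.symm ▸ hy))
  have := finL (F := F) D
  have := Submodule.finiteDimensional_of_le hL
  let JD := I φ D ⊔ (H F (D - s)).map (LinearMap.mulLeft F Q)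
  obtain ⟨Ja, h4, h5, h6⟩ : ∃ Ja : Submodule F (R F), (∀ f ∈ Ja, X 2 ^ (g + 1) * f ∈ JD) ∧
      T (a + 1 - s) ≤ 6 * finrank F Ja ∧
      6 * finrank F (Ja ⊓ perp (bil φ 1) JD : Submodule F (R F)) + T (a + 1 - s - s) ≤
        T (a + 1 - s) + 6 * di φ a := by
    rcases le_or_gt s a with c | c
    · obtain ⟨x, hx⟩ := Nat.exists_eq_add_of_le c
      refine ⟨(H F x).map (LinearMap.mulLeft F Q), ?_, ?_, ?_⟩
      · rintro _ ⟨y, hy, rfl⟩
        exact Submodule.mem_sup_right ⟨X 2 ^ (g + 1) * y,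
          (show g + 1 + x = D - s by omega) ▸ H_mul (H_Xp 2 _) hy, mul_left_comm _ _ _⟩
      · rw [rank_inj _ (π := LinearMap.mulLeft F Q) (mul_right_injective₀ hQ0), finrank_H, T_eq]
        exact T_mono (by omega)
      · rw [show a + 1 - s = x + 1 by omega]
        have := sq_part (a := x) hφ ih hQ hQ0 (by omega) (n := D - s) (by omega) (by omega)
          (J := JD) le_sup_right
        rwa [← hx] at this
    · refine ⟨⊥, by simp, ?_, ?_⟩
      · rw [show a + 1 - s = 0 by omega]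
        exact Nat.zero_le _
      · rw [bot_inf_eq, finrank_bot, show a + 1 - s = 0 by omega, Nat.zero_sub]
        omega
  have p := pencil hδ hφ (JD := JD) (b := plus (sec φ D) (eps F Q) (D - s))
    (sup_le inf_le_left ?_) le_sup_left (fun f hf => ?_) h4 ?_
  rotate_left
  · rintro _ ⟨y, hy, rfl⟩
    have := H_mul hQ hy
    rwa [hs] at this
  · obtain ⟨x, hx, _, ⟨y, hy, rfl⟩, rfl⟩ := Submodule.mem_sup.1 hf
    rw [map_add]
    refine Submodule.add_mem_sup (hδ.memI hx) ⟨δ y, hδ.memH _ y hy, ?_⟩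
    rw [LinearMap.mulLeft_apply, LinearMap.mulLeft_apply, hδ.mul, h0, zero_mul, zero_add]
  · rw [Submodule.map_sup]
    refine sup_le_sup le_rfl ?_
    rintro _ ⟨_, ⟨y, hy, rfl⟩, rfl⟩
    exact ⟨_, eps_L _ y hy, (map_mul _ _ _).symm⟩
  have t1 : ∀ x : ℕ, 2 * x + (x - 1) * (x - 1 + 1) = x * (x + 1) := fun x => by
    cases x <;> simp
    ring
  have t2 : ∀ x : ℕ, 3 * (x * (x + 1)) + T (x - 1) = T x := fun x => by
    cases x <;> simp [T]
    ring
  have h1 := om_le hL 2 (B := fun j => (D + 1 - s - j) * (D + 1 - s - j + 1) +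
      (k - j) * (k - j + 1) + 2 * (u * (k - j))) hc.lev fun j => by
    have e1 := t1 (D + 1 - s - j)
    have e2 := t1 (k - j)
    rw [Nat.sub_add_eq, Nat.sub_add_eq k]
    split_ifs with c
    · have : u * (k - j - 1) + u = u * (k - j) := by
        rw [← Nat.mul_succ]
        congr 1
        omega
      omega
    · have : u * (k - j - 1) ≤ u * (k - j) := Nat.mul_le_mul_left _ (Nat.sub_le _ _)
      omega
  have h2 := tele 6 (f := om (plus (sec φ D) (eps F Q) (D - s))) (B := fun j =>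
      T (D + 1 - s - j) + (T (k - j) + 3 * u * ((k - j) * (k - j + 1)))) fun j => by
    have e0 := h1 j
    have e1 := t2 (D + 1 - s - j)
    have e2 := t2 (k - j)
    have e3 := congrArg (3 * u * ·) (t1 (k - j))
    rw [Nat.sub_add_eq, Nat.sub_add_eq k]
    simp only [mul_add (3 * u)] at e3
    have : 3 * u * (2 * (k - j)) = 6 * (u * (k - j)) := by ring
    omega
  have h7 := h2 (D + 1) 0
  have h8 := h2 (a + 1) (g + 1)
  have h9 : T (k - (g + 1)) + 3 * u * ((k - (g + 1)) * (k - (g + 1) + 1)) ≤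
      T k + 3 * u * (k * (k + 1)) := by
    have := Nat.sub_le k (g + 1)
    have := T_mono this
    gcongr
  have e := T_eq D
  have q := ineqP k u m a (by omega)
  simp only [zero_add, Nat.sub_zero] at h7
  rw [show D + 1 - s - (g + 1) = a + 1 - s by omega] at h8
  rw [← hu, ← hn, show k + 1 + m + 1 = D + 1 - s by omega] at q
  rw [← hD] at p
  omega

theorem uni (hC : CurveS.{u}) (hG : GenS.{u}) (d : ℕ) : ∀ (K : Type u) [Field K] [CharZero K]
    (φ : R K →ₗ[K] K), Conc φ d → Uni φ d := by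
  induction d using Nat.strong_induction_on with
  | _ d ih =>
  intro K _ _ φ0 h0
  obtain ⟨F, _, _, φ, hφ, hg, e⟩ := hG K φ0 d h0
  have step : ∀ a, 2 * (a + 1) ≤ d + 1 →
      (a + 3).choose 3 + di φ (a + 1) ≤ (a + 1 + 3).choose 3 + di φ a := by
    intro a ha
    rcases ha.eq_or_lt with c | c
    · exact (hφ.symm (by omega)).le
    obtain ⟨g, rfl⟩ : ∃ g, d = a + (g + 1 + 1) + a := ⟨d - 2 * a - 2, by omega⟩
    have h3 : Conc (φ ∘ₗ LinearMap.mulLeft F (X 3)) (a + (g + 1) + a) :=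
      Conc.mul ((show a + (g + 1 + 1) + a = a + (g + 1) + a + 1 by omega) ▸ hφ) (H_X 3)
    have star : finrank F (sec φ (a + g + 1)) + (a + g + 1 + 1) <
        finrank F (sec φ (a + g + 1 + 1)) := by
      refine not_le.1 fun c => ?_
      have hc := sec_curve hC hg _ c
      obtain ⟨-, -, -, D1, D3, -, -, -, h1, h3, hcm⟩ := hg
      obtain hN | ⟨k, s, m, P0, G0, hP⟩ := hc
      · exact caseN h3 hφ hN
      · obtain ⟨P, hPs, rfl⟩ := L_lift hP.mon.2.2
        obtain ⟨Q, hQ, eQ, hQ0⟩ := surf h1 h3 hcm hPs (theta h1 h3 hP hPs rfl)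
        exact caseP h3 hφ (fun d' hd => ih d' hd F) hQ hQ0 (eQ ▸ hP)
    have u := ih _ (by omega) F _ h3 a (a + 1) (by omega) (by omega)
    have s1 := hφ.symm (i := a + (g + 1) + 1) (j := a) (by omega)
    have s2 := hφ.symm (i := a + g + 1) (j := a + 1) (by omega)
    have s3 := h3.symm (i := a + (g + 1)) (j := a) rfl
    have s4 := h3.symm (i := a + g) (j := a + 1) (by omega)
    have r1 := di_sec φ (a + g + 1)
    have r2 := di_sec φ (a + g)
    have t1 := T_eq (a + g + 1 + 1)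
    have t2 := T_eq (a + g + 1)
    have t3 := T_eq (a + g)
    have t4 : T (a + g + 1 + 1 + 1) + T (a + g + 1) =
        2 * T (a + g + 1 + 1) + 6 * (a + g + 1 + 1 + 1) := by
      unfold T
      ring
    simp only [← add_assoc a g] at *
    omega
  intro i j hij hj
  rw [← e, ← e]
  induction hij with
  | refl => rfl
  | @step j _ h =>
    have := h (by omega)
    have := step j hj
    simp only [Nat.succ_eq_add_one]
    omega

end Pool.Agent.MP_708e57_al.c4

end MrgPart6

-- ======== part 7: formerly Pool.Agent.MP_708e57_al.c4.CurveT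
section MrgPart7

/-! Codimension four: the plane curve of a plateau with growth `τ`. -/

set_option autoImplicit false

namespace Pool.Agent.MP_708e57_al.c4

open Module Polynomial

universe u

theorem curveT : CurveTS.{u} := by
  intro F _ _ b b' E τ d1 d2 hτ hb hb' hfin hle hmul l1 l2 w1 w2 sb sb' hco hrk
  rcases curveG b b' E τ d1 d2 hτ hb hb' hfin hle hmul l1 l2 w1 w2 sb sb' hco hrk with
    h | ⟨k, s, m, P0, G0, h⟩
  · exact Or.inl h
  refine Or.inr ⟨k, s, m, P0, G0, h.num, h.mon, h.g0, h.test, h.lev, fun κ hκ q hq => ?_⟩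
  rw [degreeLT_succ_eq_degreeLE, mem_degreeLE, ← natDegree_le_iff_degree_le] at hq
  obtain ⟨f, hf, ⟨g, rfl⟩, e⟩ := h.full' κ hκ q (by omega)
  rw [map_mul] at e
  exact ⟨g, Cv.mem_Wk.1 hf, mul_left_cancel₀ (Cv.rho_monic h.mon.1).1.ne_zero e⟩

end Pool.Agent.MP_708e57_al.c4

end MrgPart7

-- ======== part 8: formerly Pool.Agent.MP_708e57_al.c4.SecT
section MrgPart8

/-! Codimension four: growth of the hyperplane section bounds it in the dual degree. -/

set_option autoImplicit false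

namespace Pool.Agent.MP_708e57_al.c4

open Module MvPolynomial Finset

universe u

variable {F : Type u} [Field F] {φ : R F →ₗ[F] F} {δ : R F →+ R F}

theorem rank_L (n : ℕ) : finrank F (L F n) = (n + 2).choose 2 := by
  have := finH F n
  have e := rank_map (H F n) (eps F).toLinearMap
  rw [map_eps, finrank_H] at e
  cases n with
  | zero =>
    have : (H F 0 ⊓ LinearMap.ker (eps F).toLinearMap : Submodule F (R F)) = ⊥ :=
      (Submodule.eq_bot_iff _).2 fun f hf => by
        obtain ⟨g, rfl⟩ := eps_ker hf.1 hf.2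
        have : g = 0 := H_cancel0 (k := 1) (n := 0) 3 (by rw [pow_one]; exact hf.1) one_pos
        rw [this, mul_zero]
    rw [this, finrank_bot] at e
    exact e.symm
  | succ n =>
    have : (H F (n + 1) ⊓ LinearMap.ker (eps F).toLinearMap : Submodule F (R F)) =
        (H F n).map (LinearMap.mulLeft F (X 3)) := by
      ext f
      constructor
      · rintro ⟨h1, h2⟩
        obtain ⟨g, hg, rfl⟩ := eps_ker' h1 h2
        exact ⟨g, hg, rfl⟩
      · rintro ⟨g, hg, rfl⟩
        exact ⟨H_Xmul 3 hg, by simp⟩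
    rw [this, rank_inj (H F n) (π := LinearMap.mulLeft F (X 3 : R F))
      (mul_right_injective₀ (X_ne_zero 3)), finrank_H, show n + 1 + 3 = n + 3 + 1 from rfl, Nat.choose_succ_succ' (n + 3) 2] at e
    exact (Nat.add_right_cancel e).symm

theorem two_ch (n : ℕ) : 2 * (n + 1).choose 2 = n * (n + 1) := by
  induction n with
  | zero => rfl
  | succ n ih =>
    rw [Nat.choose_succ_succ' (n + 1) 1, Nat.choose_one_right]
    linarith

theorem rank_LT (n : ℕ) : finrank F (Polynomial.degreeLT F n) = n := by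
  rw [finrank_eq_card_basis (Polynomial.degreeLT.basis F n), Fintype.card_fin]

theorem sec_der (hG : Gen φ) : ∃ d1 d2 : O F →+ O F, Lei d1 ∧ Lei d2 ∧
    d1 (Polynomial.C Polynomial.X) = 1 ∧ d2 (Polynomial.C Polynomial.X) = Polynomial.X ∧
      ∀ n, ∀ f ∈ sec φ n, d1 f ∈ sec φ n ∧ d2 f ∈ sec φ n := by
  obtain ⟨D12, D31, D32, -, -, h12, h31, h32, -⟩ := hG
  obtain ⟨d1, l1, e1⟩ := desc h31.mul (h31.mis 0 (by decide)) (h31.mis 3 (by decide))
  obtain ⟨d2, l2, e2⟩ := desc h32.mul (h32.mis 0 (by decide)) (h32.mis 3 (by decide))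
  refine ⟨d1, d2, l1, l2, ?_, ?_, ?_⟩
  · rw [← eps2, e1, h31.hit, eps0]
  · rw [← eps2, e2, h32.hit, eps1]
  · rintro n _ ⟨f, hf, rfl⟩
    exact ⟨⟨_, h31.memI hf, (e1 f).symm⟩, ⟨_, h32.memI hf, (e2 f).symm⟩⟩

theorem sec_w {n : ℕ} {f : O F} (hf : f ∈ sec φ n) :
    Polynomial.C Polynomial.X * f ∈ sec φ (n + 1) := by
  obtain ⟨f, hf, rfl⟩ := hf
  exact ⟨_, I_mul 2 hf, by simp⟩

theorem sec_curveT [CharZero F] (hG : Gen φ) (E τ : ℕ) (hτ : 1 ≤ τ)
    (h : finrank F (sec φ (E + 1)) + τ ≤ finrank F (sec φ E) + (E + 2)) :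
    (∀ κ, finrank F (Vk (sec φ (E + 1)) κ) ≤ E + 2 - τ - 2 * κ) ∨
      ∃ k s m P0 G0, CurveT (sec φ (E + 1)) (sec φ E) (E + 1) τ k s m P0 G0 := by
  obtain ⟨d1, d2, l1, l2, w1, w2, hd⟩ := sec_der hG
  obtain ⟨D12, -, -, -, -, h12, -⟩ := hG
  refine curveT F _ _ E τ d1 d2 hτ (sec_le φ _) (sec_le φ _) (fin_sec _ _) ?_ (fun f hf => ⟨?_, sec_w hf⟩)
    l1 l2 w1 w2 (hd _) (hd _) (sec_top h12 E) h
  · rintro _ ⟨f, hf, rfl⟩
    exact ⟨_, I_mul 0 hf, by simp⟩
  · obtain ⟨f, hf, rfl⟩ := hf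
    exact ⟨_, I_mul 1 hf, by simp⟩

theorem profile [CharZero F] (hG : Gen φ) (D : ℕ) : ∃ u : ℕ → ℕ,
    (∀ p ≤ D, u p + finrank F (Vk (sec φ D) (D - p)) = p + 1) ∧
    (∀ p < D, u p = p + 1 ∨ u (p + 1) ≤ u p) ∧
    ∀ p ≤ D, (p + 2).choose 2 = om (sec φ D) (D - p) + ∑ j ∈ range (p + 1), u j := by
  obtain ⟨d1, d2, l1, l2, w1, w2, hd⟩ := sec_der hG
  have := fin_sec φ D
  have hv : ∀ p ≤ D, finrank F (Vk (sec φ D) (D - p)) ≤ p + 1 := fun p hp => by
    have : FiniteDimensional F (Polynomial.degreeLT F (p + 1)) :=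
      Module.Finite.of_basis (Polynomial.degreeLT.basis F _)
    rw [← rank_LT (F := F) (p + 1)]
    refine Submodule.finrank_mono ?_
    rintro _ ⟨f, hf, rfl⟩
    have h1 := (Cv.rho_deg f).trans (Cv.Wk_L (sec_le φ D) hf)
    rw [Polynomial.degreeLT_succ_eq_degreeLE, Polynomial.mem_degreeLE,
      ← Polynomial.natDegree_le_iff_degree_le]
    exact h1.trans (by omega)
  refine ⟨fun p => p + 1 - finrank F (Vk (sec φ D) (D - p)), fun p hp => ?_, fun p hp => ?_,
    fun p hp => ?_⟩
  · have := hv p hp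
    beta_reduce
    omega
  · beta_reduce
    by_cases c : Vk (sec φ D) (D - p) = ⊥
    · left
      rw [c, finrank_bot, Nat.sub_zero]
    · right
      rw [show D - p = D - (p + 1) + 1 by omega] at c ⊢
      have := Cv.fin_Vk (sec φ D) (D - (p + 1))
      have := Cv.rank_zW (U := Vk (sec φ D) (D - (p + 1))) c ?_ ?_
      · omega
      · rintro _ ⟨f, hf, rfl⟩
        obtain ⟨g, hg, -, e⟩ := Cv.down_V l1 (fun f hf => (hd D f hf).1) (one_dvd _) hf (one_dvd _)
        exact ⟨g, hg, by simpa [w1] using e⟩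
      · rintro _ ⟨f, hf, rfl⟩
        obtain ⟨g, hg, -, e⟩ := Cv.down_V l2 (fun f hf => (hd D f hf).2) (one_dvd _) hf (one_dvd _)
        exact ⟨g, hg, by simpa [w2] using e⟩
  · induction p with
    | zero =>
      have e := Cv.rank_Wk (sec φ D) D
      have : Wk (sec φ D) (D + 1) = ⊥ := (Submodule.eq_bot_iff _).2 fun f hf =>
        (L_w (sec_le φ D hf)).resolve_right fun c => by omega
      rw [this, finrank_bot] at e
      have := hv 0 hp
      simp only [om, zero_add, sum_range_one, Nat.sub_zero, Nat.choose_self] at *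
      omega
    | succ p ih =>
      have := ih (by omega)
      have e := Cv.rank_Wk (sec φ D) (D - (p + 1))
      rw [show D - (p + 1) + 1 = D - p by omega] at e
      have := hv (p + 1) hp
      rw [sum_range_succ, show p + 1 + 2 = p + 2 + 1 from rfl, Nat.choose_succ_succ' (p + 2) 1,
        Nat.choose_one_right]
      simp only [om, Nat.reduceAdd] at *
      omega

theorem cheb {u : ℕ → ℕ} {D : ℕ} (h0 : ∀ p ≤ D, u p ≤ p + 1)
    (h : ∀ p < D, u p = p + 1 ∨ u (p + 1) ≤ u p) : ∀ p ≤ D,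
    (p + 2) * u p ≤ 2 * ∑ j ∈ range (p + 1), u j ∧
      (p + 3) * ∑ j ∈ range (p + 1), u j ≤ 3 * ∑ i ∈ range (p + 1), ∑ j ∈ range (i + 1), u j := by
  intro p hp
  induction p with
  | zero => simp
  | succ p ih =>
    obtain ⟨h1, h2⟩ := ih (by omega)
    have h3 : (p + 1) * u (p + 1) ≤ (p + 2) * u p := by
      rcases h p (by omega) with c | c
      · rw [c, mul_comm (p + 2)]
        exact Nat.mul_le_mul_left _ (h0 _ hp)
      · exact Nat.mul_le_mul (by omega) c
    rw [sum_range_succ (fun i => ∑ j ∈ range (i + 1), u j), sum_range_succ u (p + 1)]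
    constructor <;> nlinarith

/-- the direct bound -/
theorem direct [CharZero F] (hG : Gen φ) {D a : ℕ} (h : Conc φ (D + a)) :
    ∃ c, (D + 2).choose 2 = finrank F (sec φ D) + c ∧
      (D + 3) * c ≤ 3 * ∑ j ∈ range (a + 1), om (sec φ (a + 1)) (1 + j) := by
  obtain ⟨u, h1, h2, h3⟩ := profile hG D
  obtain ⟨-, -, -, -, D3, -, -, -, -, hδ, -⟩ := hG
  have p := pl hδ h
  refine ⟨_, ?_, (cheb (fun p hp => by have := h1 p hp; omega) h2 D le_rfl).2.trans ?_⟩
  · have := h3 D le_rfl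
    rwa [Nat.sub_self, om, Cv.Wk_zero] at this
  · have : ∑ i ∈ range (D + 1), finrank F (L F (D - i)) = ∑ i ∈ range (D + 1), om (sec φ D) i +
        ∑ i ∈ range (D + 1), ∑ j ∈ range (i + 1), u j := by
      rw [← sum_range_reflect (fun i => ∑ j ∈ range (i + 1), u j), ← sum_add_distrib]
      refine sum_congr rfl fun i hi => ?_
      have hi := mem_range.1 hi
      have := h3 (D - i) (by omega)
      rw [show D - (D - i) = i by omega] at this
      rw [rank_L, this, Nat.add_sub_cancel]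
    omega

theorem om_up {b b' : Submodule F (O F)} [FiniteDimensional F b]
    (h : ∀ f ∈ b', Polynomial.C Polynomial.X * f ∈ b) (k : ℕ) : om b' k ≤ om b (k + 1) := by
  have := Cv.fin_Wk b (k + 1)
  refine Submodule.finrank_mono fun f hf => Cv.mem_Wk.2 ?_
  rw [pow_succ', mul_assoc]
  exact h _ (Cv.mem_Wk.1 hf)

theorem secN [CharZero F] (hG : Gen φ) {D a N : ℕ} (hφ : Conc φ (D + a)) (hD : N ≤ D)
    (h : ∀ κ, finrank F (Vk (sec φ (a + 1 + 1)) κ) ≤ N - 2 * κ) :
    (D + 2).choose 2 + finrank F (sec φ (a + 1)) ≤ finrank F (sec φ D) + N.choose 2 := by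
  obtain ⟨c, h1, h2⟩ := direct hG hφ
  have := fin_sec φ (a + 1 + 1)
  have up := om_up (b := sec φ (a + 1 + 1)) (b' := sec φ (a + 1)) fun _ => sec_w
  have q1 := om_le (sec_le φ (a + 1 + 1)) 4 (B := fun k => (N + 1 - 2 * k) ^ 2) h fun k => by
    rcases le_or_gt (2 * k + 1) N with c | c
    · obtain ⟨x, rfl⟩ := Nat.exists_eq_add_of_le c
      rw [show 2 * k + 1 + x - 2 * k = x + 1 by omega,
        show 2 * k + 1 + x + 1 - 2 * (k + 1) = x by omega,
        show 2 * k + 1 + x + 1 - 2 * k = x + 2 by omega]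
      exact le_of_eq (by ring)
    · rw [show N - 2 * k = 0 by omega, show N + 1 - 2 * (k + 1) = 0 by omega]
      exact Nat.zero_le _
  have q2 := tele 24 (f := om (sec φ (a + 1 + 1))) (B := fun k => T (N + 1 - 2 * k)) (fun k => by
    have := q1 k
    rw [show N + 1 - 2 * (k + 1) = N + 1 - 2 * k - 2 by omega]
    generalize N + 1 - 2 * k = x at *
    rcases x with _ | _ | x
    · simp_all [T]
    · simp_all [T]
      omega
    · rw [show x + 1 + 1 - 2 = x by omega]
      unfold T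
      nlinarith) (a + 1) 2
  have q3 : ∑ j ∈ range (a + 1), om (sec φ (a + 1)) (1 + j) ≤
      ∑ j ∈ range (a + 1), om (sec φ (a + 1 + 1)) (2 + j) :=
    sum_le_sum fun j _ => (up _).trans (le_of_eq (by congr 1; omega))
  have q4 := up 0
  have q5 := q1 1
  rw [om, Cv.Wk_zero] at q4
  have q6 : (N + 3) * (8 * c) ≤ T (N + 1 - 2 * 2) := by
    have := Nat.mul_le_mul_right c (Nat.add_le_add_right hD 3)
    nlinarith
  simp only [zero_add] at q4 q5
  rcases N with _ | _ | _ | x
  · simp [T] at q5 q6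
    omega
  · simp [T] at q5 q6
    omega
  · simp [T] at q5 q6 ⊢
    omega
  have q7 := two_ch (x + 2)
  rw [show x + 1 + 1 + 1 + 1 - 2 * 2 = x by omega, T] at q6
  rw [show x + 1 + 1 + 1 + 1 - 2 * 1 = x + 2 by omega] at q5
  have q8 : 8 * c ≤ (x + 1) * (x + 2) := by
    by_contra hc
    nlinarith
  have : 8 * (c + finrank F (sec φ (a + 1))) ≤ 8 * (x + 2 + 1).choose 2 := by nlinarith
  change _ ≤ _ + (x + 2 + 1).choose 2
  omega

theorem Wk_sum (b : Submodule F (O F)) [FiniteDimensional F b] (k : ℕ) :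
    finrank F b = ∑ κ ∈ range k, finrank F (Vk b κ) + finrank F (Wk b k) := by
  induction k with
  | zero => rw [Cv.Wk_zero, sum_range_zero, zero_add]
  | succ k ih => rw [sum_range_succ, add_assoc, ← Cv.rank_Wk, ih]

theorem min_le {u : ℕ → ℕ} {D : ℕ} (h : ∀ p < D, u p = p + 1 ∨ u (p + 1) ≤ u p) {i : ℕ} :
    ∀ p, i ≤ p → p ≤ D → min (i + 1) (u p) ≤ u i := by
  intro p hp
  induction hp with
  | refl => exact fun _ => min_le_right _ _
  | @step p hp ih =>
    intro c
    have := ih (by omega)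
    have := h p (by omega)
    have : i ≤ p := hp
    simp only [Nat.succ_eq_add_one]
    omega

theorem tail_le {u : ℕ → ℕ} {D e : ℕ} (h : ∀ p < D, u p = p + 1 ∨ u (p + 1) ≤ u p)
    (he : u e ≤ e) : ∀ g, e + g ≤ D → u (e + g) ≤ u e ∧
      ∑ j ∈ range (e + g + 1), u j ≤ ∑ j ∈ range (e + 1), u j + g * u e := by
  intro g
  induction g with
  | zero => simp
  | succ g ih =>
    intro c
    obtain ⟨h1, h2⟩ := ih (by omega)
    have := h (e + g) (by omega)
    rw [← add_assoc, sum_range_succ, add_mul]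
    omega

theorem NN_mono {J : Submodule F (R F)} (hm : ∀ g, ∀ f ∈ J, g * f ∈ J) (a : ℕ) {i j : ℕ}
    (h : i ≤ j) : NN J a i ≤ NN J a j := by
  obtain ⟨c, rfl⟩ := Nat.exists_eq_add_of_le h
  refine inf_le_inf_left _ fun z hz => ?_
  have := hm (X 2 ^ c) _ hz
  rw [Submodule.mem_comap]
  convert this using 1
  simp only [LinearMap.mulLeft_apply]
  ring

theorem fin_plus (φ : R F →ₗ[F] F) (n : ℕ) (P : O F) (e : ℕ) :
    FiniteDimensional F (plus (sec φ n) P e) := by
  have := finL (F := F) e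
  have := fin_sec φ n
  unfold plus
  infer_instance

theorem loss [CharZero F] (hδ : Der φ δ 3 2) {d a s e l : ℕ} (hφ : Conc φ d) {Q : R F}
    (hQ : Q ∈ H F s) (hQ0 : Q ≠ 0) (h0 : δ Q = 0) (ha : s + e = a + 1) (j : ℕ)
    (hl : 6 * ∑ j ∈ range (a + 1), om (plus (sec φ (a + 1)) (eps F Q) e) (1 + j) ≤ T e + l) :
    ∃ ν, finrank F (KK (JP φ Q) a) = finrank F (NN (JP φ Q) a j) + ν ∧ 6 * ((j + 1) * ν) ≤ l := by
  have := fin_plus φ (a + 1) (eps F Q) e
  have hb := hφ.JP_sec (e := e) hQ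
  rw [ha] at hb
  have L1 := lemL hδ (JP_mul (φ := φ) Q) (JP_der hδ h0) a hb (j + 1)
  have := finKK (JP φ Q) a
  have := finNN (JP φ Q) a j
  have n1 : finrank F (NN (JP φ Q) a j) ≤ finrank F (KK (JP φ Q) a) :=
    Submodule.finrank_mono inf_le_left
  have n2 : ∑ i ∈ range (j + 1), finrank F (NN (JP φ Q) a i) ≤
      (j + 1) * finrank F (NN (JP φ Q) a j) := by
    have : ∀ i ∈ range (j + 1), finrank F (NN (JP φ Q) a i) ≤
        finrank F (NN (JP φ Q) a j) := fun i hi =>
      Submodule.finrank_mono (NN_mono (JP_mul Q) a (Nat.lt_succ_iff.1 (mem_range.1 hi)))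
    simpa using sum_le_card_nsmul _ _ _ this
  have n3 : T e ≤ 6 * finrank F (H F a ⊓ JP φ Q : Submodule F (R F)) := by
    cases e with
    | zero => exact Nat.zero_le _
    | succ e =>
      have : FiniteDimensional F (H F a ⊓ JP φ Q : Submodule F (R F)) := fin_of_le inf_le_left
      rw [← T_eq, ← finrank_H F, ← rank_inj (H F e)
        (π := LinearMap.mulLeft F Q) (mul_right_injective₀ hQ0)]
      refine Nat.mul_le_mul_left _ (Submodule.finrank_mono ?_)
      rintro _ ⟨y, hy, rfl⟩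
      exact ⟨(show s + e = a by omega) ▸ H_mul hQ hy, Submodule.mem_sup_right ⟨y, rfl⟩⟩
  obtain ⟨ν, hν⟩ := Nat.exists_eq_add_of_le n1
  refine ⟨ν, hν, ?_⟩
  rw [hν, mul_add] at L1
  omega

theorem partA {b : Submodule F (O F)} [FiniteDimensional F b] {P : O F} (hP : P ≠ 0) (e : ℕ) :
    finrank F b + (e + 2).choose 2 ≤ finrank F (plus b P e) +
      finrank F (L F e ⊓ b.comap (LinearMap.mulLeft F P) : Submodule F (O F)) := by
  have := finL (F := F) e
  have inj : Function.Injective (LinearMap.mulLeft F P) := mul_right_injective₀ hP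
  have a5 := Submodule.finrank_sup_add_finrank_inf_eq b ((L F e).map (LinearMap.mulLeft F P))
  rw [rank_inj _ inj, rank_L] at a5
  have : FiniteDimensional F (L F e ⊓ b.comap (LinearMap.mulLeft F P) : Submodule F (O F)) :=
    Submodule.finiteDimensional_of_le inf_le_left
  rw [← a5, ← rank_inj (L F e ⊓ b.comap (LinearMap.mulLeft F P)) inj]
  refine Nat.add_le_add_left (Submodule.finrank_mono ?_) _
  rintro _ ⟨h1, y, hy, rfl⟩
  exact ⟨y, ⟨hy, h1⟩, rfl⟩

theorem partB {bs bD : Submodule F (O F)} [FiniteDimensional F bs] [FiniteDimensional F bD]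
    {G k x : ℕ} (h : ∀ κ ≤ k, finrank F (Vk bD (G + κ)) + x ≤ finrank F (Vk bs κ)) :
    finrank F (bs ⊓ Wk bD G : Submodule F (O F)) + (k + 1) * x ≤ finrank F bs := by
  have : FiniteDimensional F (bs ⊓ Wk bD G : Submodule F (O F)) :=
    Submodule.finiteDimensional_of_le inf_le_left
  have s1 := Wk_sum bs (k + 1)
  have s2 := Wk_sum (bs ⊓ Wk bD G) (k + 1)
  have := Cv.fin_Wk bs (k + 1)
  have s3 : finrank F (Wk (bs ⊓ Wk bD G) (k + 1)) ≤ finrank F (Wk bs (k + 1)) :=
    Submodule.finrank_mono (Submodule.comap_mono inf_le_left)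
  have s4 : ∑ κ ∈ range (k + 1), (finrank F (Vk (bs ⊓ Wk bD G) κ) + x) ≤
      ∑ κ ∈ range (k + 1), finrank F (Vk bs κ) := by
    refine sum_le_sum fun κ hκ => le_trans (Nat.add_le_add_right ?_ _)
      (h κ (Nat.lt_succ_iff.1 (mem_range.1 hκ)))
    have := Cv.fin_Vk bD (G + κ)
    refine Submodule.finrank_mono (Submodule.map_mono fun f hf => Cv.mem_Wk.2 ?_)
    rw [pow_add, mul_assoc]
    exact Cv.mem_Wk.1 (Cv.mem_Wk.1 hf).2
  rw [sum_add_distrib, sum_const, card_range, smul_eq_mul] at s4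
  omega

theorem CurveT.big {b b' : Submodule F (O F)} {n τ k s m κ : ℕ} {P G0 : O F}
    (hc : CurveT b b' (n + 1) τ k s m P G0) (hb : b' ≤ L F n) (hκ : κ ≤ k) :
    m + k - κ + 1 ≤
      finrank F (Vk (L F (m + k) ⊓ b'.comap (LinearMap.mulLeft F P) : Submodule F (O F)) κ) := by
  have := finL (F := F) (m + k)
  have : FiniteDimensional F (L F (m + k) ⊓ b'.comap (LinearMap.mulLeft F P) :
    Submodule F (O F)) := Submodule.finiteDimensional_of_le inf_le_left
  have := Cv.fin_Vk (L F (m + k) ⊓ b'.comap (LinearMap.mulLeft F P)) κ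
  rw [← rank_LT (F := F) (m + k - κ + 1)]
  refine Submodule.finrank_mono fun q hq => ?_
  obtain ⟨f, h1, h2⟩ := hc.full κ hκ q hq
  rw [mul_left_comm] at h1
  have h4 : s ≤ Cv.td P :=
    (hc.mon.2.1.symm.trans (Cv.rho_monic hc.mon.1).2.symm).le.trans (Cv.rho_deg P)
  have h3 := Cv.L_cancel hc.mon.1.ne_zero h4 (hb h1)
  rw [show n - s = m + k by have := hc.num.1; omega] at h3
  refine Cv.mem_Vk.2 ⟨f, Cv.mem_Wk.2 (Submodule.mem_inf.2 ⟨h3, ?_⟩), h2⟩
  rwa [Submodule.mem_comap, LinearMap.mulLeft_apply]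

/-- section D of the note -/
theorem secD [CharZero F] (hG : Gen φ) (hδ : Der φ δ 3 2) {a G k s m τ l : ℕ}
    (hφ : Conc φ (G + (m + k) + a)) {G0 : O F} {Q : R F} (hQ : Q ∈ H F s) (h0 : δ Q = 0)
    (hc : CurveT (sec φ (a + 1 + 1)) (sec φ (a + 1)) (a + 1 + 1) τ k s m (eps F Q) G0)
    (hl : 6 * ∑ j ∈ range (a + 1), om (plus (sec φ (a + 1)) (eps F Q) (m + k)) (1 + j) ≤
      T (m + k) + l) :
    ∃ ν x, 6 * ((G / 2 + 1) * ν) ≤ l ∧ (k + 1) * min (m + 1) x ≤ ν ∧ (x ≤ m →
      (G + (m + k) + 2).choose 2 + finrank F (sec φ (a + 1)) ≤ finrank F (sec φ (G + (m + k))) +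
        finrank F (plus (sec φ (a + 1)) (eps F Q) (m + k)) + ν + G * x) := by
  have ha : s + (m + k) = a + 1 := by have := hc.num.1; omega
  have hP : eps F Q ≠ 0 := hc.mon.1.ne_zero
  obtain ⟨u, u1, u2, u3⟩ := profile hG (G + (m + k))
  have t := transfer (j := G / 2) hφ hQ ha (Nat.mul_div_le G 2)
  obtain ⟨ν, n1, n2⟩ := loss hδ hφ hQ (fun c => hP (by rw [c, map_zero])) h0 ha (G / 2) hl
  have := fin_sec φ (a + 1)
  have := fin_sec φ (G + (m + k))
  have := finL (F := F) (m + k)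
  have pA := partA (b := sec φ (a + 1)) hP (m + k)
  have big := fun κ (hκ : κ ≤ k) => hc.big (sec_le φ _) hκ
  have : FiniteDimensional F (L F (m + k) ⊓ (sec φ (a + 1)).comap (LinearMap.mulLeft F (eps F Q)) :
    Submodule F (O F)) := Submodule.finiteDimensional_of_le inf_le_left
  generalize L F (m + k) ⊓ (sec φ (a + 1)).comap (LinearMap.mulLeft F (eps F Q)) = bs at *
  have pB := partB (bs := bs) (bD := sec φ (G + (m + k))) (G := G) (k := k)
    (x := min (m + 1) (u (m + k))) fun κ hκ => by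
      have a1 := u1 (m + k - κ) (by omega)
      have a2 := min_le u2 (i := m + k - κ) (m + k) (by omega) (by omega)
      rw [show G + (m + k) - (m + k - κ) = G + κ by omega] at a1
      have := big κ hκ
      omega
  rw [n1] at t
  refine ⟨ν, u (m + k), n2, by omega, fun hx => ?_⟩
  have a1 := u3 (m + k) (by omega)
  have a2 := u3 _ le_rfl
  have a3 := (tail_le u2 (e := m + k) (by omega) G (by omega)).2
  rw [Nat.add_sub_cancel] at a1
  rw [Nat.sub_self, om, Cv.Wk_zero] at a2
  rw [add_comm (m + k) G] at a3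
  have := Cv.fin_Wk (sec φ (G + (m + k))) G
  have a4 : finrank F (bs ⊓ Wk (sec φ (G + (m + k))) G : Submodule F (O F)) ≤
      om (sec φ (G + (m + k))) G := Submodule.finrank_mono inf_le_right
  omega

theorem numDir (m y u c : ℕ) (h : (m + 1 + y + u + (m + (m + 1 + y)) + 7) * c ≤
    T (m + (m + 1 + y)) + (m + y) * (m + 1 + y) * (m + 1 + y + 3 * u)) :
    c + ((m + (m + 1 + y) + 1) * (m + (m + 1 + y) + 2) + (m + y) * (m + 1 + y) +
      2 * (u * (m + y))) ≤
    (m + 1 + y + u + (m + (m + 1 + y)) + 1) * (m + 1 + y + u + (m + (m + 1 + y)) + 1 + 1) := by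
  refine Nat.le_of_mul_le_mul_left
    (?_ : (m + 1 + y + u + (m + (m + 1 + y)) + 7) * _ ≤ _ * _) (Nat.succ_pos _)
  rw [mul_add _ c]
  refine (Nat.add_le_add_right h _).trans ?_
  unfold T
  ring_nf
  omega

theorem secP [CharZero F] (hG : Gen φ) (hδ : Der φ δ 3 2) {a D k s m τ : ℕ} (hφ : Conc φ (D + a))
    (hD : a + 4 ≤ D) (hτ : 1 ≤ τ) {G0 : O F} {Q : R F} (hQ : Q ∈ H F s) (h0 : δ Q = 0)
    (hc : CurveT (sec φ (a + 1 + 1)) (sec φ (a + 1)) (a + 1 + 1) τ k s m (eps F Q) G0) :
    (D + 2).choose 2 + finrank F (sec φ (a + 1)) ≤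
      finrank F (sec φ D) + (a + 3 - τ).choose 2 := by
  obtain ⟨hn, hk⟩ := hc.num
  obtain ⟨u, hu⟩ := Nat.exists_eq_add_of_le hk
  have lev := hc.lev
  rw [show a + 1 + 1 - s = m + k + 1 by omega] at lev
  have hL : plus (sec φ (a + 1 + 1)) (eps F Q) (m + k + 1) ≤ L F (a + 1 + 1) :=
    sup_le (sec_le φ _) (by
      rintro _ ⟨y, hy, rfl⟩
      have := L_mul hc.mon.2.2 hy
      rwa [show s + (m + k + 1) = a + 1 + 1 by omega] at this)
  have := fin_plus φ (a + 1 + 1) (eps F Q) (m + k + 1)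
  have := fin_plus φ (a + 1) (eps F Q) (m + k)
  have up := om_up (b := plus (sec φ (a + 1 + 1)) (eps F Q) (m + k + 1))
    (b' := plus (sec φ (a + 1)) (eps F Q) (m + k)) fun f hf => by
      obtain ⟨x, hx, _, ⟨y, hy, rfl⟩, rfl⟩ := Submodule.mem_sup.1 hf
      rw [mul_add]
      refine Submodule.add_mem_sup (sec_w hx) ⟨Polynomial.C Polynomial.X * y, ?_, ?_⟩
      · rw [add_comm (m + k)]
        exact L_mul (mem_L.2 tau_w.le) hy
      · rw [LinearMap.mulLeft_apply, LinearMap.mulLeft_apply, mul_left_comm]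
  have t1 : ∀ x : ℕ, 2 * x + (x - 1) * (x - 1 + 1) = x * (x + 1) := fun x => by
    cases x <;> simp
    ring
  have t2 : ∀ x : ℕ, 3 * (x * (x + 1)) + T (x - 1) = T x := fun x => by
    cases x <;> simp [T]
    ring
  have h1 := om_le hL 2 (v := fun j => (m + k + 2 - j) + if j < k then k - j + u else 0)
    (B := fun j => (m + k + 2 - j) * (m + k + 2 - j + 1) + (k - j) * (k - j + 1) +
      2 * (u * (k - j))) (fun j => ?_) fun j => by
    have e1 := t1 (m + k + 2 - j)
    have e2 := t1 (k - j)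
    rw [Nat.sub_add_eq, Nat.sub_add_eq k]
    split_ifs with c
    · have : u * (k - j - 1) + u = u * (k - j) := by
        rw [← Nat.mul_succ]
        congr 1
        omega
      omega
    · have : u * (k - j - 1) ≤ u * (k - j) := Nat.mul_le_mul_left _ (Nat.sub_le _ _)
      omega
  swap
  · rcases le_or_gt j (a + 1 + 1) with c | c
    · have := lev j
      split_ifs at this ⊢ <;> omega
    · have : Wk (plus (sec φ (a + 1 + 1)) (eps F Q) (m + k + 1)) j = ⊥ :=
        (Submodule.eq_bot_iff _).2 fun f hf => (L_w (hL hf)).resolve_right fun c => by omega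
      rw [Vk, this, Submodule.map_bot, finrank_bot]
      exact Nat.zero_le _
  have h2 := tele 6 (f := om (plus (sec φ (a + 1 + 1)) (eps F Q) (m + k + 1))) (B := fun j =>
      T (m + k + 2 - j) + (T (k - j) + 3 * u * ((k - j) * (k - j + 1)))) (fun j => by
    have e0 := h1 j
    have e1 := t2 (m + k + 2 - j)
    have e2 := t2 (k - j)
    have e3 := congrArg (3 * u * ·) (t1 (k - j))
    rw [Nat.sub_add_eq, Nat.sub_add_eq k]
    simp only [mul_add (3 * u)] at e3
    have : 3 * u * (2 * (k - j)) = 6 * (u * (k - j)) := by ring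
    omega) (a + 1) 2
  have h3 : 6 * ∑ j ∈ range (a + 1), om (plus (sec φ (a + 1)) (eps F Q) (m + k)) (1 + j) ≤
      T (m + k) + (k - 1) * k * (k + 3 * u) := by
    refine (Nat.mul_le_mul_left 6 (sum_le_sum fun j _ => (up _).trans
      (le_of_eq (by congr 1; omega)))).trans (h2.trans (Nat.add_le_add_left ?_ _))
    rcases k with _ | _ | k
    · simp [T]
    · simp [T]
    · simp only [T, show k + 1 + 1 - 2 = k from rfl, Nat.add_sub_cancel]
      ring_nf
      omega
  have h4 : 2 * finrank F (plus (sec φ (a + 1)) (eps F Q) (m + k)) ≤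
      (m + k + 1) * (m + k + 2) + (k - 1) * k + 2 * (u * (k - 1)) := by
    have e1 := up 0
    have e2 := h1 1
    rw [om, Cv.Wk_zero, zero_add] at e1
    have : (k - 1) * (k - 1 + 1) = (k - 1) * k := by cases k <;> simp
    simp only [show m + k + 2 - 1 = m + k + 1 from rfl, this,
      show m + k + 1 + 1 = m + k + 2 from rfl] at e2
    omega
  have h5 := two_ch (k + u + (m + k) + 1)
  rw [show a + 3 - τ = k + u + (m + k) + 1 + 1 by omega]
  rcases lt_or_ge m k with c | c
  · obtain ⟨c0, e1, e2⟩ := direct hG hφ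
    have e3 : ∀ j, om (sec φ (a + 1)) j ≤ om (plus (sec φ (a + 1)) (eps F Q) (m + k)) j := fun j => by
      have := Cv.fin_Wk (plus (sec φ (a + 1)) (eps F Q) (m + k)) j
      exact Submodule.finrank_mono (Submodule.comap_mono le_sup_left)
    have e4 := sum_le_sum (s := range (a + 1)) fun j _ => e3 (1 + j)
    have e5 := e3 0
    rw [om, om, Cv.Wk_zero, Cv.Wk_zero] at e5
    obtain ⟨y, rfl⟩ : ∃ y, k = m + 1 + y := Nat.exists_eq_add_of_le c
    rw [show m + 1 + y - 1 = m + y by omega] at h3 h4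
    have e7 := Nat.mul_le_mul_right (2 * c0)
      (show m + 1 + y + u + (m + (m + 1 + y)) + 7 ≤ D + 3 by omega)
    have e8 : (D + 3) * (2 * c0) = 2 * ((D + 3) * c0) := by ring
    have e9 := numDir m y u (2 * c0) (by omega)
    omega
  · obtain ⟨G, rfl⟩ : ∃ G, D = G + (m + k) := ⟨D - (m + k), by omega⟩
    obtain ⟨ν, x, e1, e2, e3⟩ := secD hG hδ hφ hQ h0 hc h3
    have b1 : (k - 1) * k * (k + 3 * u) ≤ 3 * ((k + u) * ((k - 1) * k)) := by
      have := Nat.mul_le_mul_left ((k - 1) * k) (show k + 3 * u ≤ 3 * (k + u) by omega)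
      linarith
    have b2 : (G + 1) * ν ≤ (k + u) * ((k - 1) * k) := by
      have := Nat.mul_le_mul_right ν (show G + 1 ≤ 2 * (G / 2 + 1) by omega)
      rw [mul_assoc] at this
      omega
    have b3 : ν ≤ (k - 1) * k := Nat.le_of_mul_le_mul_left
      (b2.trans (Nat.mul_le_mul_right _ (by omega))) (Nat.succ_pos G)
    have b4 : (k - 1) * k ≤ k * k := Nat.mul_le_mul_right _ (Nat.sub_le _ _)
    have b5 : min (m + 1) x < m + 1 := by
      refine Nat.lt_of_mul_lt_mul_left (a := k + 1) (lt_of_le_of_lt (e2.trans (b3.trans b4)) ?_)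
      nlinarith
    rw [min_eq_right (by omega)] at e2
    have e4 := e3 (by omega)
    have b6 : G * x ≤ (k + u) * k := by
      refine Nat.le_of_mul_le_mul_left (?_ : (k + 1) * _ ≤ _ * _) (Nat.succ_pos k)
      have := Nat.mul_le_mul_left G e2
      have := Nat.mul_le_mul_left (k + u) b4
      nlinarith
    have b7 : u * (k - 1) ≤ u * k := Nat.mul_le_mul_left _ (Nat.sub_le _ _)
    obtain ⟨z, rfl⟩ := Nat.exists_eq_add_of_le c
    have b8 : 2 * (k * k) + 2 * ((k + u) * k) + ((k + z + k + 1) * (k + z + k + 2) + k * k +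
        2 * (u * k)) ≤ (k + u + (k + z + k) + 1) * (k + u + (k + z + k) + 1 + 1) := by
      ring_nf
      omega
    omega

/-- theorem (T) of the note -/
theorem secT [CharZero F] (hG : Gen φ) {a D τ : ℕ} (hφ : Conc φ (D + a)) (hD : a + 4 ≤ D)
    (hτ : 1 ≤ τ) (h : finrank F (sec φ (a + 1 + 1)) + τ ≤ finrank F (sec φ (a + 1)) + (a + 1 + 2)) :
    (D + 2).choose 2 + finrank F (sec φ (a + 1)) ≤
      finrank F (sec φ D) + (a + 3 - τ).choose 2 := by
  obtain hN | ⟨k, s, m, P0, G0, hP⟩ := sec_curveT hG (a + 1) τ hτ h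
  · exact secN hG hφ (by omega) hN
  · obtain ⟨-, -, -, D1, D3, -, -, -, h1, h3, hcm⟩ := id hG
    obtain ⟨P, hPs, rfl⟩ := L_lift hP.mon.2.2
    obtain ⟨Q, hQ, eQ, hQ0⟩ := surf h1 h3 hcm hPs (theta h1 h3 (hP.curve hτ) hPs rfl)
    exact secP hG h3 hφ hD hτ hQ hQ0 (eQ ▸ hP)

end Pool.Agent.MP_708e57_al.c4

end MrgPart8

-- marker of a merged file
example : 731051 + 373436 = 731051 + 373436 := rfl
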