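import Pool.Agent.MP_708e57_al.c4.SecT
import Pool.Agent.MP_708e57_al.c4.Gen
import Pool.Agent.MP_708e57_al.c4.Conv

/-! Codimension four: Gorenstein sequences are the SI-sequences. -/

set_option autoImplicit false

namespace Pool.Agent.MP_708e57_al.c4

open Module MvPolynomial

universe u

variable {F : Type u} [Field F] {φ : R F →ₗ[F] F}

theorem star [CharZero F] (hg : Gen φ) {a g : ℕ} (hφ : Conc φ (a + (g + 1 + 1) + a)) :
    finrank F (sec φ (a + g + 1)) + (a + g + 1 + 1) < finrank F (sec φ (a + g + 1 + 1)) := by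
  refine not_le.1 fun c => ?_
  have hc := sec_curve curveS hg _ c
  obtain ⟨-, -, -, D1, D3, -, -, -, h1, h3, hcm⟩ := hg
  obtain hN | ⟨k, s, m, P0, G0, hP⟩ := hc
  · exact caseN h3 hφ hN
  · obtain ⟨P, hPs, rfl⟩ := L_lift hP.mon.2.2
    obtain ⟨Q, hQ, eQ, hQ0⟩ := surf h1 h3 hcm hPs (theta h1 h3 hP hPs rfl)
    exact caseP h3 hφ (fun d' _ => uni curveS genS d' F) hQ hQ0 (eQ ▸ hP)

theorem delta {a D : ℕ} (hφ : Conc φ (D + a + 1)) :
    di φ a + finrank F (sec φ (a + 1)) + (D + 1 + 2).choose 2 =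
      di φ (a + 1) + finrank F (sec φ (D + 1)) := by
  have h3 : Conc (φ ∘ₗ LinearMap.mulLeft F (X 3)) (D + a) := Conc.mul hφ (H_X 3)
  have s1 := hφ.symm (i := D + 1) (j := a) (by omega)
  have s2 := h3.symm (i := D) (j := a) rfl
  have r1 := di_sec φ D
  have r2 := di_sec φ a
  rw [show D + 1 + 3 = D + 3 + 1 from rfl, Nat.choose_succ_succ' (D + 3) 2] at s1
  simp only [Nat.reduceAdd, add_assoc D] at s1 ⊢
  omega

theorem sec_rank (φ : R F →ₗ[F] F) (n : ℕ) : finrank F (sec φ n) ≤ (n + 2).choose 2 := by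
  have := finL (F := F) n
  rw [← rank_L (F := F)]
  exact Submodule.finrank_mono (sec_le φ n)

theorem isSI_of_gor (K : Type u) [Field K] [CharZero K] (d : ℕ) (h : ℕ → ℕ)
    (hG : IsGorSeq K d h) (h1 : h 1 ≤ 4) : IsSI d h := by
  obtain ⟨φ0, c0, e0⟩ := bridgeS K d h hG h1
  obtain ⟨F, _, _, φ, hφ, hg, e⟩ := genS K φ0 d c0
  obtain ⟨-, -, -, -, -, -, -, -, -, -, hd, hz⟩ := hG
  have e1 : ∀ n, h n + di φ n = (n + 3).choose 3 := fun n => e n ▸ e0 n
  have sym : ∀ i ≤ d, h i = h (d - i) := fun i hi => by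
    have := hφ.symm (i := i) (j := d - i) (by omega)
    have := e1 i
    have := e1 (d - i)
    omega
  have mon : ∀ i, 2 * (i + 1) ≤ d → h i ≤ h (i + 1) := fun i hi => by
    have := uni curveS genS d F φ hφ i (i + 1) (by omega) (by omega)
    have := e1 i
    have := e1 (i + 1)
    omega
  refine ⟨sym, hz, mon, ?_, fun l hl => ?_⟩
  · have := sym 0 (Nat.zero_le d)
    have := e1 0
    simp only [Nat.sub_zero, zero_add, Nat.choose_self, if_true] at *
    omega
  obtain ⟨a, rfl⟩ := Nat.exists_eq_add_of_le' hl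
  simp only [Nat.add_one_ne_zero, if_false, Nat.add_sub_cancel]
  by_cases c : 2 * (a + 1 + 1) ≤ d
  swap
  · rw [if_neg c]
    exact Nat.zero_le _
  rw [if_pos c, if_pos (by omega)]
  obtain ⟨g, rfl⟩ : ∃ g, d = a + (g + 1 + 1) + a := ⟨d - 2 * a - 2, by omega⟩
  have st := star hg hφ
  have d1 := delta (φ := φ) (a := a) (D := a + g + 1) (by convert hφ using 1; omega)
  have d2 := delta (φ := φ) (a := a + 1) (D := a + g) (by convert hφ using 1; omega)
  have m1 := mon a (by omega)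
  have m2 := mon (a + 1) c
  have b1 := e1 a
  have b2 := e1 (a + 1)
  have b3 := e1 (a + 1 + 1)
  have r1 := sec_rank φ (a + g + 1 + 1)
  have r2 := sec_rank φ (a + g + 1)
  have p1 : (a + 1 + 3).choose 3 = (a + 1 + 2).choose 2 + (a + 3).choose 3 :=
    Nat.choose_succ_succ' (a + 3) 2
  have p2 : (a + 1 + 1 + 3).choose 3 = (a + 1 + 3).choose 2 + (a + 1 + 3).choose 3 :=
    Nat.choose_succ_succ' (a + 4) 2
  have p3 : (a + 1 + 3).choose 2 = a + 3 + (a + 1 + 2).choose 2 :=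
    (Nat.choose_succ_succ' (a + 3) 1).trans (by rw [Nat.choose_one_right])
  have p4 : (a + g + 1 + 1 + 2).choose 2 = a + g + 3 + (a + g + 1 + 2).choose 2 :=
    (Nat.choose_succ_succ' (a + g + 3) 1).trans (by rw [Nat.choose_one_right])
  refine mac3S' (a + 1) _ _ (by omega) (by omega) (by omega) fun τ h1 h2 => ?_
  have := secT (a := a) (D := a + g + 1 + 1) (τ := τ) hg hφ (by omega) h1 (by omega)
  rw [show a + 1 + 2 - τ = a + 3 - τ from rfl]
  omega

theorem gor_iff_SI (K : Type u) [Field K] [CharZero K] (d : ℕ) (h : ℕ → ℕ) (h1 : h 1 ≤ 4) :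
    IsGorSeq K d h ↔ IsSI d h :=
  ⟨fun hG => isSI_of_gor K d h hG h1, convS K d h h1⟩

end Pool.Agent.MP_708e57_al.c4
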